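import Mathlib

/-!
# The differential equation of the zeta function has no rational solutions
-/

set_option autoImplicit false

namespace Pool.Agent.W2helper22.Tw

open Polynomial

section closed

variable {K : Type*} [Field K]

/-- `1 + A X² + B X³` -/
noncomputable def fh {R : Type*} [CommRing R] (A B : R) : R[X] := 1 + C A * X ^ 2 + C B * X ^ 3

/-- `fh - X fh'` -/
noncomputable def fa {R : Type*} [CommRing R] (A B : R) : R[X] := 1 - C A * X ^ 2 - 2 * C B * X ^ 3

lemma fh_map {R S : Type*} [CommRing R] [CommRing S] (φ : R →+* S) (A B : R) :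
    (fh A B).map φ = fh (φ A) (φ B) := by
  simp [fh]

lemma fa_map {R S : Type*} [CommRing R] [CommRing S] (φ : R →+* S) (A B : R) :
    (fa A B).map φ = fa (φ A) (φ B) := by
  simp [fa]

lemma fa_eq {R : Type*} [CommRing R] (A B : R) : fa A B = fh A B - X * derivative (fh A B) := by
  simp only [fa, fh, derivative_add, derivative_one, derivative_mul, derivative_C, derivative_X_pow,
    zero_mul, zero_add, Nat.cast_ofNat]
  have e2 : (C (2 : R)) = (2 : R[X]) := map_ofNat C 2
  have e3 : (C (3 : R)) = (3 : R[X]) := map_ofNat C 3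
  rw [e2, e3]
  ring

/-- the obstruction -/
noncomputable def obs {R : Type*} [CommRing R] (A B c : R) (n : ℕ) (U V : R[X]) : R[X] :=
  2 * X * fh A B * (V * derivative U - derivative V * U) - fa A B * U * V -
    (n : R[X]) * (1 + C c * X) * V ^ 2

lemma obs_mul {R : Type*} [CommRing R] (A B c : R) (n : ℕ) (U V g : R[X]) :
    obs A B c n (g * U) (g * V) = g ^ 2 * obs A B c n U V := by
  unfold obs
  rw [derivative_mul, derivative_mul]
  ring

lemma disc_root [CharZero K] {A B ρ : K} (hAB : 4 * A ^ 3 + 27 * B ^ 2 ≠ 0)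
    (h : 1 + A * ρ ^ 2 + B * ρ ^ 3 = 0) : ρ * (2 * A * ρ + 3 * B * ρ ^ 2) ≠ 0 := by
  intro h1
  have hρ : ρ ≠ 0 := by
    rintro rfl
    simp at h
  have h2 : A * ρ ^ 2 = -3 := by linear_combination 3 * h - h1
  have h3 : B * ρ ^ 3 = 2 := by linear_combination h - h2
  apply hAB
  have h4 : ρ ^ 6 * (4 * A ^ 3 + 27 * B ^ 2) = 0 := by
    have e : ρ ^ 6 * (4 * A ^ 3 + 27 * B ^ 2) = 4 * (A * ρ ^ 2) ^ 3 + 27 * (B * ρ ^ 3) ^ 2 := by
      ring
    rw [e, h2, h3]
    ring
  exact (mul_eq_zero.1 h4).resolve_left (pow_ne_zero 6 hρ)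

/-- the obstruction does not vanish -/
theorem obs_ne_zero_aux [CharZero K] [IsAlgClosed K] {A B c : K} (hAB : 4 * A ^ 3 + 27 * B ^ 2 ≠ 0)
    {n : ℕ} (hn : 1 ≤ n) : ∀ (d : ℕ) (U V : K[X]), V.natDegree = d → V ≠ 0 → obs A B c n U V ≠ 0 := by
  intro d
  induction d using Nat.strong_induction_on with
  | _ d ih =>
    intro U V hd hV hobs
    rcases Nat.eq_zero_or_pos d with rfl | hd0
    · -- `V` is constant
      obtain ⟨v, rfl⟩ := natDegree_eq_zero.1 hd
      have hv : v ≠ 0 := fun h => hV (by rw [h, map_zero])
      have h1 : C v * (2 * X * fh A B * derivative U - fa A B * U - (n : K[X]) * (1 + C c * X) * C v) = 0 := by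
        rw [← hobs]
        unfold obs
        rw [derivative_C]
        ring
      have h2 := (mul_eq_zero.1 h1).resolve_left (C_ne_zero.2 hv)
      have hn0 : (n : K) ≠ 0 := by exact_mod_cast (by omega : n ≠ 0)
      have hU : U ≠ 0 := by
        rintro rfl
        have h3 := congrArg (coeff · 0) h2
        simp at h3
        rcases h3 with h3 | h3
        · omega
        · exact hv h3
      obtain ⟨e, he⟩ : ∃ e, e = U.natDegree := ⟨_, rfl⟩
      have hl : U.coeff e ≠ 0 := by
        rw [he]
        exact leadingCoeff_ne_zero.2 hU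
      have hc0 : ∀ m, e < m → U.coeff m = 0 := fun m hm => coeff_eq_zero_of_natDegree_lt (by omega)
      have hd0' : ∀ m, e ≤ m → (derivative U).coeff m = 0 := fun m hm => by
        rw [coeff_derivative, hc0 (m + 1) (by omega), zero_mul]
      -- the coefficients of the equation
      have hexp : 2 * X * fh A B * derivative U - fa A B * U - (n : K[X]) * (1 + C c * X) * C v =
          C 2 * (X * derivative U) + C (2 * A) * (X ^ 3 * derivative U) +
          C (2 * B) * (X ^ 4 * derivative U) - U + C A * (X ^ 2 * U) + C (2 * B) * (X ^ 3 * U) -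
          C (n * v) - C (n * v * c) * X := by
        unfold fh fa
        have e2 : (C (2 : K)) = (2 : K[X]) := map_ofNat C 2
        have en : (C (n : K)) = (n : K[X]) := map_natCast C n
        simp only [map_mul, e2, en]
        ring
      rw [hexp] at h2
      by_cases hB : B = 0
      · have hA : A ≠ 0 := by
          rintro rfl
          apply hAB
          rw [hB]
          ring
        have h3 := congrArg (coeff · (e + 2)) h2
        simp only [coeff_sub, coeff_add, coeff_C_mul, coeff_zero] at h3
        rw [show e + 2 = (e + 1) + 1 from rfl, coeff_X_mul, coeff_X] at h3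
        rw [hB] at h3
        rw [hd0' (e + 1) (by omega), hc0 (e + 1 + 1) (by omega),
          if_neg (by omega), coeff_C, if_neg (by omega)] at h3
        have e3 : (X ^ 2 * U).coeff (e + 1 + 1) = U.coeff e := by
          rw [show e + 1 + 1 = e + 2 from rfl, coeff_X_pow_mul]
        have e4 : (X ^ 3 * derivative U).coeff (e + 1 + 1) = U.coeff e * e := by
          rw [show (X : K[X]) ^ 3 = X ^ 2 * X by ring, mul_assoc, show e + 1 + 1 = e + 2 from rfl,
            coeff_X_pow_mul]
          rcases Nat.eq_zero_or_pos e with h | h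
          · rw [h]
            simp
          · obtain ⟨i, rfl⟩ : ∃ i, e = i + 1 := ⟨e - 1, by omega⟩
            rw [coeff_X_mul, coeff_derivative]
            push_cast
            ring
        rw [e3, e4] at h3
        have h4 : (2 * (e : K) + 1) * (A * U.coeff e) = 0 := by linear_combination h3
        have h5 : (2 * (e : K) + 1) ≠ 0 := by exact_mod_cast (by omega : 2 * e + 1 ≠ 0)
        exact (mul_ne_zero h5 (mul_ne_zero hA hl)) h4
      · have h3 := congrArg (coeff · (e + 3)) h2
        simp only [coeff_sub, coeff_add, coeff_C_mul, coeff_zero] at h3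
        rw [show e + 3 = (e + 2) + 1 from rfl, coeff_X_mul, coeff_X] at h3
        rw [hd0' (e + 2) (by omega), hc0 (e + 2 + 1) (by omega),
          if_neg (by omega), coeff_C, if_neg (by omega)] at h3
        have e3 : (X ^ 2 * U).coeff (e + 2 + 1) = 0 := by
          rw [show e + 2 + 1 = (e + 1) + 2 from rfl, coeff_X_pow_mul, hc0 (e + 1) (by omega)]
        have e5 : (X ^ 3 * U).coeff (e + 2 + 1) = U.coeff e := by
          rw [show e + 2 + 1 = e + 3 from rfl, coeff_X_pow_mul]
        have e6 : (X ^ 3 * derivative U).coeff (e + 2 + 1) = 0 := by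
          rw [show e + 2 + 1 = e + 3 from rfl, coeff_X_pow_mul, hd0' e le_rfl]
        have e4 : (X ^ 4 * derivative U).coeff (e + 2 + 1) = U.coeff e * e := by
          rw [show (X : K[X]) ^ 4 = X ^ 3 * X by ring, mul_assoc, show e + 2 + 1 = e + 3 from rfl,
            coeff_X_pow_mul]
          rcases Nat.eq_zero_or_pos e with h | h
          · rw [h]
            simp
          · obtain ⟨i, rfl⟩ : ∃ i, e = i + 1 := ⟨e - 1, by omega⟩
            rw [coeff_X_mul, coeff_derivative]
            push_cast
            ring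
        rw [e3, e4, e5, e6] at h3
        have h4 : (2 * ((e : K) + 1)) * (B * U.coeff e) = 0 := by linear_combination h3
        have h5 : (2 * ((e : K) + 1)) ≠ 0 := by exact_mod_cast (by omega : 2 * (e + 1) ≠ 0)
        exact (mul_ne_zero h5 (mul_ne_zero hB hl)) h4
    · -- `V` has a root
      obtain ⟨ρ, hρ⟩ := IsAlgClosed.exists_root V (by
        rw [degree_eq_natDegree hV, hd]
        exact_mod_cast hd0.ne')
      obtain ⟨V₁, hV₁, hnd⟩ := exists_eq_pow_rootMultiplicity_mul_and_not_dvd V hV ρ
      obtain ⟨m, hm⟩ : ∃ m, m = rootMultiplicity ρ V := ⟨_, rfl⟩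
      rw [← hm] at hV₁
      have hm1 : 1 ≤ m := by
        rw [hm]
        exact (rootMultiplicity_pos hV).2 hρ
      obtain ⟨s, rfl⟩ : ∃ s, m = s + 1 := ⟨m - 1, by omega⟩
      have hV1ρ : V₁.eval ρ ≠ 0 := fun h => hnd (dvd_iff_isRoot.2 h)
      -- `U` does not vanish at the root
      have hUρ : U.eval ρ ≠ 0 := by
        intro h
        obtain ⟨U₂, hU₂⟩ := dvd_iff_isRoot.2 h
        obtain ⟨V₂, hV₂⟩ := dvd_iff_isRoot.2 hρ
        have hV₂0 : V₂ ≠ 0 := by
          rintro rfl
          rw [mul_zero] at hV₂
          exact hV hV₂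
        rw [hU₂, hV₂, obs_mul] at hobs
        have h1 := (mul_eq_zero.1 hobs).resolve_left (pow_ne_zero 2 (X_sub_C_ne_zero ρ))
        refine ih V₂.natDegree ?_ U₂ V₂ rfl hV₂0 h1
        rw [← hd, hV₂, natDegree_mul (X_sub_C_ne_zero ρ) hV₂0, natDegree_X_sub_C]
        omega
      have hs0 : ((s : K) + 1) ≠ 0 := by exact_mod_cast Nat.succ_ne_zero s
      -- the derivative of `V`
      have hdV : derivative V = (X - C ρ) ^ s * (C ((s : K) + 1) * V₁ + (X - C ρ) * derivative V₁) := by
        rw [hV₁, derivative_mul, derivative_X_sub_C_pow, Nat.add_sub_cancel, pow_succ]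
        push_cast
        rw [map_add, map_natCast, map_one]
        ring
      have hsplit : obs A B c n U V = (X - C ρ) ^ s * (2 * X * fh A B *
          ((X - C ρ) * V₁ * derivative U - (C ((s : K) + 1) * V₁ + (X - C ρ) * derivative V₁) * U) -
          fa A B * U * ((X - C ρ) * V₁) -
          (n : K[X]) * (1 + C c * X) * ((X - C ρ) ^ (s + 2) * V₁ ^ 2)) := by
        unfold obs
        rw [hdV, hV₁]
        ring
      rw [hsplit] at hobs
      have h1 := (mul_eq_zero.1 hobs).resolve_left (pow_ne_zero s (X_sub_C_ne_zero ρ))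
      -- the root is a root of `X fh`
      have h2 := congrArg (eval ρ) h1
      simp only [eval_sub, eval_mul, eval_add, eval_pow, eval_X, eval_C, sub_self, zero_mul,
        eval_zero, eval_ofNat, mul_zero, add_zero, zero_sub, sub_zero] at h2
      rw [zero_pow (by omega), zero_mul, mul_zero, sub_zero] at h2
      have h3 : ρ * (fh A B).eval ρ = 0 := by
        have h4 : (2 * ((s : K) + 1) * (V₁.eval ρ * U.eval ρ)) * (ρ * (fh A B).eval ρ) = 0 := by
          linear_combination -h2
        refine (mul_eq_zero.1 h4).resolve_left ?_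
        exact mul_ne_zero (mul_ne_zero two_ne_zero hs0) (mul_ne_zero hV1ρ hUρ)
      have h4 : (X * fh A B).IsRoot ρ := by
        rw [IsRoot, eval_mul, eval_X]
        exact h3
      obtain ⟨k, hk⟩ := dvd_iff_isRoot.2 h4
      have h5 : (X - C ρ) * (2 * k *
          ((X - C ρ) * V₁ * derivative U - (C ((s : K) + 1) * V₁ + (X - C ρ) * derivative V₁) * U) -
          fa A B * U * V₁ -
          (n : K[X]) * (1 + C c * X) * ((X - C ρ) ^ (s + 1) * V₁ ^ 2)) = 0 := by
        rw [← h1]
        linear_combination (-2 * ((X - C ρ) * V₁ * derivative U -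
          (C ((s : K) + 1) * V₁ + (X - C ρ) * derivative V₁) * U)) * hk
      have h6 := (mul_eq_zero.1 h5).resolve_left (X_sub_C_ne_zero ρ)
      have h7 := congrArg (eval ρ) h6
      simp only [eval_sub, eval_mul, eval_add, eval_pow, eval_X, eval_C, sub_self, zero_mul,
        eval_zero, eval_ofNat, add_zero, zero_sub] at h7
      rw [zero_pow (by omega), zero_mul, mul_zero, sub_zero] at h7
      have h8 : (fa A B).eval ρ = -(2 * ((s : K) + 1)) * k.eval ρ := by
        have h9 : (U.eval ρ * V₁.eval ρ) * ((fa A B).eval ρ + 2 * ((s : K) + 1) * k.eval ρ) = 0 := by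
          linear_combination -h7
        have h10 := (mul_eq_zero.1 h9).resolve_left (mul_ne_zero hUρ hV1ρ)
        linear_combination h10
      have hkd : k.eval ρ = (fh A B).eval ρ + ρ * (derivative (fh A B)).eval ρ := by
        have h9 := congrArg (fun P => eval ρ (derivative P)) hk
        simp only [derivative_mul, derivative_X, derivative_sub, derivative_C, one_mul, sub_zero,
          eval_add, eval_mul, eval_X, eval_sub, eval_C, sub_self, zero_mul, add_zero] at h9
        exact h9.symm
      have hfa : (fa A B).eval ρ = (fh A B).eval ρ - ρ * (derivative (fh A B)).eval ρ := by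
        rw [fa_eq, eval_sub, eval_mul, eval_X]
      have hfe : (fh A B).eval ρ = 1 + A * ρ ^ 2 + B * ρ ^ 3 := by
        unfold fh
        simp
      have hfd : (derivative (fh A B)).eval ρ = 2 * A * ρ + 3 * B * ρ ^ 2 := by
        unfold fh
        simp only [derivative_add, derivative_one, derivative_mul, derivative_C, derivative_X_pow,
          zero_mul, zero_add, Nat.cast_ofNat, eval_add, eval_mul, eval_C, eval_pow, eval_X]
        ring
      rcases mul_eq_zero.1 h3 with h9 | h9
      · rw [h9] at h8 hfa hkd hfe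
        rw [hfa, hkd, hfe] at h8
        have h10 : (2 * (s : K) + 3) = 0 := by linear_combination h8
        have h11 : (2 * (s : K) + 3) ≠ 0 := by exact_mod_cast (by omega : 2 * s + 3 ≠ 0)
        exact h11 h10
      · rw [hfa, hkd, h9, hfd] at h8
        rw [hfe] at h9
        have h10 := disc_root hAB h9
        have h11 : (2 * (s : K) + 1) * (ρ * (2 * A * ρ + 3 * B * ρ ^ 2)) = 0 := by
          linear_combination h8
        have h12 : (2 * (s : K) + 1) ≠ 0 := by exact_mod_cast (by omega : 2 * s + 1 ≠ 0)
        exact mul_ne_zero h12 h10 h11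

end closed

/-- the obstruction does not vanish over a domain of characteristic zero -/
theorem obs_ne_zero {R : Type*} [CommRing R] [IsDomain R] [CharZero R] {A B c : R}
    (hAB : 4 * A ^ 3 + 27 * B ^ 2 ≠ 0) {n : ℕ} (hn : 1 ≤ n) (U V : R[X]) (hV : V ≠ 0) :
    obs A B c n U V ≠ 0 := by
  intro h
  let K := AlgebraicClosure (FractionRing R)
  let φ : R →+* K := (algebraMap (FractionRing R) K).comp (algebraMap R (FractionRing R))
  have hφ : Function.Injective φ :=
    (algebraMap (FractionRing R) K).injective.comp (IsFractionRing.injective R (FractionRing R))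
  have : CharZero (FractionRing R) := charZero_of_injective_algebraMap
    (IsFractionRing.injective R (FractionRing R))
  have : CharZero K := charZero_of_injective_algebraMap (algebraMap (FractionRing R) K).injective
  refine obs_ne_zero_aux (A := φ A) (B := φ B) (c := φ c) ?_ hn _ (U.map φ) (V.map φ) rfl
    ((Polynomial.map_ne_zero_iff hφ).2 hV) ?_
  · intro h1
    apply hAB
    apply hφ
    have e4 : φ 4 = 4 := map_ofNat φ 4
    have e27 : φ 27 = 27 := map_ofNat φ 27
    rw [map_zero, ← h1, map_add, map_mul, map_mul, map_pow, map_pow, e4, e27]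
  · have h1 := congrArg (Polynomial.map φ) h
    rw [Polynomial.map_zero] at h1
    rw [← h1]
    unfold obs
    rw [← fh_map, ← fa_map]
    simp [Polynomial.derivative_map]

end Pool.Agent.W2helper22.Tw
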