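import Pool.Agent.W2helper22.Tw.Uni

/-!
# Integral points near an analytic curve over `ℚ_p`
-/

set_option autoImplicit false

namespace Pool.Agent.W2helper22.Tw

open PowerSeries Pool.Agent.Y732 Finset

variable {p : ℕ} [hp : Fact p.Prime]

/-- the Taylor expansion -/
lemma ev_expand {x₀ x : ℤ_[p]} (h₀ : (p : ℤ_[p]) ∣ x₀) (hx : (p : ℤ_[p]) ∣ x) (f : ℤ_[p]⟦X⟧)
    (T : ℕ) : ev x f = ∑ n ∈ range T, (x - x₀) ^ n * ev x₀ ((dq x₀)^[n] f) +
      (x - x₀) ^ T * ev x ((dq x₀)^[T] f) := by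
  induction T with
  | zero => simp
  | succ T ih =>
    rw [ih, sum_range_succ, ev_dq h₀ hx ((dq x₀)^[T] f), Function.iterate_succ_apply']
    ring

/-- the box principle -/
lemma pigeon {J : ℕ} (hJ : 1 ≤ J) (a : Fin J → ℕ → ℤ_[p]) (k : ℕ) :
    ∃ c : Fin J → ℤ, c ≠ 0 ∧ (∀ j, |c j| ≤ (p : ℤ) ^ (k * (J + 1))) ∧
      ∀ n < J, (p : ℤ_[p]) ^ (2 * k * (J - n)) ∣ ∑ j, (c j : ℤ_[p]) * a j n := by
  classical
  have hne : ∀ i : Fin J, NeZero (p ^ (2 * k * (J - (i : ℕ)))) := fun i =>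
    ⟨pow_ne_zero _ hp.out.ne_zero⟩
  let Φ : (Fin J → Fin (p ^ (k * (J + 1)) + 1)) → (i : Fin J) → ZMod (p ^ (2 * k * (J - (i : ℕ)))) :=
    fun c i => PadicInt.toZModPow (2 * k * (J - (i : ℕ))) (∑ j, (((c j : ℕ) : ℤ) : ℤ_[p]) * a j i)
  have hcard : Fintype.card ((i : Fin J) → ZMod (p ^ (2 * k * (J - (i : ℕ))))) <
      Fintype.card (Fin J → Fin (p ^ (k * (J + 1)) + 1)) := by
    rw [Fintype.card_pi, Fintype.card_fun, Fintype.card_fin, Fintype.card_fin]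
    simp only [ZMod.card]
    have h1 : ∏ i : Fin J, p ^ (2 * k * (J - (i : ℕ))) = (p ^ (k * (J + 1))) ^ J := by
      rw [Finset.prod_pow_eq_pow_sum, ← pow_mul]
      congr 1
      rw [← Finset.mul_sum, Fin.sum_univ_eq_sum_range (fun i => J - i) J]
      have h2 : ∑ i ∈ range J, (J - i) = ∑ i ∈ range J, (i + 1) := by
        rw [← Finset.sum_range_reflect]
        refine Finset.sum_congr rfl fun i hi => ?_
        rw [Finset.mem_range] at hi
        omega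
      have h3 : (∑ i ∈ range J, (i + 1)) * 2 = J * (J + 1) := by
        rw [Finset.sum_add_distrib, Finset.sum_const, Finset.card_range, smul_eq_mul, mul_one,
          add_mul, Finset.sum_range_id_mul_two]
        obtain ⟨m, rfl⟩ : ∃ m, J = m + 1 := ⟨J - 1, by omega⟩
        rw [Nat.add_sub_cancel]
        ring
      rw [h2]
      calc 2 * k * ∑ i ∈ range J, (i + 1) = k * ((∑ i ∈ range J, (i + 1)) * 2) := by ring
        _ = k * (J + 1) * J := by rw [h3]; ring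
    rw [h1]
    exact Nat.pow_lt_pow_left (Nat.lt_succ_self _) (by omega)
  obtain ⟨c, c', hne', heq⟩ := Fintype.exists_ne_map_eq_of_card_lt Φ hcard
  refine ⟨fun j => ((c j : ℕ) : ℤ) - ((c' j : ℕ) : ℤ), ?_, ?_, ?_⟩
  · intro h
    apply hne'
    funext j
    have h1 := congrFun h j
    simp only [Pi.zero_apply] at h1
    ext
    omega
  · intro j
    have h1 := (c j).2
    have h2 := (c' j).2
    have h3 : (p : ℤ) ^ (k * (J + 1)) = ((p ^ (k * (J + 1)) : ℕ) : ℤ) := by push_cast; rfl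
    rw [h3]
    show |((c j : ℕ) : ℤ) - ((c' j : ℕ) : ℤ)| ≤ _
    rw [abs_le]
    constructor <;> omega
  · intro n hn
    rw [← toZModPow_eq_zero_iff]
    have h1 := congrFun heq ⟨n, hn⟩
    simp only [Φ] at h1
    have h2 : ∑ j, (((((c j : ℕ) : ℤ) - ((c' j : ℕ) : ℤ) : ℤ)) : ℤ_[p]) * a j n =
        (∑ j, (((c j : ℕ) : ℤ) : ℤ_[p]) * a j n) - ∑ j, (((c' j : ℕ) : ℤ) : ℤ_[p]) * a j n := by
      rw [← Finset.sum_sub_distrib]
      refine Finset.sum_congr rfl fun j _ => ?_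
      push_cast
      ring
    rw [h2, map_sub, h1, sub_self]

lemma norm_le_of_pow_dvd {k : ℕ} {z : ℤ_[p]} (h : (p : ℤ_[p]) ^ k ∣ z) :
    ‖z‖ ≤ ((p : ℝ)⁻¹) ^ k := by
  obtain ⟨a, rfl⟩ := h
  rw [norm_mul, norm_pow, PadicInt.norm_p]
  exact mul_le_of_le_one_right (by positivity) (PadicInt.norm_le_one _)

/-- an integer which is small in both senses is zero -/
lemma int_eq_zero {z : ℤ} {k : ℕ} (h1 : ‖(z : ℤ_[p])‖ ≤ ((p : ℝ)⁻¹) ^ k)
    (h2 : |z| < (p : ℤ) ^ k) : z = 0 := by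
  have h3 : (p : ℤ_[p]) ^ k ∣ (z : ℤ_[p]) := by
    rw [← Ideal.mem_span_singleton, ← PadicInt.norm_le_pow_iff_mem_span_pow, zpow_neg,
      zpow_natCast, ← inv_pow]
    exact h1
  rw [PadicInt.pow_p_dvd_int_iff] at h3
  exact Int.eq_zero_of_abs_lt_dvd h3 h2

/-- a relation for the points of a residue class -/
theorem relation {J : ℕ} (hJ : 2 ≤ J) (f : Fin J → ℤ_[p]⟦X⟧) {k H : ℕ}
    (hk : J * H < p ^ (k * (J - 1))) {x₀ : ℤ_[p]} (h₀ : (p : ℤ_[p]) ∣ x₀) (Z : Finset ℤ_[p])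
    (hZ : ∀ x ∈ Z, (p : ℤ_[p]) ∣ x) (hZ₀ : ∀ x ∈ Z, (p : ℤ_[p]) ^ (2 * k) ∣ x - x₀)
    (z : ℤ_[p] → Fin J → ℤ) (hz : ∀ x ∈ Z, ∀ j, |z x j| ≤ H) {η : ℝ}
    (hη : η ≤ ((p : ℝ)⁻¹) ^ (2 * k * J)) (hzη : ∀ x ∈ Z, ∀ j, ‖ev x (f j) - z x j‖ ≤ η) :
    ∃ c : Fin J → ℤ, c ≠ 0 ∧ (∀ j, |c j| ≤ (p : ℤ) ^ (k * (J + 1))) ∧
      ∀ x ∈ Z, ∑ j, c j * z x j = 0 := by
  obtain ⟨c, hc0, hc, hdvd⟩ := pigeon (by omega : 1 ≤ J) (fun j n => ev x₀ ((dq x₀)^[n] (f j))) k
  refine ⟨c, hc0, hc, fun x hx => ?_⟩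
  have hxp := hZ x hx
  have h1 : (p : ℤ_[p]) ^ (2 * k * J) ∣ ∑ j, (c j : ℤ_[p]) * ev x (f j) := by
    have e1 : ∑ j, (c j : ℤ_[p]) * ev x (f j) =
        ∑ n ∈ range J, (x - x₀) ^ n * (∑ j, (c j : ℤ_[p]) * ev x₀ ((dq x₀)^[n] (f j))) +
          (x - x₀) ^ J * ∑ j, (c j : ℤ_[p]) * ev x ((dq x₀)^[J] (f j)) := by
      simp_rw [Finset.mul_sum]
      rw [Finset.sum_comm, ← Finset.sum_add_distrib]
      refine Finset.sum_congr rfl fun j _ => ?_
      rw [ev_expand h₀ hxp (f j) J, mul_add, Finset.mul_sum]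
      congr 1
      · refine Finset.sum_congr rfl fun n _ => ?_
        ring
      · ring
    rw [e1]
    apply dvd_add
    · apply Finset.dvd_sum
      intro n hn
      rw [Finset.mem_range] at hn
      have e2 : 2 * k * J = 2 * k * n + 2 * k * (J - n) := by
        rw [← mul_add]
        congr 1
        omega
      rw [e2, pow_add]
      apply mul_dvd_mul _ (hdvd n hn)
      rw [pow_mul]
      exact pow_dvd_pow_of_dvd (hZ₀ x hx) n
    · rw [pow_mul]
      exact (pow_dvd_pow_of_dvd (hZ₀ x hx) J).mul_right _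
  have hpi : (0 : ℝ) < (p : ℝ)⁻¹ := by
    have := hp.out.pos
    positivity
  apply int_eq_zero (p := p) (k := 2 * k * J)
  · have e1 : ((∑ j, c j * z x j : ℤ) : ℤ_[p]) = ∑ j, (c j : ℤ_[p]) * ev x (f j) -
        ∑ j, (c j : ℤ_[p]) * (ev x (f j) - z x j) := by
      rw [← Finset.sum_sub_distrib]
      push_cast
      refine Finset.sum_congr rfl fun j _ => ?_
      ring
    rw [e1]
    refine (norm_sub_max _ _).trans (max_le (norm_le_of_pow_dvd h1) ?_)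
    apply IsUltrametricDist.norm_sum_le_of_forall_le_of_nonneg (by positivity)
    intro j _
    rw [norm_mul]
    calc ‖(c j : ℤ_[p])‖ * ‖ev x (f j) - z x j‖ ≤ 1 * η :=
          mul_le_mul (PadicInt.norm_le_one _) (hzη x hx j) (norm_nonneg _) zero_le_one
      _ ≤ _ := by rw [one_mul]; exact hη
  · have hk' : (J : ℤ) * H < (p : ℤ) ^ (k * (J - 1)) := by exact_mod_cast hk
    calc |∑ j, c j * z x j| ≤ ∑ j, |c j * z x j| := Finset.abs_sum_le_sum_abs _ _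
      _ ≤ ∑ _j : Fin J, (p : ℤ) ^ (k * (J + 1)) * H := by
          apply Finset.sum_le_sum
          intro j _
          rw [abs_mul]
          exact mul_le_mul (hc j) (hz x hx j) (abs_nonneg _) (by positivity)
      _ = (p : ℤ) ^ (k * (J + 1)) * (J * H) := by
          rw [Finset.sum_const, Finset.card_univ, Fintype.card_fin, nsmul_eq_mul]
          ring
      _ < (p : ℤ) ^ (k * (J + 1)) * (p : ℤ) ^ (k * (J - 1)) := by
          apply mul_lt_mul_of_pos_left hk'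
          have := hp.out.pos
          positivity
      _ = (p : ℤ) ^ (2 * k * J) := by
          rw [← pow_add]
          congr 1
          rw [← mul_add]
          have : J + 1 + (J - 1) = 2 * J := by omega
          rw [this]
          ring

end Pool.Agent.W2helper22.Tw
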