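import Pool.Agent.W2helper22.Tw.Bp

/-!
# The number of integral points near an analytic curve over `ℚ_p`
-/

set_option autoImplicit false

namespace Pool.Agent.W2helper22.Tw

open PowerSeries Pool.Agent.Y732 Finset

variable {p : ℕ} [hp : Fact p.Prime]

/-- a residue class contains few points -/
theorem class_lt {J : ℕ} (hJ : 2 ≤ J) (f : Fin J → ℤ_[p]⟦X⟧) {n₀ b : ℕ} {δ₀ : ℝ}
    (hu : ∀ c : Fin J → ℤ_[p], (∃ j, ‖c j‖ = 1) → ∃ n ≤ n₀, δ₀ ≤ ‖coeff n (comb f c)‖)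
    (hb : ((p : ℝ)⁻¹) ^ b < δ₀) {k H : ℕ}
    (hk : J * H < p ^ (k * (J - 1))) {x₀ : ℤ_[p]} (h₀ : (p : ℤ_[p]) ∣ x₀) (Z : Finset ℤ_[p])
    (hZ : ∀ x ∈ Z, (p : ℤ_[p]) ∣ x) (hZ₀ : ∀ x ∈ Z, (p : ℤ_[p]) ^ (2 * k) ∣ x - x₀)
    (z : ℤ_[p] → Fin J → ℤ) (hz : ∀ x ∈ Z, ∀ j, |z x j| ≤ H) {η δ : ℝ} (hη0 : 0 ≤ η)
    (hη : η ≤ ((p : ℝ)⁻¹) ^ (2 * k * J)) (hzη : ∀ x ∈ Z, ∀ j, ‖ev x (f j) - z x j‖ ≤ η)
    (hδ : 0 < δ) (hδ1 : δ ≤ 1) (hsep : ∀ x ∈ Z, ∀ y ∈ Z, x ≠ y → δ ≤ ‖x - y‖)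
    (hfin : η * (p : ℝ) ^ (k * (J + 1)) * δ⁻¹ ^ (n₀ + b) < δ₀) : Z.card ≤ n₀ + b := by
  by_contra hcard
  push Not at hcard
  obtain ⟨Z', hZ', hZ'c⟩ := Finset.exists_subset_card_eq (n := n₀ + b + 1) (s := Z) (by omega)
  obtain ⟨c, hc0, hc, hrel⟩ := relation hJ f hk h₀ Z hZ hZ₀ z hz hη hzη
  have hp1 : (1 : ℝ) < p := by exact_mod_cast hp.out.one_lt
  have hp0 : (0 : ℝ) < p := by linarith
  -- the primitive vector
  obtain ⟨i, hi⟩ : ∃ i, ∀ j, ‖(c j : ℤ_[p])‖ ≤ ‖(c i : ℤ_[p])‖ := by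
    have : Nonempty (Fin J) := ⟨⟨0, by omega⟩⟩
    obtain ⟨i, hi⟩ := Finite.exists_max fun j => ‖(c j : ℤ_[p])‖
    exact ⟨i, hi⟩
  have hci : (c i : ℤ_[p]) ≠ 0 := by
    intro h
    apply hc0
    funext j
    have h1 := hi j
    rw [h, norm_zero] at h1
    have h2 : (c j : ℤ_[p]) = 0 := norm_le_zero_iff.1 h1
    exact_mod_cast h2
  have hdvd : ∀ j, ∃ d : ℤ_[p], (c j : ℤ_[p]) = c i * d := by
    intro j
    have h1 : ‖((c j : ℤ_[p]) : ℚ_[p]) / ((c i : ℤ_[p]) : ℚ_[p])‖ ≤ 1 := by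
      rw [norm_div]
      exact div_le_one_of_le₀ (hi j) (norm_nonneg _)
    refine ⟨⟨_, h1⟩, ?_⟩
    apply Subtype.coe_injective
    show ((c j : ℤ_[p]) : ℚ_[p]) = (c i : ℤ_[p]) * (((c j : ℤ_[p]) : ℚ_[p]) / ((c i : ℤ_[p]) : ℚ_[p]))
    rw [mul_div_cancel₀]
    intro h
    apply hci
    exact Subtype.coe_injective h
  choose d hd using hdvd
  have hdi : d i = 1 := by
    have := hd i
    exact (mul_left_cancel₀ hci (by rw [mul_one]; exact this)).symm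
  obtain ⟨n, hn, hcoef⟩ := hu d ⟨i, by rw [hdi, norm_one]⟩
  -- the size of the largest coefficient
  have hciN : ((p : ℝ) ^ (k * (J + 1)))⁻¹ ≤ ‖(c i : ℤ_[p])‖ := by
    by_contra hlt
    push Not at hlt
    have h1 : ‖(c i : ℤ_[p])‖ ≤ ((p : ℝ)⁻¹) ^ (k * (J + 1) + 1) := by
      have h2 : ‖(c i : ℤ_[p])‖ < ((p : ℝ)) ^ (-((k * (J + 1) : ℕ) : ℤ)) := by
        rw [zpow_neg, zpow_natCast]
        exact hlt
      have h3 := (PadicInt.norm_le_pow_iff_norm_lt_pow_add_one (c i : ℤ_[p])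
        (-((k * (J + 1) + 1 : ℕ) : ℤ))).2 (by
          have e : (-((k * (J + 1) + 1 : ℕ) : ℤ)) + 1 = -((k * (J + 1) : ℕ) : ℤ) := by
            push_cast
            ring
          rw [e]
          exact h2)
      rw [zpow_neg, zpow_natCast] at h3
      rw [inv_pow]
      exact h3
    have h3 : |c i| < (p : ℤ) ^ (k * (J + 1) + 1) := by
      refine lt_of_le_of_lt (hc i) ?_
      exact pow_lt_pow_right₀ (by exact_mod_cast hp.out.one_lt) (Nat.lt_succ_self _)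
    have h4 := int_eq_zero h1 h3
    apply hci
    rw [h4, Int.cast_zero]
  have hpos : 0 < ‖(c i : ℤ_[p])‖ := norm_pos_iff.2 hci
  -- the values of the combination
  have hval : ∀ x ∈ Z', ‖ev x (comb f d)‖ ≤ η * (p : ℝ) ^ (k * (J + 1)) := by
    intro x hx
    have hxZ := hZ' hx
    rw [ev_comb (hZ x hxZ)]
    have h1 : (c i : ℤ_[p]) * ∑ j, d j * ev x (f j) =
        ∑ j, (c j : ℤ_[p]) * (ev x (f j) - z x j) := by
      have h2 : ((∑ j, c j * z x j : ℤ) : ℤ_[p]) = 0 := by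
        rw [hrel x hxZ, Int.cast_zero]
      push_cast at h2
      rw [Finset.mul_sum]
      have h3 : ∑ j, (c j : ℤ_[p]) * (ev x (f j) - z x j) =
          ∑ j, (c j : ℤ_[p]) * ev x (f j) - ∑ j, (c j : ℤ_[p]) * z x j := by
        rw [← Finset.sum_sub_distrib]
        exact Finset.sum_congr rfl fun j _ => by ring
      rw [h3, h2, sub_zero]
      refine Finset.sum_congr rfl fun j _ => ?_
      rw [← mul_assoc, ← hd j]
    have h2 : ‖∑ j, (c j : ℤ_[p]) * (ev x (f j) - z x j)‖ ≤ η := by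
      apply IsUltrametricDist.norm_sum_le_of_forall_le_of_nonneg hη0
      intro j _
      rw [norm_mul]
      calc ‖(c j : ℤ_[p])‖ * ‖ev x (f j) - z x j‖ ≤ 1 * η :=
            mul_le_mul (PadicInt.norm_le_one _) (hzη x hxZ j) (norm_nonneg _) zero_le_one
        _ = η := one_mul _
    rw [← h1, norm_mul] at h2
    have h3 : ((p : ℝ) ^ (k * (J + 1)))⁻¹ * ‖∑ j, d j * ev x (f j)‖ ≤ η :=
      (mul_le_mul_of_nonneg_right hciN (norm_nonneg _)).trans h2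
    rw [inv_mul_le_iff₀ (by positivity)] at h3
    linarith
  have hmain := coeff_le hδ hδ1 Z' (comb f d) (η * (p : ℝ) ^ (k * (J + 1))) (by positivity)
    (fun x hx => hZ x (hZ' hx)) (fun x hx y hy => hsep x (hZ' hx) y (hZ' hy)) hval n (by omega)
  rw [hZ'c] at hmain
  have h1 : ‖coeff n (comb f d)‖ < δ₀ := by
    refine lt_of_le_of_lt hmain (max_lt ?_ ?_)
    · refine lt_of_le_of_lt ?_ hb
      apply pow_le_pow_of_le_one (by positivity) (inv_lt_one_of_one_lt₀ hp1).le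
      omega
    · rw [Nat.add_sub_cancel]
      exact hfin
  exact absurd hcoef (not_le.2 h1)

/-- The number of points `x` of `p ℤ_p`, not too close to each other, at which the values of `J`
independent power series are very close to integers of absolute value at most `H`, is at most
`C * H ^ (2 / (J - 1))`. -/
theorem bp {J : ℕ} (hJ : 2 ≤ J) {f : Fin J → ℤ_[p]⟦X⟧} (hf : Indep f) :
    ∃ (C : ℝ) (κ : ℕ), 0 < C ∧ ∀ H : ℕ, 1 ≤ H → ∀ Z : Finset ℤ_[p],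
      (∀ x ∈ Z, (p : ℤ_[p]) ∣ x) →
      (∀ x ∈ Z, ∀ y ∈ Z, x ≠ y → ((H : ℝ) ^ 3)⁻¹ ≤ ‖x - y‖) →
      (∀ x ∈ Z, ∀ j, ∃ z : ℤ, |z| ≤ H ∧ ‖ev x (f j) - z‖ ≤ (C * (H : ℝ) ^ κ)⁻¹) →
      (Z.card : ℝ) ≤ C * (H : ℝ) ^ ((2 : ℝ) / ((J : ℝ) - 1)) := by
  classical
  obtain ⟨n₀, δ₀, hδ₀, hu⟩ := uniform hf
  have hp1 : (1 : ℝ) < p := by exact_mod_cast hp.out.one_lt
  have hp0 : (0 : ℝ) < p := by linarith
  obtain ⟨b, hb⟩ : ∃ b : ℕ, ((p : ℝ)⁻¹) ^ b < δ₀ :=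
    exists_pow_lt_of_lt_one hδ₀ (inv_lt_one_of_one_lt₀ hp1)
  have hJ1 : (1 : ℝ) ≤ (J : ℝ) - 1 := by
    have : (2 : ℝ) ≤ J := by exact_mod_cast hJ
    linarith
  have hJ0 : (0 : ℝ) < J := by linarith
  obtain ⟨A, hA⟩ : ∃ A : ℝ, A = (p : ℝ) ^ (J - 1) * J := ⟨_, rfl⟩
  have hA1 : 1 ≤ A := by
    rw [hA]
    have h1 : 1 ≤ (p : ℝ) ^ (J - 1) := one_le_pow₀ hp1.le
    have h2 : (1 : ℝ) ≤ J := by linarith
    nlinarith
  have hA0 : 0 < A := by linarith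
  obtain ⟨B, hB⟩ : ∃ B : ℕ, B = n₀ + b := ⟨_, rfl⟩
  obtain ⟨C, hC⟩ : ∃ C : ℝ, C = A ^ 4 + A ^ 3 / δ₀ + 1 + (B : ℝ) * (p : ℝ) ^ 2 * J ^ 2 + 1 :=
    ⟨_, rfl⟩
  have hBp : 0 ≤ (B : ℝ) * (p : ℝ) ^ 2 * J ^ 2 := by positivity
  have hq : 0 ≤ A ^ 3 / δ₀ := by positivity
  have hA4 : 0 ≤ A ^ 4 := by positivity
  have hC0 : 0 < C := by rw [hC]; linarith
  refine ⟨C, 4 + 3 * B, hC0, fun H hH Z hZ hsep hclose => ?_⟩
  have hH1 : (1 : ℝ) ≤ H := by exact_mod_cast hH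
  have hH0 : (0 : ℝ) < H := by linarith
  -- the choice of `k`
  have hex : ∃ k : ℕ, J * H < p ^ (k * (J - 1)) := by
    refine ⟨J * H, ?_⟩
    calc J * H < p ^ (J * H) := Nat.lt_pow_self hp.out.one_lt
      _ ≤ p ^ (J * H * (J - 1)) := Nat.pow_le_pow_right hp.out.pos
          (Nat.le_mul_of_pos_right _ (by omega))
  obtain ⟨k, hk, hkmin⟩ : ∃ k, J * H < p ^ (k * (J - 1)) ∧ ∀ m < k, ¬ J * H < p ^ (m * (J - 1)) :=
    ⟨Nat.find hex, Nat.find_spec hex, fun m hm => Nat.find_min hex hm⟩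
  have hk1 : 1 ≤ k := by
    rcases Nat.eq_zero_or_pos k with rfl | h
    · rw [zero_mul, pow_zero] at hk
      have : 1 * 1 ≤ J * H := Nat.mul_le_mul (by omega) hH
      omega
    · exact h
  have hkup : (p : ℝ) ^ (k * (J - 1)) ≤ A * H := by
    have h1 := hkmin (k - 1) (by omega)
    rw [not_lt] at h1
    have h2 : p ^ (k * (J - 1)) ≤ p ^ (J - 1) * (J * H) := by
      have e : k * (J - 1) = (J - 1) + (k - 1) * (J - 1) := by
        have : k = 1 + (k - 1) := by omega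
        conv_lhs => rw [this, add_mul, one_mul]
      rw [e, pow_add]
      exact Nat.mul_le_mul le_rfl h1
    have h3 : ((p ^ (k * (J - 1)) : ℕ) : ℝ) ≤ ((p ^ (J - 1) * (J * H) : ℕ) : ℝ) := by
      exact_mod_cast h2
    push_cast at h3
    rw [hA]
    linarith
  have hup4 : (p : ℝ) ^ (2 * k * J) ≤ (A * H) ^ 4 := by
    calc (p : ℝ) ^ (2 * k * J) ≤ (p : ℝ) ^ (k * (J - 1) * 4) := by
          apply pow_le_pow_right₀ hp1.le
          have : J ≤ 2 * (J - 1) := by omega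
          calc 2 * k * J ≤ 2 * k * (2 * (J - 1)) := Nat.mul_le_mul le_rfl this
            _ = k * (J - 1) * 4 := by ring
      _ = ((p : ℝ) ^ (k * (J - 1))) ^ 4 := pow_mul _ _ _
      _ ≤ (A * H) ^ 4 := by gcongr
  have hup3 : (p : ℝ) ^ (k * (J + 1)) ≤ (A * H) ^ 3 := by
    calc (p : ℝ) ^ (k * (J + 1)) ≤ (p : ℝ) ^ (k * (J - 1) * 3) := by
          apply pow_le_pow_right₀ hp1.le
          have : J + 1 ≤ 3 * (J - 1) := by omega
          calc k * (J + 1) ≤ k * (3 * (J - 1)) := Nat.mul_le_mul le_rfl this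
            _ = k * (J - 1) * 3 := by ring
      _ = ((p : ℝ) ^ (k * (J - 1))) ^ 3 := pow_mul _ _ _
      _ ≤ (A * H) ^ 3 := by gcongr
  obtain ⟨η, hη⟩ : ∃ η : ℝ, η = (C * (H : ℝ) ^ (4 + 3 * B))⁻¹ := ⟨_, rfl⟩
  have hη0 : 0 ≤ η := by rw [hη]; positivity
  have hHp : 0 < (H : ℝ) ^ (4 + 3 * B) := by positivity
  have hη1 : η ≤ ((p : ℝ)⁻¹) ^ (2 * k * J) := by
    rw [hη, inv_pow]
    apply inv_anti₀ (by positivity)
    refine hup4.trans ?_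
    rw [mul_pow]
    apply mul_le_mul _ _ (by positivity) hC0.le
    · rw [hC]
      linarith
    · exact pow_le_pow_right₀ hH1 (by omega)
  have hη2 : η * (p : ℝ) ^ (k * (J + 1)) * (((H : ℝ) ^ 3)⁻¹)⁻¹ ^ (n₀ + b) < δ₀ := by
    rw [← hB, inv_inv, ← pow_mul]
    calc η * (p : ℝ) ^ (k * (J + 1)) * (H : ℝ) ^ (3 * B)
        ≤ η * (A * H) ^ 3 * (H : ℝ) ^ (3 * B) := by gcongr
      _ = A ^ 3 * (H : ℝ) ^ (3 + 3 * B) * η := by rw [mul_pow, pow_add]; ring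
      _ ≤ A ^ 3 * (H : ℝ) ^ (4 + 3 * B) * η := by
          have : (H : ℝ) ^ (3 + 3 * B) ≤ (H : ℝ) ^ (4 + 3 * B) :=
            pow_le_pow_right₀ hH1 (by omega)
          gcongr
      _ = A ^ 3 / C := by
          rw [hη]
          field_simp
      _ < δ₀ := by
          rw [div_lt_iff₀ hC0]
          have h1 : A ^ 3 / δ₀ < C := by rw [hC]; linarith
          rw [div_lt_iff₀ hδ₀] at h1
          linarith
  have hchoice : ∀ x : ℤ_[p], ∃ z : Fin J → ℤ, x ∈ Z → ∀ j, |z j| ≤ H ∧ ‖ev x (f j) - z j‖ ≤ η := by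
    intro x
    by_cases hx : x ∈ Z
    · choose z hz using hclose x hx
      rw [← hη] at hz
      exact ⟨z, fun _ => hz⟩
    · exact ⟨0, fun h => absurd h hx⟩
  choose z hz using hchoice
  -- the classes
  have hne : NeZero (p ^ (2 * k)) := ⟨pow_ne_zero _ hp.out.ne_zero⟩
  have hclass : ∀ r : ZMod (p ^ (2 * k)),
      (Z.filter fun x => PadicInt.toZModPow (2 * k) x = r).card ≤ B := by
    intro r
    rcases (Z.filter fun x => PadicInt.toZModPow (2 * k) x = r).eq_empty_or_nonempty with h | h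
    · rw [h]
      simp
    · obtain ⟨x₀, hx₀⟩ := h
      rw [Finset.mem_filter] at hx₀
      rw [hB]
      refine class_lt hJ f hu hb hk (hZ x₀ hx₀.1) _ (fun x hx => hZ x (Finset.mem_filter.1 hx).1)
        ?_ z (fun x hx j => (hz x (Finset.mem_filter.1 hx).1 j).1) hη0 hη1
        (fun x hx j => (hz x (Finset.mem_filter.1 hx).1 j).2) (δ := ((H : ℝ) ^ 3)⁻¹)
        (by positivity) (inv_le_one_of_one_le₀ (one_le_pow₀ hH1))
        (fun x hx y hy => hsep x (Finset.mem_filter.1 hx).1 y (Finset.mem_filter.1 hy).1) hη2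
      intro x hx
      rw [← toZModPow_eq_zero_iff, map_sub, (Finset.mem_filter.1 hx).2, hx₀.2, sub_self]
  have hcard : Z.card ≤ B * p ^ (2 * k) := by
    have h1 := Finset.card_le_mul_card_image_of_maps_to (s := Z)
      (t := (Finset.univ : Finset (ZMod (p ^ (2 * k)))))
      (f := fun x => PadicInt.toZModPow (2 * k) x) (fun x _ => Finset.mem_univ _) B
      (fun r _ => hclass r)
    rwa [Finset.card_univ, ZMod.card] at h1
  have hcard' : (Z.card : ℝ) ≤ B * (p : ℝ) ^ (2 * k) := by exact_mod_cast hcard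
  -- the size of `p ^ (2 k)`
  have hkJ : 0 ≤ (p : ℝ) ^ (k - 1) := by positivity
  have hlow : (p : ℝ) ^ (k - 1) ≤ ((J : ℝ) * H) ^ ((1 : ℝ) / ((J : ℝ) - 1)) := by
    have h1 := hkmin (k - 1) (by omega)
    rw [not_lt] at h1
    have h2 : ((p : ℝ) ^ (k - 1)) ^ ((J : ℝ) - 1) ≤ (J : ℝ) * H := by
      have e : ((J : ℝ) - 1) = ((J - 1 : ℕ) : ℝ) := by
        rw [Nat.cast_sub (by omega)]
        simp
      rw [e, Real.rpow_natCast, ← pow_mul]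
      exact_mod_cast h1
    calc (p : ℝ) ^ (k - 1) = (((p : ℝ) ^ (k - 1)) ^ ((J : ℝ) - 1)) ^ ((1 : ℝ) / ((J : ℝ) - 1)) := by
          rw [← Real.rpow_mul hkJ, mul_one_div_cancel (by linarith), Real.rpow_one]
      _ ≤ _ := Real.rpow_le_rpow (by positivity) h2 (by positivity)
  have hp2k : (p : ℝ) ^ (2 * k) ≤ (p : ℝ) ^ 2 * J ^ 2 * (H : ℝ) ^ ((2 : ℝ) / ((J : ℝ) - 1)) := by
    have e1 : (p : ℝ) ^ (2 * k) = (p : ℝ) ^ 2 * ((p : ℝ) ^ (k - 1)) ^ 2 := by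
      rw [← pow_mul, ← pow_add]
      congr 1
      omega
    have e2 : ((p : ℝ) ^ (k - 1)) ^ 2 ≤ ((J : ℝ) * H) ^ ((2 : ℝ) / ((J : ℝ) - 1)) := by
      calc ((p : ℝ) ^ (k - 1)) ^ 2 ≤ (((J : ℝ) * H) ^ ((1 : ℝ) / ((J : ℝ) - 1))) ^ 2 := by gcongr
        _ = _ := by
          rw [← Real.rpow_natCast, ← Real.rpow_mul (by positivity)]
          congr 1
          push_cast
          ring
    have e3 : (J : ℝ) ^ ((2 : ℝ) / ((J : ℝ) - 1)) ≤ (J : ℝ) ^ 2 := by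
      rw [← Real.rpow_natCast]
      apply Real.rpow_le_rpow_of_exponent_le (by linarith)
      rw [div_le_iff₀ (by linarith)]
      push_cast
      linarith
    rw [Real.mul_rpow hJ0.le hH0.le] at e2
    rw [e1]
    calc (p : ℝ) ^ 2 * ((p : ℝ) ^ (k - 1)) ^ 2 ≤
          (p : ℝ) ^ 2 * ((J : ℝ) ^ ((2 : ℝ) / ((J : ℝ) - 1)) * (H : ℝ) ^ ((2 : ℝ) / ((J : ℝ) - 1))) := by
          gcongr
      _ ≤ (p : ℝ) ^ 2 * ((J : ℝ) ^ 2 * (H : ℝ) ^ ((2 : ℝ) / ((J : ℝ) - 1))) := by gcongr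
      _ = _ := by ring
  calc (Z.card : ℝ) ≤ B * (p : ℝ) ^ (2 * k) := hcard'
    _ ≤ B * ((p : ℝ) ^ 2 * J ^ 2 * (H : ℝ) ^ ((2 : ℝ) / ((J : ℝ) - 1))) := by gcongr
    _ = ((B : ℝ) * (p : ℝ) ^ 2 * J ^ 2) * (H : ℝ) ^ ((2 : ℝ) / ((J : ℝ) - 1)) := by ring
    _ ≤ C * (H : ℝ) ^ ((2 : ℝ) / ((J : ℝ) - 1)) := by
        apply mul_le_mul_of_nonneg_right _ (by positivity)
        rw [hC]
        linarith

end Pool.Agent.W2helper22.Tw
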