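import Pool.Agent.W2helper22.Tw.Pt

/-!
# The number of twists with points near the curve of vanishing heights
-/

set_option autoImplicit false

namespace Pool.Agent.W2helper22.Tw

open PowerSeries Pool.Agent.Y732

variable {p : ℕ} [hp : Fact p.Prime]

lemma ev_lip {x y : ℤ_[p]} (hx : (p : ℤ_[p]) ∣ x) (hy : (p : ℤ_[p]) ∣ y) (f : ℤ_[p]⟦X⟧) :
    ‖ev x f - ev y f‖ ≤ ‖x - y‖ := by
  have h : ev x f - ev y f = (x - y) * ev x (dq y f) := by
    rw [ev_dq hy hx f]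
    ring
  rw [h, norm_mul]
  exact mul_le_of_le_one_right (norm_nonneg _) (PadicInt.norm_le_one _)

lemma norm_int_ge {z : ℤ} (hz : z ≠ 0) {M : ℝ} (hM : ((|z| : ℤ) : ℝ) ≤ M) :
    M⁻¹ ≤ ‖(z : ℤ_[p])‖ := by
  have key : ∀ n : ℕ, n ≠ 0 → (n : ℝ) ≤ M → M⁻¹ ≤ ‖((n : ℤ) : ℤ_[p])‖ := by
    intro n hn hnM
    have h1 := one_le_norm_natCast (p := p) n hn
    have h2 : ‖((n : ℕ) : ℚ_[p])‖ = ‖((n : ℤ) : ℤ_[p])‖ := by
      have h3 : ((n : ℕ) : ℚ_[p]) = (((n : ℤ) : ℤ_[p]) : ℚ_[p]) := by push_cast; rfl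
      rw [h3]
      rfl
    rw [h2] at h1
    have h5 : (0 : ℝ) < (n : ℝ) := by exact_mod_cast Nat.pos_of_ne_zero hn
    have h6 : (0 : ℝ) < M := lt_of_lt_of_le h5 hnM
    rw [inv_le_iff_one_le_mul₀ h6]
    exact h1.trans (mul_le_mul_of_nonneg_left hnM (norm_nonneg _))
  obtain ⟨n, rfl | rfl⟩ := z.eq_nat_or_neg
  · rw [Nat.abs_cast] at hM
    exact key n (by exact_mod_cast hz) (by exact_mod_cast hM)
  · rw [abs_neg, Nat.abs_cast] at hM
    rw [Int.cast_neg, norm_neg]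
    exact key n (by simpa using hz) (by exact_mod_cast hM)

omit hp in
/-- squarefree parts -/
lemma sqf_unique {D D' e e' : ℤ} (hD : Squarefree D) (hD' : Squarefree D') (he : e ≠ 0)
    (h : D * e ^ 2 = D' * e' ^ 2) : D = D' := by
  have hD0 : D ≠ 0 := hD.ne_zero
  have hg : 0 < Int.gcd e e' := Int.gcd_pos_of_ne_zero_left _ he
  obtain ⟨f, f', hcop, hf, hf'⟩ := Int.exists_gcd_one hg
  have hg' : ((Int.gcd e e' : ℕ) : ℤ) ≠ 0 := by exact_mod_cast hg.ne'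
  have h1 : D * f ^ 2 = D' * f' ^ 2 := by
    have h2 : ((Int.gcd e e' : ℕ) : ℤ) ^ 2 * (D * f ^ 2) =
        ((Int.gcd e e' : ℕ) : ℤ) ^ 2 * (D' * f' ^ 2) := by
      have h3 : D * (f * ((Int.gcd e e' : ℕ) : ℤ)) ^ 2 = D' * (f' * ((Int.gcd e e' : ℕ) : ℤ)) ^ 2 := by
        rw [← hf, ← hf']
        exact h
      linear_combination h3
    exact mul_left_cancel₀ (pow_ne_zero 2 hg') h2
  have hc : IsCoprime f f' := Int.isCoprime_iff_gcd_eq_one.2 hcop
  have h2 : f * f ∣ D' := by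
    have h3 : f ^ 2 ∣ D' * f' ^ 2 := ⟨D, by rw [← h1]; ring⟩
    have h4 := (hc.pow (m := 2) (n := 2)).dvd_of_dvd_mul_right h3
    rwa [pow_two] at h4
  have h3 : f' * f' ∣ D := by
    have h3 : f' ^ 2 ∣ D * f ^ 2 := ⟨D', by rw [h1]; ring⟩
    have h4 := (hc.symm.pow (m := 2) (n := 2)).dvd_of_dvd_mul_right h3
    rwa [pow_two] at h4
  have h4 : f ^ 2 = 1 := by
    rcases Int.isUnit_iff.1 (hD' f h2) with h | h <;> rw [h] <;> norm_num
  have h5 : f' ^ 2 = 1 := by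
    rcases Int.isUnit_iff.1 (hD f' h3) with h | h <;> rw [h] <;> norm_num
  rw [h4, h5, mul_one, mul_one] at h1
  exact h1

omit hp in
lemma PD.cop {A B D a b e : ℤ} (h : PD p A B D a b e) : IsCoprime a (D * e ^ 2) := by
  refine IsCoprime.mul_right ?_ (h.hc.pow_right)
  rw [Int.isCoprime_iff_gcd_eq_one]
  by_contra h1
  obtain ⟨ℓ, hℓ, h2⟩ := Nat.exists_prime_and_dvd h1
  have ha : (ℓ : ℤ) ∣ a := (Int.natCast_dvd_natCast.2 h2).trans (Int.gcd_dvd_left ..)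
  have hD : (ℓ : ℤ) ∣ D := (Int.natCast_dvd_natCast.2 h2).trans (Int.gcd_dvd_right ..)
  have hℓ' := Nat.prime_iff_prime_int.1 hℓ
  have he : ¬ (ℓ : ℤ) ∣ e := fun he => hℓ'.not_isUnit (h.hc.isUnit_of_dvd' ha he)
  rcases h.hN ℓ hℓ with h3 | h3
  · exact he h3
  · apply h3
    have hb : (ℓ : ℤ) ∣ b := by
      have h4 : (ℓ : ℤ) ∣ b ^ 2 := by
        rw [h.heq]
        exact dvd_add (dvd_add (ha.trans (dvd_pow_self a (by norm_num)))
          ((((hD.trans (dvd_pow_self D (by norm_num))).mul_left _).mul_right _).mul_right _))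
          (((hD.trans (dvd_pow_self D (by norm_num))).mul_left _).mul_right _)
      exact hℓ'.dvd_of_dvd_pow h4
    constructor
    · simp only [tw, zero_mul, add_zero]
      exact hb.mul_left _
    · simp only [tw, zero_mul, mul_zero, zero_sub, add_zero]
      refine Dvd.dvd.neg_right (dvd_add ?_ ?_)
      · exact (ha.trans (dvd_pow_self a (by norm_num))).mul_left _
      · exact ((hD.trans (dvd_pow_self D (by norm_num))).mul_left _).mul_right _

/-- points of different twists are different -/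
lemma cross_ne {A B D a b e D' a' b' e' : ℤ} (h : PD p A B D a b e) (h' : PD p A B D' a' b' e')
    (hD : Squarefree D) (hD' : Squarefree D') (hs : 0 < D * D') (hne : D ≠ D') :
    a' * (D * e ^ 2) - a * (D' * e' ^ 2) ≠ 0 := by
  intro h0
  apply hne
  have ha : a ≠ 0 := fun h1 => h.pa (by rw [h1]; exact dvd_zero _)
  have ha' : a' ≠ 0 := fun h1 => h'.pa (by rw [h1]; exact dvd_zero _)
  have hd1 : a ∣ a' := by
    have h1 : a ∣ a' * (D * e ^ 2) := ⟨D' * e' ^ 2, by linear_combination h0⟩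
    exact h.cop.dvd_of_dvd_mul_right h1
  have hd2 : a' ∣ a := by
    have h1 : a' ∣ a * (D' * e' ^ 2) := ⟨D * e ^ 2, by linear_combination -h0⟩
    exact h'.cop.dvd_of_dvd_mul_right h1
  have he : 0 < e ^ 2 := by have := h.he; positivity
  have he' : 0 < e' ^ 2 := by have := h'.he; positivity
  have hsq : a ^ 2 = a' ^ 2 := by
    have h1 := Int.natAbs_dvd_natAbs.2 hd1
    have h2 := Int.natAbs_dvd_natAbs.2 hd2
    have h3 := Nat.dvd_antisymm h1 h2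
    rw [← Int.natAbs_sq a, ← Int.natAbs_sq a', h3]
  have h1 : (D * e ^ 2) ^ 2 = (D' * e' ^ 2) ^ 2 := by
    have h2 : a ^ 2 * (D * e ^ 2) ^ 2 = a ^ 2 * (D' * e' ^ 2) ^ 2 := by
      calc a ^ 2 * (D * e ^ 2) ^ 2 = (a' * (D * e ^ 2)) ^ 2 := by rw [hsq]; ring
        _ = (a * (D' * e' ^ 2)) ^ 2 := by rw [sub_eq_zero.1 h0]
        _ = _ := by ring
    exact mul_left_cancel₀ (pow_ne_zero 2 ha) h2
  have hpos : 0 < (D * e ^ 2) * (D' * e' ^ 2) := by
    have : (D * e ^ 2) * (D' * e' ^ 2) = (D * D') * (e ^ 2 * e' ^ 2) := by ring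
    rw [this]
    positivity
  have h2 : D * e ^ 2 = D' * e' ^ 2 := by
    rcases sq_eq_sq_iff_eq_or_eq_neg.1 h1 with h3 | h3
    · exact h3
    · exfalso
      rw [h3] at hpos
      nlinarith [sq_nonneg (D' * e' ^ 2)]
  exact sqf_unique hD hD' h.he h2

/-- a nonvanishing height which is small -/
def Small (p : ℕ) [Fact p.Prime] (A B D : ℤ) (H : ℕ) (η : ℝ) : Prop :=
  ∃ a b e : ℤ, PD p A B D a b e ∧ |a| ≤ H ∧ |D * e ^ 2| ≤ H ∧
    ∃ (h : (WQ (tw A B D)).Point → ℚ_[p])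
      (hP : (WQ (tw A B D)).Nonsingular ((a : ℚ) / (e : ℚ) ^ 2) ((b : ℚ) / (e : ℚ) ^ 3)),
      IsHeightW p (tw A B D) h ∧ ‖h (.some _ _ hP)‖ ≤ η

/-- the values of the monomials -/
lemma mon_value {A B : ℤ} (d : TD (A : ℤ_[p]) (B : ℤ_[p])) {h L : ℕ} (hh : 1 ≤ h) {a v : ℤ}
    {x : ℤ_[p]} (hx : (p : ℤ_[p]) ∣ x) (ha : ¬ (p : ℤ) ∣ a) (hw : (a : ℤ_[p]) * ev x d.w = (v : ℤ_[p]))
    {η : ℝ} (hη : ‖ev x (d.G h) - (a : ℤ_[p]) ^ h‖ ≤ η) {H : ℕ} (hH : 1 ≤ H) (haH : |a| ≤ H)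
    (hvH : |v| ≤ H) (i : Fin (L * L)) :
    ∃ z : ℤ, |z| ≤ ((H ^ (2 * h * L) : ℕ) : ℤ) ∧ ‖ev x (d.mon h L i) - z‖ ≤ η := by
  obtain ⟨l, hl⟩ : ∃ l : ℕ, l = ((finProdFinEquiv.symm i).1 : ℕ) := ⟨_, rfl⟩
  obtain ⟨j, hj⟩ : ∃ j : ℕ, j = ((finProdFinEquiv.symm i).2 : ℕ) := ⟨_, rfl⟩
  have hlL : l < L := by rw [hl]; exact (finProdFinEquiv.symm i).1.2
  have hjL : j < L := by rw [hj]; exact (finProdFinEquiv.symm i).2.2
  have hjl : j ≤ h * (L + l) := by
    calc j ≤ 1 * (L + l) := by omega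
      _ ≤ h * (L + l) := Nat.mul_le_mul hh le_rfl
  refine ⟨v ^ j * a ^ (h * (L + l) - j), ?_, ?_⟩
  · rw [abs_mul, abs_pow, abs_pow]
    have hH' : (1 : ℤ) ≤ H := by exact_mod_cast hH
    calc |v| ^ j * |a| ^ (h * (L + l) - j) ≤ (H : ℤ) ^ j * (H : ℤ) ^ (h * (L + l) - j) := by gcongr
      _ = (H : ℤ) ^ (h * (L + l)) := by
          rw [← pow_add]
          congr 1
          omega
      _ ≤ (H : ℤ) ^ (2 * h * L) := by
          apply pow_le_pow_right₀ hH'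
          calc h * (L + l) ≤ h * (2 * L) := Nat.mul_le_mul le_rfl (by omega)
            _ = 2 * h * L := by ring
      _ = _ := by push_cast; rfl
  · have h1 : ev x (d.mon h L i) = (ev x d.w) ^ j * (ev x (d.G h)) ^ (L + l) := by
      have := map_mul (evHom x hx) (d.w ^ j) (d.G h ^ (L + l))
      rw [map_pow (evHom x hx) d.w j, map_pow (evHom x hx) (d.G h) (L + l)] at this
      simp only [evHom_apply] at this
      rw [← this, TD.mon, ← hl, ← hj]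
    obtain ⟨α, hα⟩ := (not_dvd_unit (p := p) ha).exists_right_inv
    have hwα : ev x d.w = v * α := by
      linear_combination α * hw - ev x d.w * hα
    have h2 : ((v ^ j * a ^ (h * (L + l) - j) : ℤ) : ℤ_[p]) =
        (ev x d.w) ^ j * ((a : ℤ_[p]) ^ h) ^ (L + l) := by
      have e1 : h * (L + l) = (h * (L + l) - j) + j := by omega
      rw [← pow_mul, e1, hwα, mul_pow, pow_add, Nat.add_sub_cancel]
      have e2 : α ^ j * (a : ℤ_[p]) ^ j = 1 := by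
        rw [← mul_pow, mul_comm α, hα, one_pow]
      push_cast
      linear_combination (-((v : ℤ_[p]) ^ j * (a : ℤ_[p]) ^ (h * (L + l) - j))) * e2
    rw [h1, h2, ← mul_sub, norm_mul, norm_pow]
    obtain ⟨c, hc⟩ := sub_dvd_pow_sub_pow (ev x (d.G h)) ((a : ℤ_[p]) ^ h) (L + l)
    rw [hc, norm_mul]
    calc ‖ev x d.w‖ ^ j * (‖ev x (d.G h) - (a : ℤ_[p]) ^ h‖ * ‖c‖) ≤ 1 * (η * 1) := by
          apply mul_le_mul (pow_le_one₀ (norm_nonneg _) (PadicInt.norm_le_one _)) _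
            (by positivity) zero_le_one
          exact mul_le_mul hη (PadicInt.norm_le_one _) (norm_nonneg _)
            ((norm_nonneg _).trans hη)
      _ = η := by ring

end Pool.Agent.W2helper22.Tw
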