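import Pool.Agent.W2helper22.Tw.Cnt

/-!
# The number of twists with a small nonvanishing or a vanishing height
-/

set_option autoImplicit false

namespace Pool.Agent.W2helper22.Tw

open PowerSeries Pool.Agent.Y732

variable {p : ℕ} [hp : Fact p.Prime]

/-- the twists of one sign -/
theorem count_sign (hp5 : 5 ≤ p) {A B : ℤ} (d : TD (A : ℤ_[p]) (B : ℤ_[p]))
    (hd : ∀ (D : ℤ) (h : (WQ (tw A B D)).Point → ℚ_[p]), IsOrdinaryW p (tw A B D) →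
      IsHeightW p (tw A B D) h → HasFormula p (tw A B D) h (ex (rescale (D : ℤ_[p]) d.s)))
    {L : ℕ} (hL : 1 ≤ L) {C₀ : ℝ} {κ₀ : ℕ} (hC₀ : 0 < C₀)
    (hbp : ∀ H : ℕ, 1 ≤ H → ∀ Z : Finset ℤ_[p],
      (∀ x ∈ Z, (p : ℤ_[p]) ∣ x) →
      (∀ x ∈ Z, ∀ y ∈ Z, x ≠ y → ((H : ℝ) ^ 3)⁻¹ ≤ ‖x - y‖) →
      (∀ x ∈ Z, ∀ j, ∃ z : ℤ, |z| ≤ H ∧
        ‖ev x (d.mon ((p - 1) / 2) L j) - z‖ ≤ (C₀ * (H : ℝ) ^ κ₀)⁻¹) →
      (Z.card : ℝ) ≤ C₀ * (H : ℝ) ^ ((2 : ℝ) / (((L * L : ℕ) : ℝ) - 1)))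
    {H : ℕ} (hH : 1 ≤ H) {η : ℝ}
    (hη : η ≤ (C₀ * (((2 * H) ^ (2 * ((p - 1) / 2) * L) : ℕ) : ℝ) ^ κ₀)⁻¹) (T : Finset ℤ)
    (hT : ∀ D ∈ T, Squarefree D ∧ IsOrdinaryW p (tw A B D) ∧ Small p A B D H η)
    (hsign : ∀ D ∈ T, ∀ D' ∈ T, 0 < D * D') :
    (T.card : ℝ) ≤ C₀ * (((2 * H) ^ (2 * ((p - 1) / 2) * L) : ℕ) : ℝ) ^
      ((2 : ℝ) / (((L * L : ℕ) : ℝ) - 1)) := by
  classical
  obtain ⟨h₀, hh₀⟩ : ∃ h₀ : ℕ, h₀ = (p - 1) / 2 := ⟨_, rfl⟩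
  rw [← hh₀] at hη hbp ⊢
  have hh1 : 1 ≤ h₀ := by omega
  have hH2 : 1 ≤ 2 * H := by omega
  -- the parameters
  have hpar : ∀ D : ℤ, ∃ (x : ℤ_[p]) (a b e : ℤ), D ∈ T → PD p A B D a b e ∧ |a| ≤ H ∧
      |D * e ^ 2| ≤ H ∧ (p : ℤ_[p]) ∣ x ∧ (a : ℤ_[p]) * ev x d.w = ((D * e ^ 2 : ℤ) : ℤ_[p]) ∧
      ‖ev x (d.G h₀) - (a : ℤ_[p]) ^ h₀‖ ≤ η := by
    intro D
    by_cases hDT : D ∈ T
    · obtain ⟨-, ho, a, b, e, hPD, ha, hv, h, hP, hh, hsmall⟩ := hT D hDT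
      obtain ⟨x, hx, hw, hG⟩ := exists_param d hp5 hPD
      refine ⟨x, a, b, e, fun _ => ⟨hPD, ha, hv, hx, hw, ?_⟩⟩
      rw [hh₀, hG h (hd D h ho hh) hP]
      exact hsmall
    · exact ⟨0, 0, 0, 0, fun h => absurd h hDT⟩
  choose x a b e hx using hpar
  obtain ⟨Hb, hHb⟩ : ∃ Hb : ℕ, Hb = (2 * H) ^ (2 * h₀ * L) := ⟨_, rfl⟩
  rw [← hHb] at hη ⊢
  have hHb1 : 1 ≤ Hb := by
    rw [hHb]
    exact Nat.one_le_pow _ _ (by omega)
  have hHbig : 2 * (H : ℝ) ^ 2 ≤ (Hb : ℝ) ^ 3 := by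
    have h1 : 2 * H ≤ Hb := by
      rw [hHb]
      calc 2 * H = (2 * H) ^ 1 := (pow_one _).symm
        _ ≤ (2 * H) ^ (2 * h₀ * L) := Nat.pow_le_pow_right (by omega) (by
          have : 1 * 1 ≤ (2 * h₀) * L := Nat.mul_le_mul (by omega) hL
          omega)
    have h2 : (2 * H : ℝ) ≤ Hb := by exact_mod_cast h1
    have hH' : (1 : ℝ) ≤ H := by exact_mod_cast hH
    have h3 : (2 * H : ℝ) ^ 3 ≤ (Hb : ℝ) ^ 3 := by gcongr
    nlinarith [sq_nonneg (H : ℝ)]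
  have hsep : ∀ D ∈ T, ∀ D' ∈ T, D ≠ D' → ((Hb : ℝ) ^ 3)⁻¹ ≤ ‖x D - x D'‖ := by
    intro D hD D' hD' hne
    obtain ⟨hPD, ha, hv, hpx, hw, -⟩ := hx D hD
    obtain ⟨hPD', ha', hv', hpx', hw', -⟩ := hx D' hD'
    have hcr := cross_ne hPD hPD' (hT D hD).1 (hT D' hD').1 (hsign D hD D' hD') hne
    refine le_trans ?_ (ev_lip hpx hpx' d.w)
    have h1 : ((a D' * (D * e D ^ 2) - a D * (D' * e D' ^ 2) : ℤ) : ℤ_[p]) =
        (a D : ℤ_[p]) * (a D' : ℤ_[p]) * (ev (x D) d.w - ev (x D') d.w) := by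
      have e1 : (a D : ℤ_[p]) * (a D' : ℤ_[p]) * (ev (x D) d.w - ev (x D') d.w) =
          (a D' : ℤ_[p]) * ((a D : ℤ_[p]) * ev (x D) d.w) -
            (a D : ℤ_[p]) * ((a D' : ℤ_[p]) * ev (x D') d.w) := by ring
      rw [e1, hw, hw']
      push_cast
      ring
    have h2 : ‖ev (x D) d.w - ev (x D') d.w‖ =
        ‖((a D' * (D * e D ^ 2) - a D * (D' * e D' ^ 2) : ℤ) : ℤ_[p])‖ := by
      rw [h1, norm_mul, norm_mul, norm_int_unit hPD.pa, norm_int_unit hPD'.pa, one_mul, one_mul]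
    rw [h2]
    refine le_trans (inv_anti₀ (by positivity) hHbig) (norm_int_ge hcr ?_)
    have h3 : |a D' * (D * e D ^ 2) - a D * (D' * e D' ^ 2)| ≤ 2 * (H : ℤ) ^ 2 := by
      calc |a D' * (D * e D ^ 2) - a D * (D' * e D' ^ 2)| ≤
            |a D' * (D * e D ^ 2)| + |a D * (D' * e D' ^ 2)| := abs_sub _ _
        _ ≤ (H : ℤ) * H + (H : ℤ) * H := by
            rw [abs_mul (a D'), abs_mul (a D)]
            gcongr
        _ = _ := by ring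
    exact_mod_cast h3
  have hpos : 0 < ((Hb : ℝ) ^ 3)⁻¹ := by
    have : (0 : ℝ) < Hb := by exact_mod_cast hHb1
    positivity
  have hinj : Set.InjOn x (T : Set ℤ) := by
    intro D hD D' hD' heq
    by_contra hne
    have := hsep D hD D' hD' hne
    rw [heq, sub_self, norm_zero] at this
    linarith
  have hcard : (T.image x).card = T.card := Finset.card_image_of_injOn hinj
  rw [← hcard]
  apply hbp Hb hHb1
  · intro y hy
    obtain ⟨D, hD, rfl⟩ := Finset.mem_image.1 hy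
    exact (hx D hD).2.2.2.1
  · intro y hy y' hy' hne
    obtain ⟨D, hD, rfl⟩ := Finset.mem_image.1 hy
    obtain ⟨D', hD', rfl⟩ := Finset.mem_image.1 hy'
    exact hsep D hD D' hD' (fun h => hne (by rw [h]))
  · intro y hy i
    obtain ⟨D, hD, rfl⟩ := Finset.mem_image.1 hy
    obtain ⟨hPD, ha, hv, hpx, hw, hG⟩ := hx D hD
    have h2H : (H : ℤ) ≤ ((2 * H : ℕ) : ℤ) := by
      push_cast
      have : (0 : ℤ) ≤ H := Int.natCast_nonneg H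
      linarith
    obtain ⟨z, hz1, hz2⟩ := mon_value d hh1 (L := L) hpx hPD.pa hw (hG.trans hη) hH2
      (ha.trans h2H) (hv.trans h2H) i
    refine ⟨z, ?_, hz2⟩
    rw [hHb]
    exact hz1

/-- For all but `C H ^ ε` of the squarefree `D` the heights of the points of `E_D` which reduce to
the origin modulo `p` and to a nonsingular point modulo all primes and have the size at most `H` have
a norm greater than `(C H ^ κ)⁻¹`. -/
theorem count_small (hp5 : 5 ≤ p) (A B : ℤ) (hAB : 4 * A ^ 3 + 27 * B ^ 2 ≠ 0) {ε : ℝ}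
    (hε : 0 < ε) : ∃ (C : ℝ) (κ : ℕ), 0 < C ∧ ∀ H : ℕ, 1 ≤ H → ∀ S : Finset ℤ,
      (∀ D ∈ S, Squarefree D ∧ IsOrdinaryW p (tw A B D) ∧
        Small p A B D H (C * (H : ℝ) ^ κ)⁻¹) → (S.card : ℝ) ≤ C * (H : ℝ) ^ ε := by
  classical
  by_cases hex : ∃ (D : ℤ) (h : (WQ (tw A B D)).Point → ℚ_[p]), IsOrdinaryW p (tw A B D) ∧
      IsHeightW p (tw A B D) h
  swap
  · refine ⟨1, 0, one_pos, fun H hH S hS => ?_⟩
    have hempty : S = ∅ := by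
      rw [Finset.eq_empty_iff_forall_notMem]
      intro D hD
      obtain ⟨-, ho, a, b, e, -, -, -, h, -, hh, -⟩ := hS D hD
      exact hex ⟨D, h, ho, hh⟩
    rw [hempty, Finset.card_empty]
    push_cast
    positivity
  obtain ⟨d, hd⟩ := base_data hp5 A B hex
  obtain ⟨h₀, hh₀⟩ : ∃ h₀ : ℕ, h₀ = (p - 1) / 2 := ⟨_, rfl⟩
  have hh1 : 1 ≤ h₀ := by omega
  obtain ⟨L, hL⟩ : ∃ L : ℕ, L = ⌈8 * (h₀ : ℝ) / ε⌉₊ + 2 := ⟨_, rfl⟩
  have hL2 : 2 ≤ L := by omega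
  have hLε : 8 * (h₀ : ℝ) ≤ ε * L := by
    have h1 := Nat.le_ceil (8 * (h₀ : ℝ) / ε)
    have h2 : ((⌈8 * (h₀ : ℝ) / ε⌉₊ : ℕ) : ℝ) ≤ L := by
      rw [hL]
      push_cast
      linarith
    have h3 := h1.trans h2
    rw [div_le_iff₀ hε] at h3
    linarith
  have hAB' : 4 * (A : ℤ_[p]) ^ 3 + 27 * (B : ℤ_[p]) ^ 2 ≠ 0 := by
    intro h
    apply hAB
    have : ((4 * A ^ 3 + 27 * B ^ 2 : ℤ) : ℤ_[p]) = 0 := by
      push_cast
      exact h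
    exact_mod_cast this
  have hJ : 2 ≤ L * L := by nlinarith
  obtain ⟨C₀, κ₀, hC₀, hbp⟩ := bp hJ (d.indep hAB' hh1 L)
  obtain ⟨E, hE⟩ : ∃ E : ℕ, E = 2 * h₀ * L := ⟨_, rfl⟩
  obtain ⟨C, hC⟩ : ∃ C : ℝ, C = C₀ * 2 ^ (E * κ₀) + 2 * C₀ * 2 ^ ε := ⟨_, rfl⟩
  have h2ε : (0 : ℝ) < 2 ^ ε := by positivity
  have hC1 : C₀ * 2 ^ (E * κ₀) ≤ C := by
    rw [hC]
    have : 0 < 2 * C₀ * 2 ^ ε := by positivity
    linarith
  have hC2 : 2 * C₀ * 2 ^ ε ≤ C := by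
    rw [hC]
    have : 0 < C₀ * 2 ^ (E * κ₀) := by positivity
    linarith
  have hC0 : 0 < C := lt_of_lt_of_le (by positivity) hC1
  refine ⟨C, E * κ₀, hC0, fun H hH S hS => ?_⟩
  have hH1 : (1 : ℝ) ≤ H := by exact_mod_cast hH
  have hH0 : (0 : ℝ) < H := by linarith
  have hη : (C * (H : ℝ) ^ (E * κ₀))⁻¹ ≤
      (C₀ * (((2 * H) ^ (2 * ((p - 1) / 2) * L) : ℕ) : ℝ) ^ κ₀)⁻¹ := by
    rw [← hh₀, ← hE]
    apply inv_anti₀
    · positivity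
    · push_cast
      rw [← pow_mul, mul_pow]
      calc C₀ * (2 ^ (E * κ₀) * (H : ℝ) ^ (E * κ₀)) = (C₀ * 2 ^ (E * κ₀)) * (H : ℝ) ^ (E * κ₀) := by
            ring
        _ ≤ C * (H : ℝ) ^ (E * κ₀) := by gcongr
  have hs0 : ∀ D ∈ S, D ≠ 0 := fun D hD => (hS D hD).1.ne_zero
  have hone : ∀ T : Finset ℤ, T ⊆ S → (∀ D ∈ T, ∀ D' ∈ T, 0 < D * D') →
      (T.card : ℝ) ≤ C₀ * (((2 * H) ^ E : ℕ) : ℝ) ^ ((2 : ℝ) / (((L * L : ℕ) : ℝ) - 1)) := by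
    intro T hTS hsign
    have h1 := count_sign hp5 d hd (by omega : 1 ≤ L) hC₀ (by rw [← hh₀]; exact hbp) hH hη T
      (fun D hD => hS D (hTS hD)) hsign
    rw [← hh₀, ← hE] at h1
    exact h1
  have hexp : (((2 * H) ^ E : ℕ) : ℝ) ^ ((2 : ℝ) / (((L * L : ℕ) : ℝ) - 1)) ≤
      2 ^ ε * (H : ℝ) ^ ε := by
    have hL2' : (2 : ℝ) ≤ L := by exact_mod_cast hL2
    have hden : 0 < ((L * L : ℕ) : ℝ) - 1 := by
      push_cast
      nlinarith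
    rw [← Real.mul_rpow (by norm_num) hH0.le]
    push_cast
    rw [← Real.rpow_natCast, ← Real.rpow_mul (by positivity)]
    apply Real.rpow_le_rpow_of_exponent_le (by linarith)
    push_cast at hden
    rw [mul_div_assoc', div_le_iff₀ hden, hE]
    push_cast
    have h1 : (L : ℝ) * L ≤ 2 * ((L : ℝ) * L - 1) := by nlinarith
    have h2 : 8 * (h₀ : ℝ) * L ≤ ε * (L * L) := by nlinarith
    nlinarith
  have hsplit : S.card = (S.filter fun D => 0 < D).card + (S.filter fun D => ¬ 0 < D).card :=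
    (Finset.card_filter_add_card_filter_not _).symm
  have hp1 := hone (S.filter fun D => 0 < D) (Finset.filter_subset _ _) (by
    intro D hD D' hD'
    exact mul_pos (Finset.mem_filter.1 hD).2 (Finset.mem_filter.1 hD').2)
  have hp2 := hone (S.filter fun D => ¬ 0 < D) (Finset.filter_subset _ _) (by
    intro D hD D' hD'
    have h1 := Finset.mem_filter.1 hD
    have h2 := Finset.mem_filter.1 hD'
    have h3 := hs0 D h1.1
    have h4 := hs0 D' h2.1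
    exact mul_pos_of_neg_of_neg (by omega) (by omega))
  calc (S.card : ℝ) = ((S.filter fun D => 0 < D).card : ℝ) + ((S.filter fun D => ¬ 0 < D).card : ℝ) := by
        rw [hsplit]
        push_cast
        rfl
    _ ≤ C₀ * (2 ^ ε * (H : ℝ) ^ ε) + C₀ * (2 ^ ε * (H : ℝ) ^ ε) := by
        apply add_le_add
        · exact hp1.trans (mul_le_mul_of_nonneg_left hexp hC₀.le)
        · exact hp2.trans (mul_le_mul_of_nonneg_left hexp hC₀.le)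
    _ = (2 * C₀ * 2 ^ ε) * (H : ℝ) ^ ε := by ring
    _ ≤ C * (H : ℝ) ^ ε := by gcongr

end Pool.Agent.W2helper22.Tw
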