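import Pool.Agent.W2helper22.Tw.TLev
import Pool.Agent.Y732.Pair

/-!
# The sigma functions of the quadratic twists
-/

set_option autoImplicit false

namespace Pool.Agent.W2helper22.Tw

open PowerSeries Pool.Agent.Y732

variable {p : ℕ} [hp : Fact p.Prime]

/-- the substitution `T = t ^ 2` -/
noncomputable abbrev ex (f : ℤ_[p]⟦X⟧) : ℤ_[p]⟦X⟧ := PowerSeries.expand 2 two_ne_zero f

lemma ex_inj {f g : ℤ_[p]⟦X⟧} (h : ex f = ex g) : f = g := by
  ext n
  have h1 := congrArg (coeff (2 * n)) h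
  rwa [coeff_expand_mul, coeff_expand_mul] at h1

/-- the even part -/
noncomputable def half (f : ℤ_[p]⟦X⟧) : ℤ_[p]⟦X⟧ := PowerSeries.mk fun n => coeff (2 * n) f

lemma ex_half {f : ℤ_[p]⟦X⟧} (h : ∀ n, coeff (2 * n + 1) f = 0) : ex (half f) = f := by
  ext n
  rcases Nat.even_or_odd' n with ⟨k, rfl | rfl⟩
  · rw [coeff_expand_mul, half, coeff_mk]
  · rw [h k, coeff_expand_of_not_dvd]
    omega

lemma even_of_rescale {f : ℤ_[p]⟦X⟧} (h : rescale (-1 : ℤ_[p]) f = f) (n : ℕ) :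
    coeff (2 * n + 1) f = 0 := by
  have h1 := congrArg (coeff (2 * n + 1)) h
  rw [coeff_rescale, pow_succ, pow_mul] at h1
  simp only [even_two, Even.neg_pow, one_pow, one_mul, neg_mul] at h1
  have h2 : (2 : ℤ_[p]) * coeff (2 * n + 1) f = 0 := by linear_combination -h1
  exact (mul_eq_zero.1 h2).resolve_left two_ne_zero

lemma rescale_of_even {f : ℤ_[p]⟦X⟧} (h : ∀ n, coeff (2 * n + 1) f = 0) :
    rescale (-1 : ℤ_[p]) f = f := by
  ext n
  rw [coeff_rescale]
  rcases Nat.even_or_odd' n with ⟨k, rfl | rfl⟩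
  · rw [pow_mul]
    simp
  · rw [h k, mul_zero]

lemma X_deriv_ex (f : ℤ_[p]⟦X⟧) : X * d⁄dX ℤ_[p] (ex f) = 2 * ex (X * d⁄dX ℤ_[p] f) := by
  have e2 : (2 : ℤ_[p]⟦X⟧) = C (2 : ℤ_[p]) := (map_ofNat _ 2).symm
  ext n
  rw [e2, coeff_C_mul]
  rcases Nat.even_or_odd' n with ⟨k, rfl | rfl⟩
  · rw [coeff_expand_mul]
    rcases Nat.eq_zero_or_pos k with rfl | hk
    · simp
    · obtain ⟨i, rfl⟩ : ∃ i, k = i + 1 := ⟨k - 1, by omega⟩
      rw [coeff_succ_X_mul, coeff_derivative, show 2 * (i + 1) = (2 * i + 1) + 1 by ring,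
        coeff_succ_X_mul, coeff_derivative, show 2 * i + 1 + 1 = 2 * (i + 1) by ring,
        coeff_expand_mul]
      push_cast
      ring
  · rw [coeff_expand_of_not_dvd (h := by omega), coeff_succ_X_mul, coeff_derivative,
      coeff_expand_of_not_dvd (h := by omega)]
    simp

lemma neg_one_4 (A : ℤ_[p]) : (-1 : ℤ_[p]) ^ 4 * A = A := by ring
lemma neg_one_6 (B : ℤ_[p]) : (-1 : ℤ_[p]) ^ 6 * B = B := by ring

/-- the even data of a sigma function -/
theorem dat_even (hp2 : p ≠ 2) {A B : ℤ_[p]} {s : ℤ_[p]⟦X⟧} (d : Dat A B s)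
    (hs : ∀ n, coeff (2 * n + 1) s = 0) : ∃ t : TD A B, ex t.s = s := by
  have hD := d.scale (-1)
  have h2 := isUnit_two (p := p) hp2
  have hexp : IsExp A B (rescale (-1 : ℤ_[p]) d.u) (rescale (-1 : ℤ_[p]) d.g) := by
    have h0 : IsExp ((-1) ^ 4 * A) ((-1) ^ 6 * B) (rescale (-1 : ℤ_[p]) d.u)
        (rescale (-1 : ℤ_[p]) d.g) := (d.scale (-1)).exp
    rw [neg_one_4, neg_one_6] at h0
    exact h0
  obtain ⟨hu, hg⟩ := IsExp.unique h2 hexp d.exp
  have hu' := ex_half (even_of_rescale hu)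
  have hg' := ex_half (even_of_rescale hg)
  have hs' := ex_half hs
  have hF : rescale (-1 : ℤ_[p]) d.F = d.F := by
    have h3 : rescale (-1 : ℤ_[p]) d.g * (rescale (-1 : ℤ_[p]) s * rescale (-1 : ℤ_[p]) d.F) =
        rescale (-1 : ℤ_[p]) s + X * d⁄dX ℤ_[p] (rescale (-1 : ℤ_[p]) s) := (d.scale (-1)).e2
    rw [hg, rescale_of_even hs, ← d.e2] at h3
    have hgs : IsUnit (d.g * s) := by
      apply isUnit_of_const
      rw [map_mul, d.exp.const_g h2, d.s0, one_mul]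
    apply hgs.mul_left_cancel
    rw [mul_assoc, mul_assoc]
    exact h3
  have hF' := ex_half (even_of_rescale hF)
  have eX : ex (X : ℤ_[p]⟦X⟧) = X ^ 2 := expand_X 2 two_ne_zero
  have eC : ∀ a : ℤ_[p], ex (C a) = C a := fun a => expand_C 2 two_ne_zero a
  have e2 : ex (2 : ℤ_[p]⟦X⟧) = 2 := map_ofNat _ 2
  have em : ∀ a b : ℤ_[p]⟦X⟧, ex (a * b) = ex a * ex b := fun a b => map_mul _ a b
  have ea : ∀ a b : ℤ_[p]⟦X⟧, ex (a + b) = ex a + ex b := fun a b => map_add _ a b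
  refine ⟨⟨d.c, half d.u, half d.g, half d.F, half s, ?_, ?_, ?_, ?_, ?_⟩, hs'⟩
  · apply ex_inj
    simp only [ex, map_add, map_one, map_mul, map_pow] at *
    rw [hu', eX, eC, eC]
    linear_combination d.exp.1
  · apply ex_inj
    have h3 := X_deriv_ex (half d.u)
    simp only [ex, map_add, map_mul] at *
    rw [hu', eX] at *
    rw [hg']
    have h4 := d.exp.2
    rw [h3] at h4
    have h5 : (2 : ℤ_[p]⟦X⟧) ≠ 0 := by
      intro h0
      have := congrArg constantCoeff h0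
      rw [map_ofNat, map_zero] at this
      exact two_ne_zero this
    apply mul_left_cancel₀ h5
    linear_combination h4
  · apply ex_inj
    have h3 := X_deriv_ex (half d.F)
    simp only [ex, map_add, map_mul, map_sub, map_one] at *
    rw [hF', eX] at *
    rw [hu', hg', eC, e2]
    have h4 := d.e1
    linear_combination h4 + d.u * h3
  · apply ex_inj
    have h3 := X_deriv_ex (half s)
    rw [hs'] at h3
    have h4 := d.e2
    rw [h3] at h4
    have h5 : ex (half d.g * (half s * half d.F)) = d.g * (s * d.F) := by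
      rw [em, em, hg', hs', hF']
    have h6 : ex (half s + 2 * X * d⁄dX ℤ_[p] (half s)) =
        s + 2 * ex (X * d⁄dX ℤ_[p] (half s)) := by
      rw [ea, mul_assoc, em 2, hs', e2]
    rw [h5, h6, h4]
  · rw [half, ← coeff_zero_eq_constantCoeff_apply, coeff_mk, mul_zero,
      coeff_zero_eq_constantCoeff_apply, d.s0]

/-- the data of a twist -/
noncomputable def TD.scale {A B : ℤ_[p]} (d : TD A B) (a : ℤ_[p]) :
    TD (a ^ 2 * A) (a ^ 3 * B) where
  c := a * d.c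
  u := rescale a d.u
  g := rescale a d.g
  F := rescale a d.F
  s := rescale a d.s
  e0 := by
    have h1 := congrArg (rescale a) d.e0
    simp only [map_add, map_mul, map_pow, map_one, rescale_X, rescale_C] at h1 ⊢
    linear_combination h1
  e1 := by
    have h1 := congrArg (rescale a) d.e1
    rw [derivative_rescale]
    simp only [map_add, map_mul, rescale_X] at h1 ⊢
    linear_combination h1
  e2 := by
    have h1 := congrArg (rescale a) d.e2
    rw [derivative_rescale]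
    have e : rescale a (2 : ℤ_[p]⟦X⟧) = 2 := map_ofNat _ 2
    simp only [map_sub, map_add, map_mul, map_one, rescale_X, rescale_C, e] at h1 ⊢
    linear_combination h1
  e3 := by
    have h1 := congrArg (rescale a) d.e3
    rw [derivative_rescale]
    have e : rescale a (2 : ℤ_[p]⟦X⟧) = 2 := map_ofNat _ 2
    simp only [map_add, map_mul, rescale_X, e] at h1 ⊢
    linear_combination h1
  s0 := by
    rw [← coeff_zero_eq_constantCoeff_apply, coeff_rescale, pow_zero, one_mul,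
      coeff_zero_eq_constantCoeff_apply, d.s0]

/-- back to the full data -/
noncomputable def TD.dat {A B : ℤ_[p]} (d : TD A B) : Dat A B (ex d.s) where
  c := d.c
  u := ex d.u
  g := ex d.g
  F := ex d.F
  exp := by
    have eX : ex (X : ℤ_[p]⟦X⟧) = X ^ 2 := expand_X 2 two_ne_zero
    have eC : ∀ a : ℤ_[p], ex (C a) = C a := fun a => expand_C 2 two_ne_zero a
    have e2 : ex (2 : ℤ_[p]⟦X⟧) = 2 := map_ofNat _ 2
    constructor
    · have h1 := congrArg ex d.e0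
      simp only [ex, map_add, map_one, map_mul, map_pow] at *
      rw [eX, eC, eC] at h1
      linear_combination h1
    · have h1 := congrArg ex d.e1
      have h3 := X_deriv_ex d.u
      simp only [ex, map_add, map_mul] at *
      rw [h3]
      linear_combination 2 * h1
  e1 := by
    have eX : ex (X : ℤ_[p]⟦X⟧) = X ^ 2 := expand_X 2 two_ne_zero
    have eC : ∀ a : ℤ_[p], ex (C a) = C a := fun a => expand_C 2 two_ne_zero a
    have e2 : ex (2 : ℤ_[p]⟦X⟧) = 2 := map_ofNat _ 2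
    have h1 := congrArg ex d.e2
    have h3 := X_deriv_ex d.F
    simp only [ex, map_add, map_mul, map_sub, map_one] at *
    rw [h3]
    rw [e2, eX, eC] at h1
    rw [eX]
    linear_combination h1
  e2 := by
    have e2 : ex (2 : ℤ_[p]⟦X⟧) = 2 := map_ofNat _ 2
    have h1 := congrArg ex d.e3
    have h3 := X_deriv_ex d.s
    simp only [ex, map_add, map_mul] at *
    rw [h3]
    rw [e2] at h1
    linear_combination h1
  s0 := by
    rw [constantCoeff_expand, d.s0]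
  s1 := by
    rw [coeff_expand_of_not_dvd]
    omega

/-- the uniqueness of the sigma function -/
theorem dat_unique (hp2 : p ≠ 2) {A B : ℤ_[p]}
    (hH : hasse p (PadicInt.toZMod A) (PadicInt.toZMod B) ≠ 0) {s₁ s₂ : ℤ_[p]⟦X⟧}
    (d₁ : Dat A B s₁) (d₂ : Dat A B s₂) : s₁ = s₂ := by
  have hs1 : IsUnit s₁ := isUnit_of_const d₁.s0
  obtain ⟨ρ, hρ⟩ : ∃ ρ, ρ * s₁ = s₂ := by
    obtain ⟨r, hr⟩ := hs1.exists_left_inv
    exact ⟨s₂ * r, by rw [mul_assoc, hr, mul_one]⟩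
  have hρ1 : ρ = 1 := by
    ext n
    rcases Nat.eq_zero_or_pos n with rfl | hn
    · have h := congrArg constantCoeff hρ
      rw [map_mul, d₁.s0, d₂.s0, mul_one] at h
      rw [coeff_zero_eq_constantCoeff_apply, h]
      simp
    · rw [coeff_one, if_neg (by omega)]
      have h1 : (p : ℤ_[p]) ^ (2 * Nat.log p n) * coeff n ρ = 0 := by
        by_contra hne
        have h2 : ∀ k : ℕ, (p : ℤ_[p]) ^ k ∣ (p : ℤ_[p]) ^ (2 * Nat.log p n) * coeff n ρ := by
          intro k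
          have h3 := Dat.compare hp2 k rfl rfl hH d₁ d₂ ρ hρ n hn
          rw [← toZModPow_eq_zero_iff, map_mul, map_pow, map_natCast]
          exact h3
        have hp1 : (1 : ℝ) < p := by exact_mod_cast hp.out.one_lt
        obtain ⟨k, hk⟩ := exists_pow_lt_of_lt_one (norm_pos_iff.2 hne) (inv_lt_one_of_one_lt₀ hp1)
        obtain ⟨a, ha⟩ := h2 k
        have h4 : ‖(p : ℤ_[p]) ^ (2 * Nat.log p n) * coeff n ρ‖ ≤ ((p : ℝ)⁻¹) ^ k := by
          rw [ha, norm_mul, norm_pow, PadicInt.norm_p]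
          exact mul_le_of_le_one_right (by positivity) (PadicInt.norm_le_one _)
        exact absurd hk (not_lt.2 h4)
      refine (mul_eq_zero.1 h1).resolve_left (pow_ne_zero _ ?_)
      exact_mod_cast hp.out.ne_zero
  rw [← hρ, hρ1, one_mul]

/-- the quadratic twist `y² = x³ + A D² x + B D³` of `y² = x³ + A x + B` -/
def tw (A B D : ℤ) : WeierstrassCurve ℤ := ⟨0, 0, 0, A * D ^ 2, B * D ^ 3⟩

lemma tw_c₄ (A B D : ℤ) : (tw A B D).c₄ = -(48 * (A * D ^ 2)) := by
  simp only [WeierstrassCurve.c₄, WeierstrassCurve.b₂, WeierstrassCurve.b₄, tw]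
  ring

lemma tw_c₆ (A B D : ℤ) : (tw A B D).c₆ = -(864 * (B * D ^ 3)) := by
  simp only [WeierstrassCurve.c₆, WeierstrassCurve.b₂, WeierstrassCurve.b₄, WeierstrassCurve.b₆, tw]
  ring

lemma tw_Δ (A B D : ℤ) : (tw A B D).Δ = -16 * (D ^ 6 * (4 * A ^ 3 + 27 * B ^ 2)) := by
  simp only [WeierstrassCurve.Δ, WeierstrassCurve.b₂, WeierstrassCurve.b₄, WeierstrassCurve.b₆,
    WeierstrassCurve.b₈, tw]
  ring

omit hp in
lemma tw_unit {A B D : ℤ} (h : IsOrdinaryW p (tw A B D)) : ¬ (p : ℤ) ∣ D := by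
  intro hD
  apply h.1
  rw [tw_Δ]
  exact ((hD.trans (dvd_pow_self D (by norm_num))).mul_right _).mul_left _

lemma ordin_hasse (hp5 : 5 ≤ p) {A B D : ℤ} (h : IsOrdinaryW p (tw A B D)) :
    hasse p (PadicInt.toZMod ((A * D ^ 2 : ℤ) : ℤ_[p])) (PadicInt.toZMod ((B * D ^ 3 : ℤ) : ℤ_[p])) ≠ 0 := by
  apply hasse_pad hp5 h
  · rw [tw_c₄]
    push_cast
    ring
  · rw [tw_c₆]
    push_cast
    ring

/-- the data given by a height -/
theorem height_data (hp5 : 5 ≤ p) {A B D : ℤ} {h : (WQ (tw A B D)).Point → ℚ_[p]}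
    (hh : IsHeightW p (tw A B D) h) :
    ∃ t : TD ((A * D ^ 2 : ℤ) : ℤ_[p]) ((B * D ^ 3 : ℤ) : ℤ_[p]),
      HasFormula p (tw A B D) h (ex t.s) := by
  obtain ⟨hq, A', B', σ, hA, hB, hσ, hf⟩ := hh
  have hA' : A' = ((A * D ^ 2 : ℤ) : ℤ_[p]) := by
    rw [tw_c₄] at hA
    have h1 : (48 : ℤ_[p]) * (A' - ((A * D ^ 2 : ℤ) : ℤ_[p])) = 0 := by
      push_cast at hA ⊢
      linear_combination hA
    exact sub_eq_zero.1 ((mul_eq_zero.1 h1).resolve_left (by norm_num))
  have hB' : B' = ((B * D ^ 3 : ℤ) : ℤ_[p]) := by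
    rw [tw_c₆] at hB
    have h1 : (864 : ℤ_[p]) * (B' - ((B * D ^ 3 : ℤ) : ℤ_[p])) = 0 := by
      push_cast at hB ⊢
      linear_combination hB
    exact sub_eq_zero.1 ((mul_eq_zero.1 h1).resolve_left (by norm_num))
  subst hA' hB'
  obtain ⟨s, hs, ⟨d⟩⟩ := hσ.dat
  obtain ⟨c, u, g, D₁, D₂, -, -, -, -, -, hodd⟩ := hσ
  have heven : ∀ n, coeff (2 * n + 1) s = 0 := by
    intro n
    have h1 := hodd (n + 1)
    rw [hs, show 2 * (n + 1) = (2 * n + 1) + 1 by ring, coeff_succ_X_mul] at h1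
    exact h1
  obtain ⟨t, ht⟩ := dat_even (by omega) d heven
  refine ⟨t, ?_⟩
  rw [ht]
  intro a b e hP t' he hc hpe hN ht'
  have := hf a b e hP t' he hc hpe hN ht'
  rwa [hs] at this

/-- one sigma function for all twists -/
theorem base_data (hp5 : 5 ≤ p) (A B : ℤ)
    (hex : ∃ (D : ℤ) (h : (WQ (tw A B D)).Point → ℚ_[p]), IsOrdinaryW p (tw A B D) ∧
      IsHeightW p (tw A B D) h) :
    ∃ d : TD (A : ℤ_[p]) (B : ℤ_[p]), ∀ (D : ℤ) (h : (WQ (tw A B D)).Point → ℚ_[p]),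
      IsOrdinaryW p (tw A B D) → IsHeightW p (tw A B D) h →
        HasFormula p (tw A B D) h (ex (rescale (D : ℤ_[p]) d.s)) := by
  obtain ⟨D₀, h₀, ho₀, hh₀⟩ := hex
  obtain ⟨t₀, -⟩ := height_data hp5 hh₀
  obtain ⟨r, hr⟩ := (not_dvd_unit (tw_unit ho₀)).exists_right_inv
  have e1 : r ^ 2 * ((A * D₀ ^ 2 : ℤ) : ℤ_[p]) = (A : ℤ_[p]) := by
    push_cast
    linear_combination (A * (D₀ * r + 1)) * hr
  have e2 : r ^ 3 * ((B * D₀ ^ 3 : ℤ) : ℤ_[p]) = (B : ℤ_[p]) := by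
    push_cast
    linear_combination (B * ((D₀ * r) ^ 2 + (D₀ * r) + 1)) * hr
  obtain ⟨d⟩ : Nonempty (TD (A : ℤ_[p]) (B : ℤ_[p])) := by
    have := t₀.scale r
    rw [e1, e2] at this
    exact ⟨this⟩
  refine ⟨d, fun D h ho hh => ?_⟩
  obtain ⟨t, ht⟩ := height_data hp5 hh
  have h1 : ex t.s = ex (rescale (D : ℤ_[p]) d.s) := by
    have d₁ := t.dat
    have d₂ : Dat ((D : ℤ_[p]) ^ 2 * (A : ℤ_[p])) ((D : ℤ_[p]) ^ 3 * (B : ℤ_[p]))
        (ex (rescale (D : ℤ_[p]) d.s)) := (d.scale (D : ℤ_[p])).dat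
    have e3 : (D : ℤ_[p]) ^ 2 * (A : ℤ_[p]) = ((A * D ^ 2 : ℤ) : ℤ_[p]) := by
      push_cast
      ring
    have e4 : (D : ℤ_[p]) ^ 3 * (B : ℤ_[p]) = ((B * D ^ 3 : ℤ) : ℤ_[p]) := by
      push_cast
      ring
    rw [e3, e4] at d₂
    exact dat_unique (by omega) (ordin_hasse hp5 ho) d₁ d₂
  rw [← h1]
  exact ht

end Pool.Agent.W2helper22.Tw
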