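import Pool.Agent.W2helper22.Tw.Siz
import Pool.Agent.R89.SR.Basis

/-!
# The exceptional twists
-/

set_option autoImplicit false

namespace Pool.Agent.W2helper22.Tw

open Pool.Agent.Y732 Pool.Agent.R89.SR WeierstrassCurve

variable {p : ℕ} [hp : Fact p.Prime]

/-- a point of infinite order whose `x`-coordinate has numerator and denominator at most `H` -/
def SmallPt (W : WeierstrassCurve ℤ) (H : ℕ) (Q : (WQ W).Point) : Prop :=
  (∀ n : ℕ, 1 ≤ n → n • Q ≠ 0) ∧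
    ∃ x y hP, Q = .some x y hP ∧ |x.num| ≤ H ∧ x.den ≤ H

/-- the number of twists with a point of small `p`-adic height -/
theorem count_bad (hp5 : 5 ≤ p) {A B : ℤ} (hE : 4 * A ^ 3 + 27 * B ^ 2 ≠ 0) {ε : ℝ} (hε : 0 < ε) :
    ∃ (C : ℝ) (κ : ℕ), 0 < C ∧ ∀ H : ℕ, 1 ≤ H → ∀ S : Finset ℤ,
      (∀ D ∈ S, |D| ≤ H ∧ Squarefree D ∧ IsOrdinaryW p (tw A B D) ∧
        ∃ h : (WQ (tw A B D)).Point → ℚ_[p], IsHeightW p (tw A B D) h ∧
          ∃ Q, SmallPt (tw A B D) H Q ∧ ‖h Q‖ < (C * (H : ℝ) ^ κ)⁻¹) →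
      (S.card : ℝ) ≤ C * (H : ℝ) ^ ε := by
  obtain ⟨M, hM0, hM⟩ := exists_mult hp5 hE
  obtain ⟨C₁, d, hC₁, hsz⟩ := size_mult A B M
  have hd0 : (0 : ℝ) < (d : ℝ) + 1 := by positivity
  obtain ⟨C₂, κ₂, hC₂, hct⟩ := count_small hp5 A B hE (div_pos hε hd0)
  have hC₁' : (1 : ℝ) ≤ C₁ := by exact_mod_cast hC₁
  have hpos1 : 0 < C₂ * (C₁ : ℝ) ^ κ₂ := by positivity
  have hpos2 : 0 < C₂ * (C₁ : ℝ) ^ (ε / (d + 1)) := by positivity
  refine ⟨C₂ * (C₁ : ℝ) ^ κ₂ + C₂ * (C₁ : ℝ) ^ (ε / (d + 1)), d * κ₂, by positivity, ?_⟩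
  intro H hH S hS
  have hH1 : (1 : ℝ) ≤ H := by exact_mod_cast hH
  have hH' : 1 ≤ C₁ * H ^ d := Nat.mul_pos hC₁ (Nat.pow_pos hH)
  have h1 := hct (C₁ * H ^ d) hH' S (by
    intro D hD
    obtain ⟨hDH, hsq, ho, h, hh, Q, ⟨hQ, x, y, hP, hQx, hx, hy⟩, hsmall⟩ := hS D hD
    refine ⟨hsq, ho, ?_⟩
    obtain ⟨a, b, e, hPD, hrep⟩ := hM D hsq ho Q hQ
    obtain ⟨ha, hv⟩ := hsz H hH D hDH Q x y hP hQx hx hy (hQ M hM0) a b e hrep hPD.hc
    obtain ⟨-, hP', hMQ⟩ := hrep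
    refine ⟨a, b, e, hPD, by push_cast; exact ha, by push_cast; exact hv, h, hP', hh, ?_⟩
    rw [← hMQ, quadratic hh.1, norm_mul]
    have h2 : ‖((M : ℕ) : ℚ_[p]) ^ 2‖ ≤ 1 := by
      rw [norm_pow]
      exact pow_le_one₀ (norm_nonneg _) (by
        have := Padic.norm_int_le_one (p := p) (M : ℤ)
        push_cast at this
        exact this)
    calc ‖((M : ℕ) : ℚ_[p]) ^ 2‖ * ‖h Q‖ ≤ 1 * ‖h Q‖ :=
          mul_le_mul_of_nonneg_right h2 (norm_nonneg _)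
      _ ≤ ((C₂ * (C₁ : ℝ) ^ κ₂ + C₂ * (C₁ : ℝ) ^ (ε / (d + 1))) * (H : ℝ) ^ (d * κ₂))⁻¹ := by
          rw [one_mul]
          exact hsmall.le
      _ ≤ (C₂ * ((C₁ * H ^ d : ℕ) : ℝ) ^ κ₂)⁻¹ := by
          apply inv_anti₀
          · positivity
          · push_cast
            rw [mul_pow, ← pow_mul, ← mul_assoc]
            apply mul_le_mul_of_nonneg_right _ (by positivity)
            linarith)
  refine h1.trans ?_
  push_cast
  rw [Real.mul_rpow (by positivity) (by positivity), ← Real.rpow_natCast, ← Real.rpow_mul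
    (by positivity), ← mul_assoc]
  have h3 : (H : ℝ) ^ ((d : ℝ) * (ε / (d + 1))) ≤ (H : ℝ) ^ ε := by
    apply Real.rpow_le_rpow_of_exponent_le hH1
    rw [mul_div_assoc', div_le_iff₀ hd0]
    nlinarith
  calc C₂ * (C₁ : ℝ) ^ (ε / (d + 1)) * (H : ℝ) ^ ((d : ℝ) * (ε / (d + 1))) ≤
      C₂ * (C₁ : ℝ) ^ (ε / (d + 1)) * (H : ℝ) ^ ε := mul_le_mul_of_nonneg_left h3 hpos2.le
    _ ≤ (C₂ * (C₁ : ℝ) ^ κ₂ + C₂ * (C₁ : ℝ) ^ (ε / (d + 1))) * (H : ℝ) ^ ε := by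
      apply mul_le_mul_of_nonneg_right _ (by positivity)
      linarith

/-- For every canonical `p`-adic height of `W`: the height of all rational points of infinite
order with the numerator and the denominator of `x` at most `H` has norm at least `1 / T`, and if
the rank of the group of rational points is one and there is such a point, then Schneider's
conjecture holds for `W`, and the regulator of a basis modulo torsion has norm at least `1 / T`. -/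
def Good (p : ℕ) [Fact p.Prime] (W : WeierstrassCurve ℤ) (H : ℕ) (T : ℝ) : Prop :=
  ∀ h : (WQ W).Point → ℚ_[p], IsHeightW p W h →
    (∀ Q, SmallPt W H Q → T⁻¹ ≤ ‖h Q‖) ∧
    (Module.finrank ℤ (WQ W).Point = 1 → (∃ Q, SmallPt W H Q) →
      ∀ (s : ℕ) (c : Fin s → (WQ W).Point), LinearIndependent ℤ c →
        ((∀ Q, ∃ n : ℤ, n ≠ 0 ∧ n • Q ∈ Submodule.span ℤ (Set.range c)) → Reg h c ≠ 0) ∧
        ((∀ Q, ∃ T' : (WQ W).Point, (∃ n : ℤ, n ≠ 0 ∧ n • T' = 0) ∧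
          Q + T' ∈ Submodule.span ℤ (Set.range c)) → T⁻¹ ≤ ‖Reg h c‖))

lemma good_of {W : WeierstrassCurve ℤ} {H : ℕ} {T : ℝ} (hp3 : 3 ≤ p) (hT : 0 < T)
    (hall : ∀ h : (WQ W).Point → ℚ_[p], IsHeightW p W h → ∀ Q, SmallPt W H Q → T⁻¹ ≤ ‖h Q‖) :
    Good p W H T := by
  intro h hh
  refine ⟨hall h hh, ?_⟩
  rintro hrank ⟨Q, hQ⟩ s c hc
  have h1 := hall h hh Q hQ
  have hReg : Reg h (fun _ : Fin 1 => Q) = 2 * h Q := by
    have h2 := quadratic hh.1 Q 2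
    unfold Reg
    rw [Matrix.det_fin_one, Matrix.of_apply, ← two_nsmul, h2]
    push_cast
    ring
  have h2 : ‖(2 : ℚ_[p])‖ = 1 := by
    have h3 : ‖((2 : ℕ) : ℚ_[p])‖ = 1 := by
      rw [Padic.norm_natCast_eq_one_iff]
      exact (Nat.coprime_primes hp.out Nat.prime_two).2 (by omega)
    exact_mod_cast h3
  have hnorm : ‖Reg h (fun _ : Fin 1 => Q)‖ = ‖h Q‖ := by
    rw [hReg, norm_mul, h2, one_mul]
  have hT' : 0 < T⁻¹ := inv_pos.2 hT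
  have hne : Reg h (fun _ : Fin 1 => Q) ≠ 0 := by
    rw [← norm_pos_iff, hnorm]
    linarith
  exact ⟨fun hmax => Reg_ne_zero hh.1 one_pos hne hrank hc hmax, fun hmax => h1.trans
    (hnorm ▸ Reg_norm_le hh.1 one_pos hne hrank hc hmax)⟩

/-- all but few twists are good -/
theorem main (hp5 : 5 ≤ p) {A B : ℤ} (hE : 4 * A ^ 3 + 27 * B ^ 2 ≠ 0) (K : ℕ) {ε : ℝ}
    (hε : 0 < ε) : ∃ (C : ℝ) (κ : ℕ), 0 < C ∧ ∀ N : ℕ, 1 ≤ N →
      ({D : ℤ | |D| ≤ N ∧ Squarefree D ∧ IsOrdinaryW p (tw A B D) ∧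
        ¬ Good p (tw A B D) (N ^ K) (C * (N : ℝ) ^ κ)}.ncard : ℝ) ≤ C * (N : ℝ) ^ ε := by
  classical
  have hK0 : (0 : ℝ) < (K : ℝ) + 1 := by positivity
  obtain ⟨C, κ, hC, h⟩ := count_bad hp5 hE (div_pos hε hK0)
  refine ⟨C, (K + 1) * κ, hC, fun N hN => ?_⟩
  have hN1 : (1 : ℝ) ≤ N := by exact_mod_cast hN
  have hfin : {D : ℤ | |D| ≤ N ∧ Squarefree D ∧ IsOrdinaryW p (tw A B D) ∧
      ¬ Good p (tw A B D) (N ^ K) (C * (N : ℝ) ^ ((K + 1) * κ))}.Finite := by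
    apply (Set.finite_Icc (-(N : ℤ)) N).subset
    intro D hD
    exact abs_le.1 hD.1
  have hNK : N ≤ N ^ (K + 1) := by
    calc N = N ^ 1 := (pow_one N).symm
      _ ≤ N ^ (K + 1) := Nat.pow_le_pow_right hN (by omega)
  have hNK' : N ^ K ≤ N ^ (K + 1) := Nat.pow_le_pow_right hN (by omega)
  have h1 := h (N ^ (K + 1)) (Nat.one_le_pow _ _ hN) hfin.toFinset (by
    intro D hD
    rw [Set.Finite.mem_toFinset] at hD
    obtain ⟨hDN, hsq, ho, hbad⟩ := hD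
    refine ⟨hDN.trans (by exact_mod_cast hNK), hsq, ho, ?_⟩
    by_contra hcon
    push Not at hcon
    apply hbad
    apply good_of (by omega) (by positivity)
    intro ht hht Q hQ
    have h2 := hcon ht hht Q ⟨hQ.1, by
      obtain ⟨x, y, hP, h3, h4, h5⟩ := hQ.2
      exact ⟨x, y, hP, h3, h4.trans (by exact_mod_cast hNK'), h5.trans hNK'⟩⟩
    push_cast at h2
    rw [← pow_mul] at h2
    exact h2)
  rw [Set.ncard_eq_toFinset_card _ hfin]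
  refine h1.trans (le_of_eq ?_)
  push_cast
  rw [← Real.rpow_natCast, ← Real.rpow_mul (by positivity)]
  congr 2
  push_cast
  field_simp

end Pool.Agent.W2helper22.Tw
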