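import Pool.Agent.W2helper22.Tw.Cnt2
import Pool.Agent.Y732.Pair

/-!
# Nonsingular reduction of rational points at one prime
-/

set_option autoImplicit false

namespace Pool.Agent.W2helper22.Tw

open Pool.Agent.Y732 WeierstrassCurve

/-- integral Jacobian coordinates of a rational point -/
def Rep (W : WeierstrassCurve ℤ) (Q : (WQ W).Point) (X Y Z : ℤ) : Prop :=
  Z ≠ 0 ∧ ∃ hP : (WQ W).Nonsingular ((X : ℚ) / (Z : ℚ) ^ 2) ((Y : ℚ) / (Z : ℚ) ^ 3),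
    Q = .some _ _ hP

/-- the triple is a nonsingular point modulo `ℓ` -/
def NSl (ℓ : ℕ) (W : WeierstrassCurve ℤ) (X Y Z : ℤ) : Prop :=
  (red W (ZMod ℓ)).toJacobian.Nonsingular ![(X : ZMod ℓ), (Y : ZMod ℓ), (Z : ZMod ℓ)]

/-- the point reduces to a nonsingular point modulo `ℓ` -/
def NSat (ℓ : ℕ) (W : WeierstrassCurve ℤ) (Q : (WQ W).Point) : Prop :=
  ∃ X Y Z, Rep W Q X Y Z ∧ NSl ℓ W X Y Z

lemma Rep.onCurve {W : WeierstrassCurve ℤ} {Q : (WQ W).Point} {X Y Z : ℤ} (h : Rep W Q X Y Z) :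
    OnCurve W X Y Z := by
  obtain ⟨hZ, hP, -⟩ := h
  have h1 := (triple_jac hP hZ).1
  rw [Jacobian.equation_iff] at h1
  have e1 : (red W ℚ).toJacobian.a₁ = (W.a₁ : ℚ) := rfl
  have e2 : (red W ℚ).toJacobian.a₂ = (W.a₂ : ℚ) := rfl
  have e3 : (red W ℚ).toJacobian.a₃ = (W.a₃ : ℚ) := rfl
  have e4 : (red W ℚ).toJacobian.a₄ = (W.a₄ : ℚ) := rfl
  have e6 : (red W ℚ).toJacobian.a₆ = (W.a₆ : ℚ) := rfl
  rw [e1, e2, e3, e4, e6] at h1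
  simp only [Jacobian.fin3_def_ext] at h1
  unfold OnCurve
  have h' := sub_eq_zero.1 h1
  exact_mod_cast h'

/-- two triples for the same point -/
lemma Rep.unique {W : WeierstrassCurve ℤ} {Q : (WQ W).Point} {X Y Z a b e : ℤ}
    (h : Rep W Q X Y Z) (h' : Rep W Q a b e) (hc : IsCoprime a e) :
    ∃ κ : ℤ, κ ≠ 0 ∧ X = κ ^ 2 * a ∧ Y = κ ^ 3 * b ∧ Z = κ * e := by
  obtain ⟨hZ, hP, h1⟩ := h
  obtain ⟨he, hP', h2⟩ := h'
  rw [h1, Affine.Point.some.injEq] at h2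
  obtain ⟨h3, h4⟩ := h2
  have hZ' : (Z : ℚ) ≠ 0 := by exact_mod_cast hZ
  have he' : (e : ℚ) ≠ 0 := by exact_mod_cast he
  rw [div_eq_div_iff (pow_ne_zero _ hZ') (pow_ne_zero _ he')] at h3 h4
  have h5 : X * e ^ 2 = a * Z ^ 2 := by exact_mod_cast h3
  have h6 : Y * e ^ 3 = b * Z ^ 3 := by exact_mod_cast h4
  have h7 : e ^ 2 ∣ Z ^ 2 := by
    have h8 : e ^ 2 ∣ a * Z ^ 2 := ⟨X, by rw [← h5]; ring⟩
    exact (hc.symm.pow_left (m := 2)).dvd_of_dvd_mul_left h8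
  obtain ⟨κ, hκ⟩ := (Int.pow_dvd_pow_iff two_ne_zero).1 h7
  refine ⟨κ, ?_, ?_, ?_, ?_⟩
  · rintro rfl
    exact hZ (by rw [hκ, mul_zero])
  · have h8 : e ^ 2 * X = e ^ 2 * (κ ^ 2 * a) := by
      rw [mul_comm, h5, hκ]
      ring
    exact mul_left_cancel₀ (pow_ne_zero 2 he) h8
  · have h8 : e ^ 3 * Y = e ^ 3 * (κ ^ 3 * b) := by
      rw [mul_comm, h6, hκ]
      ring
    exact mul_left_cancel₀ (pow_ne_zero 3 he) h8
  · rw [hκ, mul_comm]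

/-- the reduction in lowest terms -/
lemma NSat.lowest {ℓ : ℕ} [hℓ : Fact ℓ.Prime] {W : WeierstrassCurve ℤ} {Q : (WQ W).Point}
    {a b e : ℤ} (h : NSat ℓ W Q) (h' : Rep W Q a b e) (hc : IsCoprime a e) : NSl ℓ W a b e := by
  obtain ⟨X, Y, Z, h1, h2⟩ := h
  obtain ⟨κ, hκ, rfl, rfl, rfl⟩ := h1.unique h' hc
  have hu : (κ : ZMod ℓ) ≠ 0 := by
    intro h0
    unfold NSl at h2
    push_cast at h2
    rw [h0] at h2
    simp only [ne_eq, OfNat.ofNat_ne_zero, not_false_eq_true, zero_pow, zero_mul] at h2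
    exact Jacobian.X_ne_zero_of_Z_eq_zero h2 rfl rfl
  unfold NSl at h2 ⊢
  rw [← Jacobian.nonsingular_smul _ (isUnit_iff_ne_zero.2 hu), Jacobian.smul_fin3]
  push_cast at h2
  exact h2

/-- multiples -/
lemma Rep.smul {W : WeierstrassCurve ℤ} {Q : (WQ W).Point} {X Y Z : ℤ} (h : Rep W Q X Y Z) (n : ℕ)
    (hn : n • Q ≠ 0) : Rep W (n • Q) (T W X Y Z n 0) (T W X Y Z n 1) (T W X Y Z n 2) := by
  obtain ⟨hZ, hP, rfl⟩ := h
  have hz : T W X Y Z n 2 ≠ 0 := fun h0 => hn ((Ti_zero_iff hP hZ n).2 h0)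
  exact ⟨hz, Ti_some hP hZ n hz⟩

lemma NSat.smul {ℓ : ℕ} [hℓ : Fact ℓ.Prime] {W : WeierstrassCurve ℤ} {Q : (WQ W).Point}
    (h : NSat ℓ W Q) (n : ℕ) (hn : n • Q ≠ 0) : NSat ℓ W (n • Q) := by
  obtain ⟨X, Y, Z, h1, h2⟩ := h
  refine ⟨_, _, _, h1.smul n hn, ?_⟩
  have h3 := T_nonsingular h2 n
  have h4 : T (red W (ZMod ℓ)) (X : ZMod ℓ) (Y : ZMod ℓ) (Z : ZMod ℓ) n =
      ![((T W X Y Z n 0 : ℤ) : ZMod ℓ), ((T W X Y Z n 1 : ℤ) : ZMod ℓ),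
        ((T W X Y Z n 2 : ℤ) : ZMod ℓ)] := by
    ext i
    rw [T_cast]
    fin_cases i <;> rfl
  rw [h4] at h3
  exact h3

/-- a triple in lowest terms which reduces to the origin -/
lemma nsl_of_dvd {ℓ : ℕ} [hℓ : Fact ℓ.Prime] {W : WeierstrassCurve ℤ} {X Y e : ℤ}
    (heq : OnCurve W X Y e) (hc : IsCoprime X e) (he : (ℓ : ℤ) ∣ e) : NSl ℓ W X Y e := by
  have heq' := heq.cast (ZMod ℓ)
  have he : (e : ZMod ℓ) = 0 := (ZMod.intCast_zmod_eq_zero_iff_dvd _ _).2 he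
  have hX : (X : ZMod ℓ) ≠ 0 := by
    intro h0
    rw [ZMod.intCast_zmod_eq_zero_iff_dvd] at h0 he
    exact (Nat.prime_iff_prime_int.1 hℓ.out).not_isUnit (hc.isUnit_of_dvd' h0 he)
  have h2 : (![(X : ZMod ℓ), (Y : ZMod ℓ), (e : ZMod ℓ)] : Fin 3 → ZMod ℓ) 2 = 0 := he
  unfold NSl
  rw [Jacobian.nonsingular_of_Z_eq_zero h2]
  refine ⟨heq', ?_⟩
  rw [Jacobian.equation_of_Z_eq_zero h2] at heq'
  have h1 : (Y : ZMod ℓ) ^ 2 = (X : ZMod ℓ) ^ 3 := heq'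
  by_contra hcon
  push Not at hcon
  have h3 : (3 : ZMod ℓ) = 0 := by
    rcases mul_eq_zero.1 hcon.1 with h | h
    · exact h
    · exact absurd h (pow_ne_zero 2 hX)
  have h4 : (2 : ZMod ℓ) = 0 := by
    rcases mul_eq_zero.1 hcon.2.1 with h | h
    · exact h
    · exfalso
      have h5 : (X : ZMod ℓ) ^ 3 = 0 := by
        rw [← h1]
        change (Y : ZMod ℓ) = 0 at h
        rw [h]
        ring
      exact hX (pow_eq_zero_iff (by norm_num) |>.1 h5)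
  have : (1 : ZMod ℓ) = 0 := by linear_combination h3 - h4
  exact one_ne_zero this

/-- a triple at which one of the derivatives does not vanish -/
lemma nsl_of_deriv {ℓ : ℕ} [hℓ : Fact ℓ.Prime] {W : WeierstrassCurve ℤ} {X Y e : ℤ}
    (heq : OnCurve W X Y e) (he : ¬ (ℓ : ℤ) ∣ e)
    (h : ¬ (ℓ : ℤ) ∣ 2 * Y + W.a₁ * X * e + W.a₃ * e ^ 3) : NSl ℓ W X Y e := by
  have he : (e : ZMod ℓ) ≠ 0 := fun h => he ((ZMod.intCast_zmod_eq_zero_iff_dvd _ _).1 h)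
  have h2 : (![(X : ZMod ℓ), (Y : ZMod ℓ), (e : ZMod ℓ)] : Fin 3 → ZMod ℓ) 2 ≠ 0 := he
  unfold NSl
  rw [Jacobian.nonsingular_iff_of_Z_ne_zero h2, Jacobian.eval_polynomialX,
    Jacobian.eval_polynomialY]
  refine ⟨heq.cast (ZMod ℓ), Or.inr ?_⟩
  intro h0
  apply h
  rw [← ZMod.intCast_zmod_eq_zero_iff_dvd _ ℓ]
  push_cast
  exact h0

/-- good reduction -/
lemma nsl_good {ℓ : ℕ} [hℓ : Fact ℓ.Prime] {W : WeierstrassCurve ℤ} {X Y e : ℤ}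
    (heq : OnCurve W X Y e) (hc : IsCoprime X e) (hD : ¬ (ℓ : ℤ) ∣ W.Δ) : NSl ℓ W X Y e := by
  by_cases he : (ℓ : ℤ) ∣ e
  · exact nsl_of_dvd heq hc he
  · have he : (e : ZMod ℓ) ≠ 0 := fun h => he ((ZMod.intCast_zmod_eq_zero_iff_dvd _ _).1 h)
    have h2 : (![(X : ZMod ℓ), (Y : ZMod ℓ), (e : ZMod ℓ)] : Fin 3 → ZMod ℓ) 2 ≠ 0 := he
    have h1 : (red W (ZMod ℓ)).Δ ≠ 0 := by
      rw [WeierstrassCurve.map_Δ]
      intro h0
      exact hD ((ZMod.intCast_zmod_eq_zero_iff_dvd _ _).1 h0)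
    unfold NSl
    rw [Jacobian.nonsingular_of_Z_ne_zero h2]
    exact (Affine.equation_iff_nonsingular_of_Δ_ne_zero (W := (red W (ZMod ℓ)).toAffine) h1).1
      ((Jacobian.equation_of_Z_ne_zero h2).1 (heq.cast (ZMod ℓ)))

/-- everywhere nonsingular reduction -/
lemma everywhere_of {W : WeierstrassCurve ℤ} {Q : (WQ W).Point} {a b e : ℤ}
    (h : ∀ ℓ : ℕ, ℓ.Prime → NSat ℓ W Q) (h' : Rep W Q a b e) (hc : IsCoprime a e) :
    EverywhereNonsingular W a b e := by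
  intro ℓ hℓ
  have : Fact ℓ.Prime := ⟨hℓ⟩
  by_cases h1 : (ℓ : ℤ) ∣ e
  · exact Or.inl h1
  · right
    have h0 := (h ℓ hℓ).lowest h' hc
    have h1' : (![(a : ZMod ℓ), (b : ZMod ℓ), (e : ZMod ℓ)] : Fin 3 → ZMod ℓ) 2 ≠ 0 :=
      fun h => h1 ((ZMod.intCast_zmod_eq_zero_iff_dvd _ _).1 h)
    have h2 := ((Jacobian.nonsingular_iff_of_Z_ne_zero h1').1 h0).2
    rw [Jacobian.eval_polynomialX, Jacobian.eval_polynomialY] at h2
    rintro ⟨h3, h4⟩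
    rw [← ZMod.intCast_zmod_eq_zero_iff_dvd _ ℓ] at h3 h4
    push_cast at h3 h4
    rcases h2 with h2 | h2
    · exact h2 h4
    · exact h2 h3

/-- the short Weierstrass curve -/
def Sh (α β : ℤ) : WeierstrassCurve ℤ := ⟨0, 0, 0, α, β⟩

lemma den_shape {m n k l : ℤ} (hn : 0 < n) (hl : 0 < l) (hmn : IsCoprime m n) (hkl : IsCoprime k l)
    {α β : ℤ} (h : k ^ 2 * n ^ 3 = l ^ 2 * (m ^ 3 + α * m * n ^ 2 + β * n ^ 3)) :
    ∃ Z : ℤ, Z ≠ 0 ∧ n = Z ^ 2 ∧ l = Z ^ 3 := by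
  have h1 : l ^ 2 ∣ n ^ 3 := by
    have h2 : l ^ 2 ∣ k ^ 2 * n ^ 3 := ⟨_, h⟩
    exact ((hkl.symm.pow (m := 2) (n := 2))).dvd_of_dvd_mul_left h2
  have h2 : n ^ 3 ∣ l ^ 2 := by
    have h3 : n ^ 3 ∣ l ^ 2 * (m ^ 3 + α * m * n ^ 2 + β * n ^ 3) := ⟨k ^ 2, by rw [← h]; ring⟩
    have h4 : IsCoprime (n ^ 3) (m ^ 3 + α * m * n ^ 2 + β * n ^ 3) := by
      apply IsCoprime.pow_left
      have h5 : m ^ 3 + α * m * n ^ 2 + β * n ^ 3 = m ^ 3 + n * (α * m * n + β * n ^ 2) := by ring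
      rw [h5]
      exact (hmn.symm.pow_right).add_mul_left_right _
    exact h4.dvd_of_dvd_mul_right h3
  have h3 : l ^ 2 = n ^ 3 := Int.dvd_antisymm (by positivity) (by positivity) h1 h2
  have h4 : n ∣ l := by
    rw [← Int.pow_dvd_pow_iff two_ne_zero, h3]
    exact ⟨n, by ring⟩
  obtain ⟨Z, rfl⟩ := h4
  have h5 : n = Z ^ 2 := by
    have h6 : n ^ 2 * n = n ^ 2 * Z ^ 2 := by linear_combination -h3
    exact mul_left_cancel₀ (pow_ne_zero 2 hn.ne') h6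
  refine ⟨Z, ?_, h5, ?_⟩
  · rintro rfl
    rw [h5] at hn
    norm_num at hn
  · nth_rewrite 1 [h5]
    ring

/-- lowest terms -/
theorem exists_lowest {α β : ℤ} {Q : (WQ (Sh α β)).Point} (hQ : Q ≠ 0) :
    ∃ a b e : ℤ, Rep (Sh α β) Q a b e ∧ IsCoprime a e ∧
      ∀ x y h, Q = .some x y h → a = x.num ∧ e ^ 2 = (x.den : ℤ) := by
  rcases Q with _ | ⟨x, y, h⟩
  · exact absurd rfl hQ
  have h1 := h.1
  rw [Affine.equation_iff] at h1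
  have e1 : (WQ (Sh α β)).a₁ = 0 := by simp [WQ, Sh]
  have e2 : (WQ (Sh α β)).a₂ = 0 := by simp [WQ, Sh]
  have e3 : (WQ (Sh α β)).a₃ = 0 := by simp [WQ, Sh]
  have e4 : (WQ (Sh α β)).a₄ = α := by simp [WQ, Sh]
  have e6 : (WQ (Sh α β)).a₆ = β := by simp [WQ, Sh]
  rw [e1, e2, e3, e4, e6] at h1
  obtain ⟨m, hm⟩ : ∃ m : ℤ, m = x.num := ⟨_, rfl⟩
  obtain ⟨n, hn⟩ : ∃ n : ℤ, n = x.den := ⟨_, rfl⟩
  obtain ⟨k, hk⟩ : ∃ k : ℤ, k = y.num := ⟨_, rfl⟩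
  obtain ⟨l, hl⟩ : ∃ l : ℤ, l = y.den := ⟨_, rfl⟩
  have hx : x = (m : ℚ) / n := by rw [hm, hn]; exact (Rat.num_div_den x).symm
  have hy : y = (k : ℚ) / l := by rw [hk, hl]; exact (Rat.num_div_den y).symm
  have hn0 : 0 < n := by rw [hn]; exact_mod_cast x.pos
  have hl0 : 0 < l := by rw [hl]; exact_mod_cast y.pos
  have hmn : IsCoprime m n := by
    rw [hm, hn, Int.isCoprime_iff_gcd_eq_one]
    exact x.reduced
  have hkl : IsCoprime k l := by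
    rw [hk, hl, Int.isCoprime_iff_gcd_eq_one]
    exact y.reduced
  have hnQ : (n : ℚ) ≠ 0 := by exact_mod_cast hn0.ne'
  have hlQ : (l : ℚ) ≠ 0 := by exact_mod_cast hl0.ne'
  have h2 : k ^ 2 * n ^ 3 = l ^ 2 * (m ^ 3 + α * m * n ^ 2 + β * n ^ 3) := by
    have h3 : (k : ℚ) ^ 2 * n ^ 3 = l ^ 2 * (m ^ 3 + α * m * n ^ 2 + β * n ^ 3) := by
      rw [hx, hy] at h1
      field_simp at h1
      linear_combination h1
    exact_mod_cast h3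
  obtain ⟨Z, hZ, hnZ, hlZ⟩ := den_shape hn0 hl0 hmn hkl h2
  have hx' : x = (m : ℚ) / (Z : ℚ) ^ 2 := by rw [hx, hnZ]; push_cast; rfl
  have hy' : y = (k : ℚ) / (Z : ℚ) ^ 3 := by rw [hy, hlZ]; push_cast; rfl
  refine ⟨m, k, Z, ⟨hZ, ?_⟩, ?_, ?_⟩
  · subst hx' hy'
    exact ⟨h, rfl⟩
  · rw [hnZ] at hmn
    exact (IsCoprime.pow_right_iff (by norm_num)).1 hmn
  · intro x' y' h' he
    rw [Affine.Point.some.injEq] at he
    rw [← he.1]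
    exact ⟨hm, by rw [← hnZ, hn]⟩

end Pool.Agent.W2helper22.Tw
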