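import Pool.Agent.W2helper22.Tw.Loc

/-!
# The primes of additive reduction
-/

set_option autoImplicit false

namespace Pool.Agent.W2helper22.Tw

open Pool.Agent.Y732 WeierstrassCurve

lemma J_two_sh {R : Type*} [CommRing R] (W : WeierstrassCurve R) (P : Fin 3 → R) :
    J W.toJacobian P 2 = W.toJacobian.dblXYZ P := by
  have h := J_dbl W.toJacobian P 1 (le_refl 1)
  rw [J_one] at h
  exact h

lemma T_two_zero (α β X Y e : ℤ) :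
    T (Sh α β) X Y e 2 0 = (3 * X ^ 2 + α * e ^ 4) ^ 2 - 8 * X * Y ^ 2 := by
  rw [T_zero']
  unfold G
  rw [J_two_sh, Jacobian.dblXYZ_X, Jacobian.dblX, Jacobian.dblU_eq, Jacobian.negY]
  simp only [Jacobian.fin3_def_ext]
  simp only [twist, Sh]
  ring

lemma T_two_two (α β X Y e : ℤ) : T (Sh α β) X Y e 2 2 = e * (2 * Y) := by
  rw [T_two']
  unfold G
  rw [J_two_sh, Jacobian.dblXYZ_Z, Jacobian.dblZ, Jacobian.negY]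
  simp only [Jacobian.fin3_def_ext]
  simp only [twist, Sh]
  ring

lemma onCurve_sh {α β a b e : ℤ} (h : OnCurve (Sh α β) a b e) :
    b ^ 2 = a ^ 3 + α * a * e ^ 4 + β * e ^ 6 := by
  unfold OnCurve at h
  simp only [Sh] at h
  linear_combination h

lemma tw_sh (A B D : ℤ) : tw A B D = Sh (A * D ^ 2) (B * D ^ 3) := rfl

/-- a triple whose first coordinate is prime to a prime of additive reduction -/
lemma nsl_cusp {ℓ : ℕ} [hℓ : Fact ℓ.Prime] {α β a b e : ℤ} (heq : OnCurve (Sh α β) a b e)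
    (hc : IsCoprime a e) (hα : (ℓ : ℤ) ∣ α) (hβ : (ℓ : ℤ) ∣ β) (h2 : ¬ (ℓ : ℤ) ∣ 2)
    (ha : ¬ (ℓ : ℤ) ∣ a) : NSl ℓ (Sh α β) a b e := by
  have hpr := Nat.prime_iff_prime_int.1 hℓ.out
  by_cases he : (ℓ : ℤ) ∣ e
  · exact nsl_of_dvd heq hc he
  · apply nsl_of_deriv heq he
    intro h
    simp only [Sh, zero_mul, add_zero] at h
    have hb : (ℓ : ℤ) ∣ b := (hpr.dvd_or_dvd h).resolve_left h2
    apply ha
    apply hpr.dvd_of_dvd_pow (n := 3)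
    have h3 : a ^ 3 = b * b - (α * (a * e ^ 4) + β * e ^ 6) := by
      linear_combination -onCurve_sh heq
    rw [h3]
    exact dvd_sub (hb.mul_right _) (dvd_add (hα.mul_right _) (hβ.mul_right _))

/-- the discriminant -/
lemma disc_comb (α β x : ℤ) : 4 * α ^ 3 + 27 * β ^ 2 = (27 * β - 18 * α * x) * (x ^ 3 + α * x + β) +
    (6 * α * x ^ 2 - 9 * β * x + 4 * α ^ 2) * (3 * x ^ 2 + α) := by
  ring

/-- the double of a point reduces to a nonsingular point modulo the primes dividing the twist -/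
theorem nsat_twist {ℓ : ℕ} [hℓ : Fact ℓ.Prime] {A B D : ℤ}
    (hE : ¬ (ℓ : ℤ) ∣ 2 * (4 * A ^ 3 + 27 * B ^ 2)) (hD : (ℓ : ℤ) ∣ D) (hsq : Squarefree D)
    {Q : (WQ (Sh (A * D ^ 2) (B * D ^ 3))).Point} (hQ : 2 • Q ≠ 0) :
    NSat ℓ (Sh (A * D ^ 2) (B * D ^ 3)) (2 • Q) := by
  have hpr := Nat.prime_iff_prime_int.1 hℓ.out
  have h2 : ¬ (ℓ : ℤ) ∣ 2 := fun h => hE (h.mul_right _)
  have hE' : ¬ (ℓ : ℤ) ∣ 4 * A ^ 3 + 27 * B ^ 2 := fun h => hE (h.mul_left _)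
  have hQ0 : Q ≠ 0 := by
    rintro rfl
    exact hQ (nsmul_zero 2)
  obtain ⟨a, b, e, hrep, hc, -⟩ := exists_lowest hQ0
  have hα : (ℓ : ℤ) ∣ A * D ^ 2 := (hD.pow (by norm_num)).mul_left _
  have hβ : (ℓ : ℤ) ∣ B * D ^ 3 := (hD.pow (by norm_num)).mul_left _
  by_cases he : (ℓ : ℤ) ∣ e
  · exact NSat.smul ⟨a, b, e, hrep, nsl_of_dvd hrep.onCurve hc he⟩ 2 hQ
  by_cases ha : (ℓ : ℤ) ∣ a
  swap
  · exact NSat.smul ⟨a, b, e, hrep, nsl_cusp hrep.onCurve hc hα hβ h2 ha⟩ 2 hQ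
  obtain ⟨a₂, b₂, e₂, hrep₂, hc₂, -⟩ := exists_lowest hQ
  refine ⟨a₂, b₂, e₂, hrep₂, nsl_cusp hrep₂.onCurve hc₂ hα hβ h2 ?_⟩
  have heq := onCurve_sh hrep.onCurve
  obtain ⟨κ, hκ, hT0, -, hT2⟩ := (hrep.smul 2 hQ).unique hrep₂ hc₂
  rw [T_two_zero] at hT0
  rw [T_two_two] at hT2
  have hℓ0 : (ℓ : ℤ) ≠ 0 := hpr.ne_zero
  obtain ⟨a', rfl⟩ := ha
  obtain ⟨D', rfl⟩ := hD
  have hD' : ¬ (ℓ : ℤ) ∣ D' := by
    rintro ⟨D'', rfl⟩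
    exact hpr.not_isUnit (hsq ℓ ⟨D'', by ring⟩)
  obtain ⟨F, hF⟩ : ∃ F : ℤ, F = a' ^ 3 + (A * D' ^ 2 * e ^ 4) * a' + B * D' ^ 3 * e ^ 6 := ⟨_, rfl⟩
  obtain ⟨m, hm⟩ : ∃ m : ℤ, m = 3 * a' ^ 2 + A * D' ^ 2 * e ^ 4 := ⟨_, rfl⟩
  have h3 : b ^ 2 = ℓ ^ 3 * F := by
    rw [heq, hF]
    ring
  have hb : (ℓ : ℤ) ∣ b := hpr.dvd_of_dvd_pow (n := 2) (by rw [h3]; exact ⟨ℓ ^ 2 * F, by ring⟩)
  obtain ⟨b', rfl⟩ := hb
  have h4 : b' ^ 2 = ℓ * F := by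
    have h5 : (ℓ : ℤ) ^ 2 * b' ^ 2 = ℓ ^ 2 * (ℓ * F) := by linear_combination h3
    exact mul_left_cancel₀ (pow_ne_zero 2 hℓ0) h5
  have hb' : (ℓ : ℤ) ∣ b' := hpr.dvd_of_dvd_pow (n := 2) (by rw [h4]; exact ⟨F, rfl⟩)
  obtain ⟨b'', rfl⟩ := hb'
  have h5 : F = ℓ * b'' ^ 2 := by
    have h6 : (ℓ : ℤ) * F = ℓ * (ℓ * b'' ^ 2) := by linear_combination -h4
    exact mul_left_cancel₀ hℓ0 h6
  have hm' : ¬ (ℓ : ℤ) ∣ m := by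
    intro h
    have h6 := disc_comb (A * D' ^ 2 * e ^ 4) (B * D' ^ 3 * e ^ 6) a'
    rw [← hF, ← hm, h5] at h6
    have h7 : (ℓ : ℤ) ∣ (D' ^ 6 * e ^ 12) * (4 * A ^ 3 + 27 * B ^ 2) := by
      have h8 : (D' ^ 6 * e ^ 12) * (4 * A ^ 3 + 27 * B ^ 2) =
        4 * (A * D' ^ 2 * e ^ 4) ^ 3 + 27 * (B * D' ^ 3 * e ^ 6) ^ 2 := by ring
      rw [h8, h6]
      exact dvd_add (((dvd_refl _).mul_right _).mul_left _) (h.mul_left _)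
    rcases hpr.dvd_or_dvd h7 with h8 | h8
    · rcases hpr.dvd_or_dvd h8 with h9 | h9
      · exact hD' (hpr.dvd_of_dvd_pow h9)
      · exact he (hpr.dvd_of_dvd_pow h9)
    · exact hE' h8
  intro ha₂
  have he₂ : ¬ (ℓ : ℤ) ∣ e₂ := fun h => hpr.not_isUnit (hc₂.isUnit_of_dvd' ha₂ h)
  have hcop : IsCoprime ((ℓ : ℤ) ^ 2) e₂ :=
    IsCoprime.pow_left ((Prime.coprime_iff_not_dvd hpr).2 he₂)
  have h6 : (ℓ : ℤ) ^ 2 ∣ κ := by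
    apply hcop.dvd_of_dvd_mul_right
    rw [← hT2]
    exact ⟨e * (2 * b''), by ring⟩
  obtain ⟨κ', rfl⟩ := h6
  have h7 : m ^ 2 - 8 * ℓ * a' * b'' ^ 2 = κ' ^ 2 * a₂ := by
    have h8 : (ℓ : ℤ) ^ 4 * (m ^ 2 - 8 * ℓ * a' * b'' ^ 2) = ℓ ^ 4 * (κ' ^ 2 * a₂) := by
      rw [hm]
      linear_combination hT0
    exact mul_left_cancel₀ (pow_ne_zero 4 hℓ0) h8
  apply hm'
  apply hpr.dvd_of_dvd_pow (n := 2)
  have h8 : m ^ 2 = κ' ^ 2 * a₂ + ℓ * (8 * a' * b'' ^ 2) := by linear_combination h7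
  rw [h8]
  exact dvd_add (ha₂.mul_left _) (dvd_mul_right _ _)

end Pool.Agent.W2helper22.Tw
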