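import Pool.Agent.W2helper22.Tw.Loc2

/-!
# The primes of bad reduction: pigeonhole
-/

set_option autoImplicit false

namespace Pool.Agent.W2helper22.Tw

open Pool.Agent.Y732 WeierstrassCurve

section divisibility

variable {R : Type*} [CommRing R] [IsDomain R] {q α β x₁ y₁ x₂ y₂ s : R}

omit [IsDomain R] in
lemma disc_dvd (e1 : y₁ ^ 2 = x₁ ^ 3 + α * x₁ + β) (h1 : q ∣ 2 * y₁) (h2 : q ∣ 3 * x₁ ^ 2 + α) :
    q ∣ 4 * (4 * α ^ 3 + 27 * β ^ 2) := by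
  have h3 : 4 * (4 * α ^ 3 + 27 * β ^ 2) = (27 * β - 18 * α * x₁) * (2 * y₁) * (2 * y₁) +
      4 * (6 * α * x₁ ^ 2 - 9 * β * x₁ + 4 * α ^ 2) * (3 * x₁ ^ 2 + α) := by
    linear_combination (-4 * (27 * β - 18 * α * x₁)) * e1
  rw [h3]
  exact dvd_add (h1.mul_left _) (h2.mul_left _)

lemma chord_dvd (hx : q ∣ x₁ - x₂) (hy : q ∣ y₁ - y₂) (hne : x₁ ≠ x₂)
    (e1 : y₁ ^ 2 = x₁ ^ 3 + α * x₁ + β) (e2 : y₂ ^ 2 = x₂ ^ 3 + α * x₂ + β)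
    (hs : s * (x₁ - x₂) = y₁ + y₂) : q ∣ 4 * (4 * α ^ 3 + 27 * β ^ 2) := by
  have h1 : q ∣ 2 * y₁ := by
    have h2 : 2 * y₁ = s * (x₁ - x₂) + (y₁ - y₂) := by rw [hs]; ring
    rw [h2]
    exact dvd_add (hx.mul_left _) hy
  refine disc_dvd e1 h1 ?_
  have h3 : x₁ ^ 2 + x₁ * x₂ + x₂ ^ 2 + α = s * (y₁ - y₂) := by
    have h4 : (x₁ - x₂) * (x₁ ^ 2 + x₁ * x₂ + x₂ ^ 2 + α) = (x₁ - x₂) * (s * (y₁ - y₂)) := by
      linear_combination e2 - e1 - (y₁ - y₂) * hs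
    exact mul_left_cancel₀ (sub_ne_zero.2 hne) h4
  have h5 : 3 * x₁ ^ 2 + α = s * (y₁ - y₂) + (2 * x₁ + x₂) * (x₁ - x₂) := by
    rw [← h3]
    ring
  rw [h5]
  exact dvd_add (hy.mul_left _) (hx.mul_left _)

omit [IsDomain R] in
lemma tangent_dvd (h1 : q ∣ 2 * y₁) (e1 : y₁ ^ 2 = x₁ ^ 3 + α * x₁ + β)
    (hs : s * (2 * y₁) = 3 * x₁ ^ 2 + α) : q ∣ 4 * (4 * α ^ 3 + 27 * β ^ 2) :=
  disc_dvd e1 h1 (by rw [← hs]; exact h1.mul_left _)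

end divisibility

section points

variable {α β : ℤ}

lemma sh_a : (WQ (Sh α β)).a₁ = 0 ∧ (WQ (Sh α β)).a₂ = 0 ∧ (WQ (Sh α β)).a₃ = 0 ∧
    (WQ (Sh α β)).a₄ = α ∧ (WQ (Sh α β)).a₆ = β := by
  simp [WQ, Sh]

lemma ex_some {P : (WQ (Sh α β)).Point} {x y x' : ℚ} {h : (WQ (Sh α β)).Nonsingular x y}
    (hP : P = .some _ _ h) (hx : x = x') : ∃ x₃ y₃ h₃, P = .some x₃ y₃ h₃ ∧ x₃ = x' :=
  ⟨x, y, h, hP, hx⟩

/-- the difference of two points -/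
lemma sub_chord {x₁ y₁ x₂ y₂ : ℚ} (h₁ : (WQ (Sh α β)).Nonsingular x₁ y₁)
    (h₂ : (WQ (Sh α β)).Nonsingular x₂ y₂) (hx : x₁ ≠ x₂) :
    ∃ x₃ y₃ h₃, (.some _ _ h₁ : (WQ (Sh α β)).Point) - .some _ _ h₂ = .some x₃ y₃ h₃ ∧
      x₃ = ((y₁ + y₂) / (x₁ - x₂)) ^ 2 - x₁ - x₂ := by
  obtain ⟨e1, e2, e3, e4, e6⟩ := sh_a (α := α) (β := β)
  rw [sub_eq_add_neg, Affine.Point.neg_some]
  refine ex_some (Affine.Point.add_of_X_ne hx) ?_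
  rw [Affine.addX, Affine.slope_of_X_ne hx, Affine.negY, e1, e2, e3]
  ring

lemma sub_tangent {x y₁ y₂ : ℚ} (h₁ : (WQ (Sh α β)).Nonsingular x y₁)
    (h₂ : (WQ (Sh α β)).Nonsingular x y₂)
    (hne : (.some _ _ h₁ : (WQ (Sh α β)).Point) ≠ .some _ _ h₂) :
    y₁ ≠ 0 ∧ y₂ = -y₁ ∧
    ∃ x₃ y₃ h₃, (.some _ _ h₁ : (WQ (Sh α β)).Point) - .some _ _ h₂ = .some x₃ y₃ h₃ ∧
      x₃ = ((3 * x ^ 2 + α) / (2 * y₁)) ^ 2 - x - x := by
  obtain ⟨e1, e2, e3, e4, e6⟩ := sh_a (α := α) (β := β)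
  have h0 : (.some _ _ h₁ : (WQ (Sh α β)).Point) = -.some _ _ h₂ :=
    ((Affine.Point.X_eq_iff (h₁ := h₁) (h₂ := h₂)).1 rfl).resolve_left hne
  have hy : y₁ = -y₂ := by
    rw [Affine.Point.neg_some, Affine.Point.some.injEq] at h0
    rw [h0.2, Affine.negY, e1, e3]
    ring
  have hy0 : y₁ ≠ 0 := by
    intro h
    apply hne
    have h2 : y₂ = y₁ := by
      rw [h] at hy ⊢
      linarith
    subst h2
    rfl
  refine ⟨hy0, by rw [hy, neg_neg], ?_⟩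
  have hY : y₁ ≠ (WQ (Sh α β)).negY x y₁ := by
    rw [Affine.negY, e1, e3]
    intro h
    apply hy0
    linarith
  have h3 : (.some _ _ h₁ : (WQ (Sh α β)).Point) - .some _ _ h₂ =
      .some _ _ h₁ + .some _ _ h₁ := by
    rw [sub_eq_add_neg, ← h0]
  rw [h3]
  refine ex_some (Affine.Point.add_self_of_Y_ne hY) ?_
  rw [Affine.addX, Affine.slope_of_Y_ne rfl hY, Affine.negY, e1, e2, e3, e4]
  have h4 : y₁ - (-y₁ - 0 * x - 0) = 2 * y₁ := by ring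
  rw [h4]
  ring

end points

/-- among the first multiples of a point there is one which reduces to a nonsingular point -/
theorem exists_nsat {ℓ : ℕ} [hℓ : Fact ℓ.Prime] {α β : ℤ} {k : ℕ}
    (hk : ¬ (ℓ : ℤ) ^ k ∣ 4 * (4 * α ^ 3 + 27 * β ^ 2)) {Q : (WQ (Sh α β)).Point}
    (hQ : ∀ n : ℕ, 1 ≤ n → n • Q ≠ 0) :
    ∃ m : ℕ, 1 ≤ m ∧ m ≤ ℓ ^ (2 * k) + 1 ∧ NSat ℓ (Sh α β) (m • Q) := by
  classical
  by_contra hcon
  push Not at hcon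
  have hpr := Nat.prime_iff_prime_int.1 hℓ.out
  -- a point whose coordinates are not integral at `ℓ`
  have hpole : ∀ (R : (WQ (Sh α β)).Point) (x y : ℚ) (h : (WQ (Sh α β)).Nonsingular x y),
      R = .some _ _ h → 1 < ‖(x : ℚ_[ℓ])‖ → NSat ℓ (Sh α β) R := by
    intro R x y h hR hx
    have hR0 : R ≠ 0 := by
      rw [hR]
      exact Affine.Point.some_ne_zero _
    obtain ⟨a, b, e, hrep, hc, -⟩ := exists_lowest hR0
    refine ⟨a, b, e, hrep, nsl_of_dvd hrep.onCurve hc ?_⟩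
    obtain ⟨he, hP, hR'⟩ := hrep
    rw [hR, Affine.Point.some.injEq] at hR'
    by_contra hne
    rw [hR'.1] at hx
    push_cast at hx
    rw [norm_div, norm_pow] at hx
    have h1 : ‖((e : ℤ) : ℚ_[ℓ])‖ = 1 := by
      rw [← norm_int_unit (p := ℓ) hne]
      have : ((e : ℤ) : ℚ_[ℓ]) = (((e : ℤ) : ℤ_[ℓ]) : ℚ_[ℓ]) := by push_cast; rfl
      rw [this]
      rfl
    rw [h1, one_pow, div_one] at hx
    exact absurd (Padic.norm_int_le_one (p := ℓ) a) (not_le.2 hx)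
  -- the coordinates
  have hco : ∀ i : ℕ, ∃ (x y : ℚ) (X Y : ℤ_[ℓ]), (i ∈ Finset.Icc 1 (ℓ ^ (2 * k) + 1)) →
      (∃ h : (WQ (Sh α β)).Nonsingular x y, i • Q = .some _ _ h) ∧ (x : ℚ_[ℓ]) = X ∧
        (y : ℚ_[ℓ]) = Y := by
    intro i
    by_cases hi : i ∈ Finset.Icc 1 (ℓ ^ (2 * k) + 1)
    swap
    · exact ⟨0, 0, 0, 0, fun h => absurd h hi⟩
    have hi' := Finset.mem_Icc.1 hi
    obtain ⟨a, b, e, hrep, hc, -⟩ := exists_lowest (hQ i hi'.1)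
    have he : ¬ (ℓ : ℤ) ∣ e := fun he =>
      hcon i hi'.1 hi'.2 ⟨a, b, e, hrep, nsl_of_dvd hrep.onCurve hc he⟩
    obtain ⟨r, hr⟩ := (not_dvd_unit (p := ℓ) he).exists_right_inv
    have he0 : ((e : ℤ) : ℚ_[ℓ]) ≠ 0 := by exact_mod_cast hrep.1
    have hrQ : (e : ℚ_[ℓ]) * (r : ℚ_[ℓ]) = 1 := by
      have := congrArg (fun z : ℤ_[ℓ] => (z : ℚ_[ℓ])) hr
      push_cast at this
      exact this
    obtain ⟨-, hP, hiQ⟩ := hrep
    refine ⟨_, _, a * r ^ 2, b * r ^ 3, fun _ => ⟨⟨hP, hiQ⟩, ?_, ?_⟩⟩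
    · push_cast
      rw [div_eq_iff (pow_ne_zero _ he0)]
      linear_combination (-(a : ℚ_[ℓ]) * (e * r + 1)) * hrQ
    · push_cast
      rw [div_eq_iff (pow_ne_zero _ he0)]
      linear_combination (-(b : ℚ_[ℓ]) * ((e * r) ^ 2 + e * r + 1)) * hrQ
  choose x y X Y hxy using hco
  -- pigeonhole
  have hq0 : NeZero (ℓ ^ k) := ⟨pow_ne_zero _ hℓ.out.ne_zero⟩
  obtain ⟨i, hi, j, hj, hij, hf⟩ := Finset.exists_ne_map_eq_of_card_lt_of_maps_to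
    (s := Finset.Icc 1 (ℓ ^ (2 * k) + 1)) (t := (Finset.univ : Finset (ZMod (ℓ ^ k) × ZMod (ℓ ^ k))))
    (f := fun i => (PadicInt.toZModPow k (X i), PadicInt.toZModPow k (Y i)))
    (by
      rw [Finset.card_univ, Fintype.card_prod, ZMod.card, Nat.card_Icc, ← pow_add, ← two_mul]
      omega) (fun _ _ => Finset.mem_univ _)
  wlog hlt : i < j generalizing i j
  · exact this j hj i hi hij.symm hf.symm (lt_of_le_of_ne (not_lt.1 hlt) hij.symm)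
  have hi' := Finset.mem_Icc.1 hi
  have hj' := Finset.mem_Icc.1 hj
  obtain ⟨⟨h₁, hP₁⟩, hx₁, hy₁⟩ := hxy j hj
  obtain ⟨⟨h₂, hP₂⟩, hx₂, hy₂⟩ := hxy i hi
  have hdvd : ∀ u v : ℤ_[ℓ], PadicInt.toZModPow k u = PadicInt.toZModPow k v →
      (ℓ : ℤ_[ℓ]) ^ k ∣ v - u := by
    intro u v h
    rw [← Ideal.mem_span_singleton, ← PadicInt.ker_toZModPow, RingHom.mem_ker, map_sub, h, sub_self]
  have hdx := hdvd _ _ (congrArg Prod.fst hf)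
  have hdy := hdvd _ _ (congrArg Prod.snd hf)
  have hR : (j - i) • Q = (.some _ _ h₁ : (WQ (Sh α β)).Point) - .some _ _ h₂ := by
    rw [← hP₁, ← hP₂, eq_sub_iff_add_eq, ← add_nsmul]
    congr 1
    omega
  have hRn : ¬ NSat ℓ (Sh α β) ((j - i) • Q) := hcon (j - i) (by omega) (by omega)
  have hR0 : (j - i) • Q ≠ 0 := hQ _ (by omega)
  have hinj : ∀ u v : ℚ, (u : ℚ_[ℓ]) = v → u = v := fun u v h => by exact_mod_cast h
  have hbad : ¬ (ℓ : ℤ_[ℓ]) ^ k ∣ 4 * (4 * (α : ℤ_[ℓ]) ^ 3 + 27 * (β : ℤ_[ℓ]) ^ 2) := by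
    intro h
    apply hk
    rw [← PadicInt.pow_p_dvd_int_iff (p := ℓ) k]
    push_cast
    exact h
  obtain ⟨e1, e2, e3, e4, e6⟩ := sh_a (α := α) (β := β)
  have heqn : ∀ (u v : ℚ) (U V : ℤ_[ℓ]), (WQ (Sh α β)).Nonsingular u v → (u : ℚ_[ℓ]) = U →
      (v : ℚ_[ℓ]) = V → V ^ 2 = U ^ 3 + α * U + β := by
    intro u v U V h hu hv
    have h1 := h.1
    rw [Affine.equation_iff, e1, e2, e3, e4, e6] at h1
    have h2 := congrArg (fun z : ℚ => (z : ℚ_[ℓ])) h1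
    push_cast at h2
    rw [hu, hv] at h2
    have h3 : (V : ℚ_[ℓ]) ^ 2 = (U : ℚ_[ℓ]) ^ 3 + α * U + β := by linear_combination h2
    apply Subtype.ext
    push_cast
    exact h3
  have hE₁ := heqn _ _ _ _ h₁ hx₁ hy₁
  have hE₂ := heqn _ _ _ _ h₂ hx₂ hy₂
  have hnorm : ∀ (s : ℚ) (u v : ℤ_[ℓ]), 1 < ‖(s : ℚ_[ℓ])‖ →
      1 < ‖(s : ℚ_[ℓ]) ^ 2 - u - v‖ := by
    intro s u v hs
    have h1 : 1 < ‖(s : ℚ_[ℓ]) ^ 2‖ := by
      rw [norm_pow]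
      exact one_lt_pow₀ hs two_ne_zero
    have h2 : ‖(s : ℚ_[ℓ]) ^ 2 - (u + v : ℤ_[ℓ])‖ = ‖(s : ℚ_[ℓ]) ^ 2‖ := by
      have h3 : ‖((u + v : ℤ_[ℓ]) : ℚ_[ℓ])‖ < ‖(s : ℚ_[ℓ]) ^ 2‖ :=
        lt_of_le_of_lt (PadicInt.norm_le_one (u + v)) h1
      have h4 := IsUltrametricDist.norm_add_eq_max_of_norm_ne_norm (x := (s : ℚ_[ℓ]) ^ 2)
        (y := -((u + v : ℤ_[ℓ]) : ℚ_[ℓ])) (by rw [norm_neg]; exact h3.ne')
      rw [← sub_eq_add_neg, norm_neg, max_eq_left h3.le] at h4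
      exact h4
    have h5 : (s : ℚ_[ℓ]) ^ 2 - u - v = (s : ℚ_[ℓ]) ^ 2 - (u + v : ℤ_[ℓ]) := by
      push_cast
      ring
    rw [h5, h2]
    exact h1
  by_cases hxx : x j = x i
  · -- the tangent
    have hne : (.some _ _ h₁ : (WQ (Sh α β)).Point) ≠ .some _ _ h₂ := by
      intro h
      rw [h, sub_self] at hR
      exact hR0 hR
    revert h₁ h₂
    rw [← hxx] at hx₂ ⊢
    intro h₁ hP₁ h₂ hP₂ hR hne
    obtain ⟨hy0, hyy, x₃, y₃, h₃, hR₃, hx₃⟩ := sub_tangent h₁ h₂ hne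
    apply hRn
    refine hpole _ _ _ h₃ (hR.trans hR₃) ?_
    rw [hx₃]
    push_cast
    have hY : Y i = -Y j := by
      have h4 := congrArg (fun z : ℚ => (z : ℚ_[ℓ])) hyy
      push_cast at h4
      rw [hy₁, hy₂] at h4
      apply Subtype.ext
      push_cast
      exact h4
    have hy2 : (ℓ : ℤ_[ℓ]) ^ k ∣ 2 * Y j := by
      rw [hY] at hdy
      have : 2 * Y j = Y j - -Y j := by ring
      rw [this]
      exact hdy
    have hs : 1 < ‖(((3 * x j ^ 2 + α) / (2 * y j) : ℚ) : ℚ_[ℓ])‖ := by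
      by_contra hle
      rw [not_lt] at hle
      apply hbad
      obtain ⟨s, hs⟩ : ∃ s : ℤ_[ℓ], (s : ℚ_[ℓ]) = (((3 * x j ^ 2 + α) / (2 * y j) : ℚ) : ℚ_[ℓ]) :=
        ⟨⟨_, hle⟩, rfl⟩
      refine tangent_dvd (s := s) hy2 hE₁ ?_
      apply Subtype.ext
      push_cast at hs ⊢
      have hy0' : (y j : ℚ_[ℓ]) ≠ 0 := by exact_mod_cast hy0
      rw [hs, ← hx₁, ← hy₁]
      have e2' : ((2 : ℤ_[ℓ]) : ℚ_[ℓ]) = 2 := rfl
      have e3' : ((3 : ℤ_[ℓ]) : ℚ_[ℓ]) = 3 := rfl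
      try rw [e2']
      try rw [e3']
      field_simp
    have := hnorm _ (X j) (X j) hs
    push_cast at this
    rw [← hx₁] at this
    exact this
  · -- the chord
    obtain ⟨x₃, y₃, h₃, hR₃, hx₃⟩ := sub_chord h₁ h₂ hxx
    apply hRn
    refine hpole _ _ _ h₃ (hR.trans hR₃) ?_
    rw [hx₃]
    push_cast
    have hXX : X j ≠ X i := by
      intro h
      apply hxx
      apply hinj
      rw [hx₁, hx₂, h]
    have hs : 1 < ‖(((y j + y i) / (x j - x i) : ℚ) : ℚ_[ℓ])‖ := by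
      by_contra hle
      rw [not_lt] at hle
      apply hbad
      obtain ⟨s, hs⟩ : ∃ s : ℤ_[ℓ], (s : ℚ_[ℓ]) = (((y j + y i) / (x j - x i) : ℚ) : ℚ_[ℓ]) :=
        ⟨⟨_, hle⟩, rfl⟩
      refine chord_dvd (s := s) hdx hdy hXX hE₁ hE₂ ?_
      apply Subtype.ext
      push_cast at hs ⊢
      rw [hs, ← hx₁, ← hy₁, ← hx₂, ← hy₂]
      have hy0' : (x j : ℚ_[ℓ]) - (x i : ℚ_[ℓ]) ≠ 0 := by
        rw [sub_ne_zero]
        intro h
        exact hxx (hinj _ _ h)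
      field_simp
    have := hnorm _ (X j) (X i) hs
    push_cast at this
    rw [← hx₁, ← hx₂] at this
    exact this

end Pool.Agent.W2helper22.Tw
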