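import Pool.Agent.W2helper22.Tw.Loc3

/-!
# A bounded multiple of every point lies in the domain of the sigma function
-/

set_option autoImplicit false

namespace Pool.Agent.W2helper22.Tw

open Pool.Agent.Y732 WeierstrassCurve

/-- the bound for the powers of the bad primes -/
lemma not_pow_dvd {ℓ : ℕ} (hℓ : ℓ.Prime) {δ D : ℤ} (hδ : δ ≠ 0) (hsq : Squarefree D) :
    ¬ (ℓ : ℤ) ^ (δ.natAbs + 6) ∣ D ^ 6 * δ := by
  intro h
  have hpr := Nat.prime_iff_prime_int.1 hℓ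
  have hℓ0 : (ℓ : ℤ) ≠ 0 := hpr.ne_zero
  have key : ¬ (ℓ : ℤ) ^ δ.natAbs ∣ δ := by
    intro h1
    have h2 := Int.natAbs_dvd_natAbs.2 h1
    rw [Int.natAbs_pow, Int.natAbs_natCast] at h2
    have h3 := Nat.le_of_dvd (Int.natAbs_pos.2 hδ) h2
    have h4 : δ.natAbs < ℓ ^ δ.natAbs := Nat.lt_pow_self hℓ.one_lt
    omega
  have hcop : ∀ D' : ℤ, ¬ (ℓ : ℤ) ∣ D' → IsCoprime ((ℓ : ℤ) ^ δ.natAbs) (D' ^ 6) := fun D' h' =>
    ((Prime.coprime_iff_not_dvd hpr).2 h').pow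
  by_cases hD : (ℓ : ℤ) ∣ D
  · obtain ⟨D', rfl⟩ := hD
    have hD' : ¬ (ℓ : ℤ) ∣ D' := by
      rintro ⟨D'', rfl⟩
      exact hpr.not_isUnit (hsq ℓ ⟨D'', by ring⟩)
    have h1 : (ℓ : ℤ) ^ 6 * (ℓ : ℤ) ^ δ.natAbs ∣ (ℓ : ℤ) ^ 6 * (D' ^ 6 * δ) := by
      have e1 : (ℓ : ℤ) ^ 6 * (ℓ : ℤ) ^ δ.natAbs = (ℓ : ℤ) ^ (δ.natAbs + 6) := by ring
      have e2 : (ℓ : ℤ) ^ 6 * (D' ^ 6 * δ) = (ℓ * D') ^ 6 * δ := by ring
      rw [e1, e2]
      exact h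
    exact key ((hcop D' hD').dvd_of_dvd_mul_left
      ((mul_dvd_mul_iff_left (pow_ne_zero 6 hℓ0)).1 h1))
  · exact key ((hcop D hD).dvd_of_dvd_mul_left
      ((pow_dvd_pow (ℓ : ℤ) (Nat.le_add_right _ 6)).trans h))

/-- A fixed multiple of every rational point of infinite order of every twist reduces to a
nonsingular point modulo all primes. -/
theorem exists_everywhere {A B : ℤ} (hE : 4 * A ^ 3 + 27 * B ^ 2 ≠ 0) :
    ∃ M : ℕ, 0 < M ∧ ∀ D : ℤ, Squarefree D → ∀ Q : (WQ (tw A B D)).Point,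
      (∀ n : ℕ, 1 ≤ n → n • Q ≠ 0) → ∀ ℓ : ℕ, ℓ.Prime → NSat ℓ (tw A B D) (M • Q) := by
  obtain ⟨δ, hδ⟩ : ∃ δ : ℤ, δ = 4 * (4 * A ^ 3 + 27 * B ^ 2) := ⟨_, rfl⟩
  have hδ0 : δ ≠ 0 := by
    rw [hδ]
    exact mul_ne_zero (by norm_num) hE
  obtain ⟨k, hk⟩ : ∃ k : ℕ, k = δ.natAbs + 6 := ⟨_, rfl⟩
  obtain ⟨M, hM⟩ : ∃ M : ℕ, M = (δ.natAbs ^ (2 * k) + 1).factorial := ⟨_, rfl⟩
  have hM0 : 0 < M := by rw [hM]; exact Nat.factorial_pos _
  refine ⟨2 * M, by omega, ?_⟩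
  intro D hsq Q hQ ℓ hℓ
  have : Fact ℓ.Prime := ⟨hℓ⟩
  have hpr := Nat.prime_iff_prime_int.1 hℓ
  have hQM : (2 * M) • Q ≠ 0 := hQ _ (by omega)
  by_cases h1 : (ℓ : ℤ) ∣ δ
  · have h2 : ¬ (ℓ : ℤ) ^ k ∣ 4 * (4 * (A * D ^ 2) ^ 3 + 27 * (B * D ^ 3) ^ 2) := by
      have e1 : 4 * (4 * (A * D ^ 2) ^ 3 + 27 * (B * D ^ 3) ^ 2) = D ^ 6 * δ := by
        rw [hδ]
        ring
      rw [e1, hk]
      exact not_pow_dvd hℓ hδ0 hsq
    obtain ⟨m, hm1, hm2, hm⟩ := exists_nsat h2 hQ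
    have h3 : ℓ ≤ δ.natAbs := by
      have h4 := Int.natAbs_dvd_natAbs.2 h1
      rw [Int.natAbs_natCast] at h4
      exact Nat.le_of_dvd (Int.natAbs_pos.2 hδ0) h4
    have h4 : m ∣ M := by
      rw [hM]
      apply Nat.dvd_factorial hm1
      exact hm2.trans (Nat.add_le_add_right (Nat.pow_le_pow_left h3 _) 1)
    obtain ⟨c, hc⟩ := h4
    have h5 : (2 * M) • Q = (2 * c) • (m • Q) := by
      rw [← mul_nsmul, hc]
      congr 1
      ring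
    rw [h5] at hQM ⊢
    exact NSat.smul hm _ hQM
  · have h2 : ¬ (ℓ : ℤ) ∣ 2 * (4 * A ^ 3 + 27 * B ^ 2) := by
      intro h
      apply h1
      rw [hδ]
      have e1 : 4 * (4 * A ^ 3 + 27 * B ^ 2) = 2 * (2 * (4 * A ^ 3 + 27 * B ^ 2)) := by ring
      rw [e1]
      exact h.mul_left _
    by_cases hD : (ℓ : ℤ) ∣ D
    · have h5 : (2 * M) • Q = M • (2 • Q) := by
        rw [← mul_nsmul]
      rw [h5] at hQM ⊢
      exact NSat.smul (nsat_twist h2 hD hsq (hQ 2 (by norm_num))) _ hQM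
    · have hΔ : ¬ (ℓ : ℤ) ∣ (tw A B D).Δ := by
        rw [tw_Δ]
        intro h
        have h3 : (ℓ : ℤ) ∣ 2 ^ 4 * (D ^ 6 * (4 * A ^ 3 + 27 * B ^ 2)) := by
          have e1 : (2 : ℤ) ^ 4 * (D ^ 6 * (4 * A ^ 3 + 27 * B ^ 2)) =
            -(-16 * (D ^ 6 * (4 * A ^ 3 + 27 * B ^ 2))) := by ring
          rw [e1]
          exact h.neg_right
        rcases hpr.dvd_or_dvd h3 with h4 | h4
        · exact h2 ((hpr.dvd_of_dvd_pow h4).mul_right _)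
        · rcases hpr.dvd_or_dvd h4 with h5 | h5
          · exact hD (hpr.dvd_of_dvd_pow h5)
          · exact h2 (h5.mul_left _)
      have hQ0 : Q ≠ 0 := by
        have := hQ 1 le_rfl
        rwa [one_nsmul] at this
      obtain ⟨a, b, e, hrep, hc, -⟩ := exists_lowest (α := A * D ^ 2) (β := B * D ^ 3) (Q := Q) hQ0
      exact NSat.smul ⟨a, b, e, hrep, nsl_good hrep.onCurve hc hΔ⟩ _ hQM

/-- a fixed multiple of every rational point of infinite order of every twist with good ordinary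
reduction lies in the domain of the sigma function -/
theorem exists_mult {p : ℕ} [hp : Fact p.Prime] (hp5 : 5 ≤ p) {A B : ℤ}
    (hE : 4 * A ^ 3 + 27 * B ^ 2 ≠ 0) :
    ∃ M : ℕ, 0 < M ∧ ∀ D : ℤ, Squarefree D → IsOrdinaryW p (tw A B D) →
      ∀ Q : (WQ (tw A B D)).Point, (∀ n : ℕ, 1 ≤ n → n • Q ≠ 0) →
        ∃ a b e : ℤ, PD p A B D a b e ∧ Rep (tw A B D) (M • Q) a b e := by
  obtain ⟨M, hM0, hM⟩ := exists_everywhere hE
  refine ⟨M * (2 * p + 1).factorial, Nat.mul_pos hM0 (Nat.factorial_pos _), ?_⟩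
  intro D hsq ho Q hQ
  have hns := hM D hsq Q hQ
  obtain ⟨a, b, e, hrep, hc, -⟩ := exists_lowest (α := A * D ^ 2) (β := B * D ^ 3) (Q := M • Q)
    (hQ M hM0)
  have hN := everywhere_of hns hrep hc
  obtain ⟨m, hm1, hm2, hm⟩ := exists_multT hp5 hrep.onCurve hc hN ho.1
  obtain ⟨c, hc'⟩ := Nat.dvd_factorial hm1 hm2
  have hc0 : 1 ≤ c := by
    rcases Nat.eq_zero_or_pos c with h | h
    · rw [h, mul_zero] at hc'
      exact absurd hc' (Nat.factorial_pos _).ne'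
    · exact h
  have h0 : m • (M • Q) ≠ 0 := by
    rw [← mul_nsmul]
    exact hQ _ (Nat.mul_pos hM0 hm1)
  have hrep' := Rep.smul (W := tw A B D) hrep m h0
  have hcop' := Ti_coprime (W := tw A B D) hrep.onCurve hc hN m
  have hN' := Ti_nonsing (W := tw A B D) hrep.onCurve hc hN m
  obtain ⟨a', ha'⟩ : ∃ a', a' = T (tw A B D) a b e m 0 := ⟨_, rfl⟩
  obtain ⟨b', hb'⟩ : ∃ b', b' = T (tw A B D) a b e m 1 := ⟨_, rfl⟩
  obtain ⟨e', he'⟩ : ∃ e', e' = T (tw A B D) a b e m 2 := ⟨_, rfl⟩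
  rw [← ha', ← hb', ← he'] at hrep' hN'
  rw [← ha', ← he'] at hcop'
  change (p : ℤ) ∣ T (tw A B D) a b e m 2 at hm
  rw [← he'] at hm
  have e1 : (M * (2 * p + 1).factorial) • Q = c • (m • (M • Q)) := by
    rw [hc', ← mul_nsmul, ← mul_nsmul]
  have h1 : c • (m • (M • Q)) ≠ 0 := by
    rw [← e1]
    exact hQ _ (Nat.mul_pos hM0 (Nat.factorial_pos _))
  have hrep'' := hrep'.smul c h1
  rw [e1]
  refine ⟨_, _, _, ⟨hrep''.1, Ti_coprime hrep'.onCurve hcop' hN' c, ?_,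
    Ti_nonsing hrep'.onCurve hcop' hN' c, ?_⟩, hrep''⟩
  · rw [T_two']
    exact hm.mul_right _
  · exact onCurve_sh hrep''.onCurve

end Pool.Agent.W2helper22.Tw
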