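import Pool.Agent.W2helper22.Tw.Evn
import Pool.Agent.W2helper22.Tw.Bp2

/-!
# The parameter of a point of a twist
-/

set_option autoImplicit false

namespace Pool.Agent.W2helper22.Tw

open PowerSeries Pool.Agent.Y732

variable {p : ℕ} [hp : Fact p.Prime]

lemma ev_ex (t : ℤ_[p]) (f : ℤ_[p]⟦X⟧) : ev t (ex f) = ev (t ^ 2) f := by
  unfold ev
  have h1 : Function.support (fun n : ℕ => coeff n (ex f) * t ^ n) ⊆
      Set.range (fun n : ℕ => 2 * n) := by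
    intro n hn
    rcases Nat.even_or_odd' n with ⟨k, rfl | rfl⟩
    · exact ⟨k, rfl⟩
    · exfalso
      apply hn
      simp only
      rw [coeff_expand_of_not_dvd (h := by omega), zero_mul]
  have hinj : Function.Injective (fun n : ℕ => 2 * n) := fun a b h => by
    simp only at h
    omega
  rw [← hinj.tsum_eq h1]
  refine tsum_congr fun n => ?_
  rw [coeff_expand_mul, pow_mul]

/-- the size of the Iwasawa logarithm of a unit -/
theorem norm_plog (hp3 : 3 ≤ p) {z : ℚ_[p]} (h : ‖z‖ = 1) : ‖plog p z‖ = ‖z ^ (p - 1) - 1‖ := by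
  have h1 : ‖((p : ℚ_[p]) - 1)⁻¹‖ = 1 := by
    rw [norm_inv]
    have h2 : ‖(p : ℚ_[p])‖ < 1 := by
      rw [Padic.norm_p]
      exact inv_lt_one_of_one_lt₀ (by exact_mod_cast hp.out.one_lt)
    have h3 := IsUltrametricDist.norm_add_eq_max_of_norm_ne_norm (x := (p : ℚ_[p])) (y := -1)
      (by rw [norm_neg, norm_one]; exact h2.ne)
    rw [← sub_eq_add_neg, norm_neg, norm_one, max_eq_right h2.le] at h3
    rw [h3, inv_one]
  rw [plog_eq, norm_mul, h1, one_mul, norm_lg hp3 (norm_pow_sub_one_le h)]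

lemma isUnit_one_sub {x : ℤ_[p]} (hx : (p : ℤ_[p]) ∣ x) : IsUnit (1 - x) := by
  rw [PadicInt.isUnit_iff]
  by_contra h3
  have h4 : (p : ℤ_[p]) ∣ 1 - x := by
    rw [← PadicInt.norm_lt_one_iff_dvd]
    exact lt_of_le_of_ne (PadicInt.norm_le_one _) h3
  have h5 := dvd_add h4 hx
  rw [sub_add_cancel] at h5
  exact PadicInt.prime_p.not_isUnit (isUnit_of_dvd_one h5)

/-- the equation of a point of a twist -/
lemma tw_eq {A B D a b e : ℤ} (he : e ≠ 0)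
    (hP : (WQ (tw A B D)).Nonsingular ((a : ℚ) / (e : ℚ) ^ 2) ((b : ℚ) / (e : ℚ) ^ 3)) :
    b ^ 2 = a ^ 3 + A * D ^ 2 * a * e ^ 4 + B * D ^ 3 * e ^ 6 := by
  have h1 := hP.1
  rw [WeierstrassCurve.Affine.equation_iff] at h1
  have e1 : (WQ (tw A B D)).a₁ = 0 := by simp [WQ, tw]
  have e2 : (WQ (tw A B D)).a₂ = 0 := by simp [WQ, tw]
  have e3 : (WQ (tw A B D)).a₃ = 0 := by simp [WQ, tw]
  have e4 : (WQ (tw A B D)).a₄ = A * D ^ 2 := by simp [WQ, tw]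
  have e6 : (WQ (tw A B D)).a₆ = B * D ^ 3 := by simp [WQ, tw]
  rw [e1, e2, e3, e4, e6] at h1
  have he' : (e : ℚ) ≠ 0 := by exact_mod_cast he
  have h2 : (b : ℚ) ^ 2 = a ^ 3 + A * D ^ 2 * a * e ^ 4 + B * D ^ 3 * e ^ 6 := by
    field_simp at h1
    linear_combination h1
  exact_mod_cast h2

/-- a point which reduces to the origin modulo `p` -/
structure PD (p : ℕ) (A B D a b e : ℤ) : Prop where
  he : e ≠ 0
  hc : IsCoprime a e
  hpe : (p : ℤ) ∣ e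
  hN : EverywhereNonsingular (tw A B D) a b e
  heq : b ^ 2 = a ^ 3 + A * D ^ 2 * a * e ^ 4 + B * D ^ 3 * e ^ 6

lemma PD.pa {A B D a b e : ℤ} (h : PD p A B D a b e) : ¬ (p : ℤ) ∣ a := fun ha =>
  (Nat.prime_iff_prime_int.1 hp.out).not_isUnit (h.hc.isUnit_of_dvd' ha h.hpe)

lemma PD.pb {A B D a b e : ℤ} (h : PD p A B D a b e) : ¬ (p : ℤ) ∣ b := by
  intro hb
  apply h.pa
  have h3 : (p : ℤ) ∣ a ^ 3 := by
    have h4 : a ^ 3 = b * b - e * (A * D ^ 2 * a * e ^ 3 + B * D ^ 3 * e ^ 5) := by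
      linear_combination -h.heq
    rw [h4]
    exact dvd_sub (hb.mul_right _) (h.hpe.mul_right _)
  exact (Nat.prime_iff_prime_int.1 hp.out).dvd_of_dvd_pow h3

lemma int_pad {z : ℤ} (h : (p : ℤ) ∣ z) : (p : ℤ_[p]) ∣ (z : ℤ_[p]) := by
  have := (PadicInt.pow_p_dvd_int_iff (p := p) 1 z).2 (by rwa [pow_one])
  rwa [pow_one] at this

lemma norm_int_unit {a : ℤ} (h : ¬ (p : ℤ) ∣ a) : ‖(a : ℤ_[p])‖ = 1 :=
  PadicInt.isUnit_iff.1 (not_dvd_unit h)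

/-- the parameter of a point -/
theorem exists_param {A B : ℤ} (d : TD (A : ℤ_[p]) (B : ℤ_[p])) (hp5 : 5 ≤ p) {D a b e : ℤ}
    (h : PD p A B D a b e) :
    ∃ x : ℤ_[p], (p : ℤ_[p]) ∣ x ∧ (a : ℤ_[p]) * ev x d.w = ((D * e ^ 2 : ℤ) : ℤ_[p]) ∧
      ∀ (ht : (WQ (tw A B D)).Point → ℚ_[p])
        (_ : HasFormula p (tw A B D) ht (ex (rescale (D : ℤ_[p]) d.s)))
        (hP : (WQ (tw A B D)).Nonsingular ((a : ℚ) / (e : ℚ) ^ 2) ((b : ℚ) / (e : ℚ) ^ 3)),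
        ‖ev x (d.G ((p - 1) / 2)) - (a : ℤ_[p]) ^ ((p - 1) / 2)‖ = ‖ht (.some _ _ hP)‖ := by
  obtain ⟨r, hr⟩ := (not_dvd_unit (p := p) h.pb).exists_right_inv
  obtain ⟨α, hα⟩ := (not_dvd_unit (p := p) h.pa).exists_right_inv
  have hpe : (p : ℤ_[p]) ∣ (e : ℤ_[p]) := int_pad h.hpe
  obtain ⟨x, hx⟩ : ∃ x : ℤ_[p], x = D * (a * e * r) ^ 2 := ⟨_, rfl⟩
  have hpx : (p : ℤ_[p]) ∣ x := by
    rw [hx]
    refine Dvd.dvd.mul_left ?_ _
    refine Dvd.dvd.pow ?_ two_ne_zero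
    exact (hpe.mul_left _).mul_right _
  have heqZ : (b : ℤ_[p]) ^ 2 = a ^ 3 + A * D ^ 2 * a * e ^ 4 + B * D ^ 3 * e ^ 6 := by
    have := congrArg (fun z : ℤ => (z : ℤ_[p])) h.heq
    push_cast at this
    exact this
  -- the value of `u`
  obtain ⟨U, hU⟩ : ∃ U, U = ev x d.u := ⟨_, rfl⟩
  have hU1 : U = 1 + A * x ^ 2 * U ^ 2 + B * x ^ 3 * U ^ 3 := by
    have h1 := congrArg (evHom x hpx) d.e0
    simp only [map_add, map_mul, map_pow, map_one, evHom_apply, ev_C', ev_X'] at h1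
    rw [hU]
    exact h1
  obtain ⟨U₁, hU₁⟩ : ∃ U₁ : ℤ_[p], U₁ = b ^ 2 * α ^ 3 := ⟨_, rfl⟩
  have hxU : x * U₁ = D * e ^ 2 * α := by
    rw [hx, hU₁]
    have e1 : (D : ℤ_[p]) * (a * e * r) ^ 2 * (b ^ 2 * α ^ 3) =
        D * e ^ 2 * α * ((b * r) ^ 2 * (a * α) ^ 2) := by ring
    rw [e1, hr, hα]
    ring
  have hU2 : U₁ = 1 + A * x ^ 2 * U₁ ^ 2 + B * x ^ 3 * U₁ ^ 3 := by
    have e1 : 1 + (A : ℤ_[p]) * x ^ 2 * U₁ ^ 2 + B * x ^ 3 * U₁ ^ 3 =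
        1 + A * (x * U₁) ^ 2 + B * (x * U₁) ^ 3 := by ring
    rw [e1, hxU, hU₁, heqZ]
    linear_combination ((a * α) ^ 2 + (a * α) + 1 + A * D ^ 2 * e ^ 4 * α ^ 2) * hα
  have hUU : U = U₁ := by
    have h1 : (1 - x * (A * x * (U + U₁) + B * x ^ 2 * (U ^ 2 + U * U₁ + U₁ ^ 2))) * (U - U₁) = 0 := by
      linear_combination hU1 - hU2
    have h2 : IsUnit (1 - x * (A * x * (U + U₁) + B * x ^ 2 * (U ^ 2 + U * U₁ + U₁ ^ 2))) :=
      isUnit_one_sub (hpx.mul_right _)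
    exact sub_eq_zero.1 (h2.mul_left_cancel (h1.trans (mul_zero _).symm))
  obtain ⟨V, hV⟩ : ∃ V, V = ev x d.v := ⟨_, rfl⟩
  have hUV : U * V = 1 := by
    have h1 := congrArg (evHom x hpx) d.uv
    simp only [map_mul, map_one, evHom_apply] at h1
    rw [hU, hV]
    exact h1
  have hVa : V = a ^ 3 * r ^ 2 := by
    have h1 : (b : ℤ_[p]) ^ 2 * α ^ 3 * V = 1 := by rw [← hU₁, ← hUU, hUV]
    have e1 : V = (b * r) ^ 2 * (a * α) ^ 3 * V := by rw [hr, hα]; ring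
    rw [e1]
    linear_combination (a ^ 3 * r ^ 2) * h1
  refine ⟨x, hpx, ?_, ?_⟩
  · have h1 : ev x d.w = x * U := by
      have := map_mul (evHom x hpx) X d.u
      simp only [evHom_apply, ev_X'] at this
      rw [hU]
      exact this
    rw [h1, hUU, hxU]
    push_cast
    linear_combination (D * e ^ 2) * hα
  · intro ht hf hP
    obtain ⟨S, hS⟩ : ∃ S, S = ev x d.s := ⟨_, rfl⟩
    have hG : ev x (d.G ((p - 1) / 2)) = (S ^ 2 * V) ^ ((p - 1) / 2) := by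
      have := map_pow (evHom x hpx) (d.s ^ 2 * d.v) ((p - 1) / 2)
      rw [map_mul (evHom x hpx) (d.s ^ 2) d.v, map_pow (evHom x hpx) d.s 2] at this
      simp only [evHom_apply] at this
      rw [hS, hV]
      exact this
    obtain ⟨t, htt⟩ : ∃ t : ℤ_[p], t = -(a * e * r) := ⟨_, rfl⟩
    have hpt : (p : ℤ_[p]) ∣ t := by
      rw [htt]
      exact ((hpe.mul_left _).mul_right _).neg_right
    have hevt : ev t (ex (rescale (D : ℤ_[p]) d.s)) = S := by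
      rw [ev_ex, ev_rescale, hS, htt, neg_sq, ← hx]
    have h1 := hf a b e hP t h.he h.hc h.hpe h.hN (by
      have e1 : ((tw A B D).a₁ : ℤ_[p]) = 0 := by simp [tw]
      have e3 : ((tw A B D).a₃ : ℤ_[p]) = 0 := by simp [tw]
      have e2 : ((tw A B D).b₂ : ℤ_[p]) = 0 := by simp [tw, WeierstrassCurve.b₂]
      rw [e1, e2, e3, htt]
      linear_combination (-12 * (a : ℤ_[p]) * e) * hr)
    obtain ⟨Λ, hΛ⟩ : ∃ Λ : ℤ_[p], Λ = -(a * r) * S := ⟨_, rfl⟩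
    have heQ : ((e : ℤ) : ℚ_[p]) ≠ 0 := by exact_mod_cast h.he
    have hΛQ : ((ev t (PowerSeries.X * ex (rescale (D : ℤ_[p]) d.s)) : ℤ_[p]) : ℚ_[p]) / (e : ℚ_[p]) =
        (Λ : ℚ_[p]) := by
      rw [div_eq_iff heQ, ev_X_mul hpt, hevt, hΛ, htt]
      push_cast
      ring
    rw [hΛQ] at h1
    have hSU : IsUnit S := by
      rw [hS]
      exact ev_unit hpx d.s0
    have hΛU : ‖Λ‖ = 1 := by
      rw [← PadicInt.isUnit_iff, hΛ]
      exact ((not_dvd_unit h.pa).mul (IsUnit.of_mul_eq_one _ (by rw [mul_comm]; exact hr))).neg.mul hSU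
    rw [h1, norm_plog (by omega) hΛU, hG]
    have h2 : S ^ 2 * V = a * Λ ^ 2 := by
      rw [hVa, hΛ]
      ring
    have hodd : Odd p := by
      rcases hp.out.eq_two_or_odd' with h | h
      · omega
      · exact h
    have h3 : 2 * ((p - 1) / 2) = p - 1 := by
      obtain ⟨k, hk⟩ := hodd
      omega
    have h4 : (S ^ 2 * V) ^ ((p - 1) / 2) - (a : ℤ_[p]) ^ ((p - 1) / 2) =
        (a : ℤ_[p]) ^ ((p - 1) / 2) * (Λ ^ (p - 1) - 1) := by
      rw [h2, mul_pow, ← pow_mul, h3]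
      ring
    rw [h4, norm_mul, norm_pow, norm_int_unit h.pa, one_pow, one_mul]
    have h5 : ((Λ : ℚ_[p])) ^ (p - 1) - 1 = ((Λ ^ (p - 1) - 1 : ℤ_[p]) : ℚ_[p]) := by
      push_cast
      rfl
    rw [h5]
    rfl

end Pool.Agent.W2helper22.Tw
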