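import Pool.Agent.W2helper22.Tw.Mul

/-!
# The size of the coordinates of the multiples
-/

set_option autoImplicit false

namespace Pool.Agent.W2helper22.Tw

open Pool.Agent.Y732 WeierstrassCurve

/-- a polynomial is bounded polynomially -/
lemma mv_bound (P : MvPolynomial (Fin 4) ℤ) : ∃ C d : ℕ, ∀ N : ℕ, 1 ≤ N → ∀ v : Fin 4 → ℤ,
    (∀ j, |v j| ≤ N) → |MvPolynomial.eval v P| ≤ C * (N : ℤ) ^ d := by
  induction P using MvPolynomial.induction_on with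
  | C a =>
    refine ⟨a.natAbs, 0, fun N _ v _ => ?_⟩
    rw [MvPolynomial.eval_C, pow_zero, mul_one, Int.natCast_natAbs]
  | add P Q hP hQ =>
    obtain ⟨C, d, h⟩ := hP
    obtain ⟨C', d', h'⟩ := hQ
    refine ⟨C + C', d + d', fun N hN v hv => ?_⟩
    have hN' : (1 : ℤ) ≤ N := by exact_mod_cast hN
    rw [map_add]
    have e1 : (N : ℤ) ^ d ≤ (N : ℤ) ^ (d + d') := pow_le_pow_right₀ hN' (by omega)
    have e2 : (N : ℤ) ^ d' ≤ (N : ℤ) ^ (d + d') := pow_le_pow_right₀ hN' (by omega)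
    calc |MvPolynomial.eval v P + MvPolynomial.eval v Q| ≤
        |MvPolynomial.eval v P| + |MvPolynomial.eval v Q| := abs_add_le _ _
      _ ≤ C * (N : ℤ) ^ d + C' * (N : ℤ) ^ d' := add_le_add (h N hN v hv) (h' N hN v hv)
      _ ≤ C * (N : ℤ) ^ (d + d') + C' * (N : ℤ) ^ (d + d') := by gcongr
      _ = ((C + C' : ℕ) : ℤ) * (N : ℤ) ^ (d + d') := by push_cast; ring
  | mul_X P j hP =>
    obtain ⟨C, d, h⟩ := hP
    refine ⟨C, d + 1, fun N hN v hv => ?_⟩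
    rw [map_mul, MvPolynomial.eval_X, abs_mul, pow_succ, ← mul_assoc]
    exact mul_le_mul (h N hN v hv) (hv j) (abs_nonneg _) (by positivity)

/-- the coordinates of the multiples are bounded polynomially -/
theorem T_bound (A B : ℤ) (n : ℕ) : ∃ C d : ℕ, 1 ≤ C ∧ ∀ N : ℕ, 1 ≤ N → ∀ D X Y Z : ℤ,
    |D| ≤ N → |X| ≤ N → |Y| ≤ N → |Z| ≤ N →
      |T (tw A B D) X Y Z n 0| ≤ C * (N : ℤ) ^ d ∧ |T (tw A B D) X Y Z n 2| ≤ C * (N : ℤ) ^ d := by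
  obtain ⟨W, hW⟩ : ∃ W : WeierstrassCurve (MvPolynomial (Fin 4) ℤ), W =
      ⟨0, 0, 0, MvPolynomial.C A * MvPolynomial.X 0 ^ 2, MvPolynomial.C B * MvPolynomial.X 0 ^ 3⟩ :=
    ⟨_, rfl⟩
  obtain ⟨C, d, h⟩ := mv_bound (T W (MvPolynomial.X 1) (MvPolynomial.X 2) (MvPolynomial.X 3) n 0)
  obtain ⟨C', d', h'⟩ := mv_bound (T W (MvPolynomial.X 1) (MvPolynomial.X 2) (MvPolynomial.X 3) n 2)
  refine ⟨C + C' + 1, d + d', by omega, fun N hN D X Y Z hD hX hY hZ => ?_⟩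
  have hN' : (1 : ℤ) ≤ N := by exact_mod_cast hN
  have hv : ∀ j, |(![D, X, Y, Z] : Fin 4 → ℤ) j| ≤ N := by
    intro j
    fin_cases j
    · exact hD
    · exact hX
    · exact hY
    · exact hZ
  have key : ∀ i, T (tw A B D) X Y Z n i = MvPolynomial.eval ![D, X, Y, Z]
      (T W (MvPolynomial.X 1) (MvPolynomial.X 2) (MvPolynomial.X 3) n i) := by
    intro i
    have h1 := T_map (MvPolynomial.eval (![D, X, Y, Z] : Fin 4 → ℤ)) W (MvPolynomial.X 1)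
      (MvPolynomial.X 2) (MvPolynomial.X 3) n i
    rw [MvPolynomial.eval_X, MvPolynomial.eval_X, MvPolynomial.eval_X] at h1
    have h2 : W.map (MvPolynomial.eval (![D, X, Y, Z] : Fin 4 → ℤ)) = tw A B D := by
      rw [hW]
      ext <;> simp [tw]
    rw [h2] at h1
    exact h1
  have e1 : (N : ℤ) ^ d ≤ (N : ℤ) ^ (d + d') := pow_le_pow_right₀ hN' (by omega)
  have e2 : (N : ℤ) ^ d' ≤ (N : ℤ) ^ (d + d') := pow_le_pow_right₀ hN' (by omega)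
  constructor
  · rw [key]
    refine (h N hN _ hv).trans ?_
    calc (C : ℤ) * (N : ℤ) ^ d ≤ C * (N : ℤ) ^ (d + d') := by gcongr
      _ ≤ ((C + C' + 1 : ℕ) : ℤ) * (N : ℤ) ^ (d + d') := by
        apply mul_le_mul_of_nonneg_right _ (by positivity)
        push_cast
        linarith [Int.natCast_nonneg C']
  · rw [key]
    refine (h' N hN _ hv).trans ?_
    calc (C' : ℤ) * (N : ℤ) ^ d' ≤ C' * (N : ℤ) ^ (d + d') := by gcongr
      _ ≤ ((C + C' + 1 : ℕ) : ℤ) * (N : ℤ) ^ (d + d') := by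
        apply mul_le_mul_of_nonneg_right _ (by positivity)
        push_cast
        linarith [Int.natCast_nonneg C]

/-- the sizes of the coordinates of the multiple in lowest terms -/
theorem size_mult (A B : ℤ) (M : ℕ) : ∃ C d : ℕ, 1 ≤ C ∧ ∀ N : ℕ, 1 ≤ N → ∀ D : ℤ, |D| ≤ N →
    ∀ (Q : (WQ (tw A B D)).Point) (x y : ℚ) (hP : (WQ (tw A B D)).Nonsingular x y),
      Q = .some _ _ hP → |x.num| ≤ N → x.den ≤ N → M • Q ≠ 0 → ∀ a b e : ℤ,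
        Rep (tw A B D) (M • Q) a b e → IsCoprime a e →
          |a| ≤ C * (N : ℤ) ^ d ∧ |D * e ^ 2| ≤ C * (N : ℤ) ^ d := by
  obtain ⟨C, d, hC, hT⟩ := T_bound A B M
  obtain ⟨c, hc⟩ : ∃ c : ℕ, c = A.natAbs + B.natAbs + 1 := ⟨_, rfl⟩
  refine ⟨(C * (c ^ d)) ^ 2, 2 * (6 * d) + 1, Nat.one_le_pow _ _ (Nat.mul_pos hC
    (Nat.pow_pos (by omega))), ?_⟩
  intro N hN D hD Q x y hP hQ hx hy hMQ a b e hrep hcop
  have hQ0 : Q ≠ 0 := by
    rw [hQ]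
    exact Affine.Point.some_ne_zero _
  obtain ⟨X, Y, Z, hXYZ, hcXZ, hxX⟩ :=
    exists_lowest (α := A * D ^ 2) (β := B * D ^ 3) (Q := Q) hQ0
  obtain ⟨rfl, hZ2⟩ := hxX x y hP hQ
  have hN' : (1 : ℤ) ≤ N := by exact_mod_cast hN
  have hc1 : (1 : ℤ) ≤ c := by
    rw [hc]
    push_cast
    linarith [abs_nonneg A, abs_nonneg B]
  have hZle : Z ^ 2 ≤ N := by
    rw [hZ2]
    exact_mod_cast hy
  obtain ⟨N', hN''⟩ : ∃ N' : ℕ, N' = c * N ^ 6 := ⟨_, rfl⟩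
  have hNN : (N : ℤ) ≤ N' := by
    rw [hN'']
    push_cast
    calc (N : ℤ) = 1 * (N : ℤ) ^ 1 := by ring
      _ ≤ c * (N : ℤ) ^ 6 := by
        apply mul_le_mul hc1 (pow_le_pow_right₀ hN' (by norm_num)) (by positivity) (by positivity)
  have hZa : |Z| ≤ N := by
    have h1 : |Z| ≤ Z ^ 2 := by
      rw [← sq_abs]
      nlinarith [Int.one_le_abs hXYZ.1]
    exact h1.trans hZle
  have hYa : |Y| ≤ N' := by
    have heq := onCurve_sh hXYZ.onCurve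
    have h1 : |Y| ≤ Y ^ 2 := by
      rcases eq_or_ne Y 0 with h | h
      · rw [h]; norm_num
      · rw [← sq_abs]
        nlinarith [Int.one_le_abs h]
    refine h1.trans ?_
    rw [heq, hN'', hc]
    have hx3 : x.num ^ 3 ≤ (N : ℤ) ^ 6 := by
      calc x.num ^ 3 ≤ |x.num| ^ 3 := by
            rw [← abs_pow]
            exact le_abs_self _
        _ ≤ (N : ℤ) ^ 3 := by gcongr
        _ ≤ (N : ℤ) ^ 6 := pow_le_pow_right₀ hN' (by norm_num)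
    have hA3 : A * D ^ 2 * x.num * Z ^ 4 ≤ |A| * (N : ℤ) ^ 6 := by
      calc A * D ^ 2 * x.num * Z ^ 4 ≤ |A * D ^ 2 * x.num * Z ^ 4| := le_abs_self _
        _ = |A| * (|D| ^ 2 * |x.num| * (Z ^ 2) ^ 2) := by
          rw [abs_mul, abs_mul, abs_mul, abs_pow, abs_of_nonneg (by positivity : 0 ≤ Z ^ 4)]
          ring
        _ ≤ |A| * ((N : ℤ) ^ 2 * N * (N : ℤ) ^ 2) := by gcongr
        _ = |A| * (N : ℤ) ^ 5 := by ring
        _ ≤ |A| * (N : ℤ) ^ 6 := by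
          apply mul_le_mul_of_nonneg_left _ (abs_nonneg _)
          exact pow_le_pow_right₀ hN' (by norm_num)
    have hB3 : B * D ^ 3 * Z ^ 6 ≤ |B| * (N : ℤ) ^ 6 := by
      calc B * D ^ 3 * Z ^ 6 ≤ |B * D ^ 3 * Z ^ 6| := le_abs_self _
        _ = |B| * (|D| ^ 3 * (Z ^ 2) ^ 3) := by
          rw [abs_mul, abs_mul, abs_pow, abs_of_nonneg (by positivity : 0 ≤ Z ^ 6)]
          ring
        _ ≤ |B| * ((N : ℤ) ^ 3 * (N : ℤ) ^ 3) := by gcongr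
        _ = |B| * (N : ℤ) ^ 6 := by ring
    push_cast
    calc x.num ^ 3 + A * D ^ 2 * x.num * Z ^ 4 + B * D ^ 3 * Z ^ 6 ≤
        (N : ℤ) ^ 6 + |A| * (N : ℤ) ^ 6 + |B| * (N : ℤ) ^ 6 := by linarith
      _ = (|A| + |B| + 1) * (N : ℤ) ^ 6 := by ring
  have hN'1 : 1 ≤ N' := by
    have : (1 : ℤ) ≤ N' := hN'.trans hNN
    exact_mod_cast this
  obtain ⟨hT0, hT2⟩ := hT N' hN'1 D x.num Y Z (hD.trans hNN) (hx.trans hNN) hYa (hZa.trans hNN)
  obtain ⟨κ, hκ, h0, -, h2⟩ := (Rep.smul (W := tw A B D) hXYZ M hMQ).unique hrep hcop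
  have hκ1 : 1 ≤ κ ^ 2 := by
    have := Int.one_le_abs hκ
    rw [← sq_abs]
    nlinarith
  have hbd : (C : ℤ) * (N' : ℤ) ^ d = (C * c ^ d : ℕ) * (N : ℤ) ^ (6 * d) := by
    rw [hN'']
    push_cast
    ring
  rw [h0, hbd] at hT0
  rw [h2, hbd] at hT2
  have hCc : (1 : ℤ) ≤ ((C * c ^ d : ℕ) : ℤ) := by
    exact_mod_cast Nat.mul_pos hC (Nat.pow_pos (by omega))
  obtain ⟨K, hK⟩ : ∃ K : ℤ, K = ((C * c ^ d : ℕ) : ℤ) := ⟨_, rfl⟩
  rw [← hK] at hT0 hT2 hCc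
  have hNd : (1 : ℤ) ≤ (N : ℤ) ^ (6 * d) := one_le_pow₀ hN'
  have hgoal : (((C * c ^ d) ^ 2 : ℕ) : ℤ) * (N : ℤ) ^ (2 * (6 * d) + 1) =
      (K * (N : ℤ) ^ (6 * d)) ^ 2 * N := by
    rw [hK]
    push_cast
    ring
  rw [hgoal]
  obtain ⟨U, hU⟩ : ∃ U : ℤ, U = K * (N : ℤ) ^ (6 * d) := ⟨_, rfl⟩
  rw [← hU] at hT0 hT2 ⊢
  have hKN : 1 ≤ U := by
    rw [hU]
    calc (1 : ℤ) = 1 * 1 := by ring
      _ ≤ K * (N : ℤ) ^ (6 * d) := mul_le_mul hCc hNd (by norm_num) (by linarith)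
  have hU2 : U ≤ U ^ 2 * N := by
    calc U = U ^ 1 * 1 := by ring
      _ ≤ U ^ 2 * N := mul_le_mul (pow_le_pow_right₀ hKN (by norm_num)) hN' (by norm_num)
        (by positivity)
  constructor
  · rw [abs_mul, abs_of_nonneg (by positivity : 0 ≤ κ ^ 2)] at hT0
    calc |a| = 1 * |a| := (one_mul _).symm
      _ ≤ κ ^ 2 * |a| := mul_le_mul_of_nonneg_right hκ1 (abs_nonneg a)
      _ ≤ U := hT0
      _ ≤ U ^ 2 * N := hU2
  · rw [abs_mul] at hT2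
    have h3 : |e| ≤ U := by
      calc |e| = 1 * |e| := (one_mul _).symm
        _ ≤ |κ| * |e| := mul_le_mul_of_nonneg_right (Int.one_le_abs hκ) (abs_nonneg e)
        _ ≤ U := hT2
    have h4 : e ^ 2 ≤ U ^ 2 := by
      rw [← sq_abs]
      exact pow_le_pow_left₀ (abs_nonneg e) h3 2
    rw [abs_mul, abs_of_nonneg (by positivity : 0 ≤ e ^ 2)]
    calc |D| * e ^ 2 ≤ N * U ^ 2 := mul_le_mul hD h4 (by positivity) (by positivity)
      _ = U ^ 2 * N := by ring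

end Pool.Agent.W2helper22.Tw
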