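import Pool.Agent.W2helper22.Tw.Zer

/-!
# Combinations of independent power series
-/

set_option autoImplicit false

namespace Pool.Agent.W2helper22.Tw

open PowerSeries Pool.Agent.Y732 Filter Topology

variable {p : ℕ} [hp : Fact p.Prime]

/-- the combination with the coefficients `c` -/
noncomputable def comb {J : ℕ} (f : Fin J → ℤ_[p]⟦X⟧) (c : Fin J → ℤ_[p]) : ℤ_[p]⟦X⟧ :=
  ∑ j, C (c j) * f j

lemma coeff_comb {J : ℕ} (f : Fin J → ℤ_[p]⟦X⟧) (c : Fin J → ℤ_[p]) (n : ℕ) :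
    coeff n (comb f c) = ∑ j, c j * coeff n (f j) := by
  unfold comb
  rw [map_sum]
  exact Finset.sum_congr rfl fun j _ => coeff_C_mul _ _ _

lemma ev_comb {J : ℕ} {x : ℤ_[p]} (hx : (p : ℤ_[p]) ∣ x) (f : Fin J → ℤ_[p]⟦X⟧)
    (c : Fin J → ℤ_[p]) : ev x (comb f c) = ∑ j, c j * ev x (f j) := by
  rw [← evHom_apply x hx, comb, map_sum]
  refine Finset.sum_congr rfl fun j _ => ?_
  rw [map_mul]
  simp only [evHom_apply, ev_C']

/-- the independence of a finite family over `ℤ_p` -/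
def Indep {J : ℕ} (f : Fin J → ℤ_[p]⟦X⟧) : Prop := ∀ c : Fin J → ℤ_[p], comb f c = 0 → c = 0

/-- primitive combinations have a large coefficient of bounded index -/
theorem uniform {J : ℕ} {f : Fin J → ℤ_[p]⟦X⟧} (hf : Indep f) :
    ∃ (n₀ : ℕ) (δ : ℝ), 0 < δ ∧ ∀ c : Fin J → ℤ_[p], (∃ j, ‖c j‖ = 1) →
      ∃ n ≤ n₀, δ ≤ ‖coeff n (comb f c)‖ := by
  by_contra hcon
  push Not at hcon
  have h1 : ∀ m : ℕ, ∃ c : Fin J → ℤ_[p], (∃ j, ‖c j‖ = 1) ∧
      ∀ n ≤ m, ‖coeff n (comb f c)‖ < 1 / ((m : ℝ) + 1) := fun m => by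
    obtain ⟨c, hc, h⟩ := hcon m (1 / ((m : ℝ) + 1)) (by positivity)
    exact ⟨c, hc, h⟩
  choose c hc hs using h1
  choose j hj using hc
  obtain ⟨i, hi⟩ : ∃ i : Fin J, ∃ᶠ m in atTop, j m = i := by
    by_contra hno
    push Not at hno
    have h2 : ∀ i, ∀ᶠ m in atTop, j m ≠ i := hno
    obtain ⟨m, hm⟩ := (eventually_all.2 h2).exists
    exact hm (j m) rfl
  obtain ⟨φ, hφ, hφi⟩ := Filter.extraction_of_frequently_atTop hi
  obtain ⟨a, ψ, hψ, ha⟩ := CompactSpace.tendsto_subseq (fun m => c (φ m))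
  have hlim : ∀ k, Tendsto (fun m => c (φ (ψ m)) k) atTop (𝓝 (a k)) := fun k =>
    (tendsto_pi_nhds.1 ha) k
  have hai : ‖a i‖ = 1 := by
    have h3 := (hlim i).norm
    have h4 : (fun m => ‖c (φ (ψ m)) i‖) = fun _ => 1 := by
      funext m
      have h5 := hj (φ (ψ m))
      rwa [hφi] at h5
    rw [h4] at h3
    exact (tendsto_nhds_unique h3 tendsto_const_nhds)
  have hcomb : comb f a = 0 := by
    ext n
    rw [map_zero]
    have h3 : Tendsto (fun m => coeff n (comb f (c (φ (ψ m))))) atTop (𝓝 (coeff n (comb f a))) := by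
      simp only [coeff_comb]
      exact tendsto_finsetSum _ fun k _ => (hlim k).mul_const _
    have h4 : Tendsto (fun m => coeff n (comb f (c (φ (ψ m))))) atTop (𝓝 0) := by
      rw [tendsto_zero_iff_norm_tendsto_zero]
      refine squeeze_zero' (Eventually.of_forall fun m => norm_nonneg _)
        (g := fun m : ℕ => 1 / ((m : ℝ) + 1)) ?_ tendsto_one_div_add_atTop_nhds_zero_nat
      filter_upwards [eventually_ge_atTop n] with m hm
      have h5 : m ≤ φ (ψ m) := (hφ.comp hψ).le_apply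
      refine (hs (φ (ψ m)) n (hm.trans h5)).le.trans ?_
      have h6 : (m : ℝ) ≤ (φ (ψ m) : ℝ) := by exact_mod_cast h5
      apply one_div_le_one_div_of_le (by positivity)
      linarith
    exact tendsto_nhds_unique h3 h4
  have := hf a hcomb
  rw [this] at hai
  simp at hai

end Pool.Agent.W2helper22.Tw
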