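import Pool.Agent.W2helper22.Tw.Tran
import Pool.Agent.W2helper22.Tw.Uni

/-!
# The even data of a sigma function and the independence of the monomials
-/

set_option autoImplicit false

namespace Pool.Agent.W2helper22.Tw

open PowerSeries Pool.Agent.Y732

variable {p : ℕ} [hp : Fact p.Prime]

/-- The data of the sigma function of `y² = x³ + A x + B` as power series in `T = t²`:
`x = 1 / (T u)`, `ω = g dt`, `σ = t s`, `dσ / (ω σ) = F / t`. -/
structure TD (A B : ℤ_[p]) where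
  c : ℤ_[p]
  u : ℤ_[p]⟦X⟧
  g : ℤ_[p]⟦X⟧
  F : ℤ_[p]⟦X⟧
  s : ℤ_[p]⟦X⟧
  e0 : u = 1 + C A * X ^ 2 * u ^ 2 + C B * X ^ 3 * u ^ 3
  e1 : u * g = u + X * d⁄dX ℤ_[p] u
  e2 : u * (F - 2 * X * d⁄dX ℤ_[p] F) = g * (1 + C c * X * u)
  e3 : g * (s * F) = s + 2 * X * d⁄dX ℤ_[p] s
  s0 : constantCoeff s = 1

namespace TD

variable {A B : ℤ_[p]} (d : TD A B)

lemma u0 : constantCoeff d.u = 1 := by
  have := congrArg constantCoeff d.e0
  simpa using this

lemma g0 : constantCoeff d.g = 1 := by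
  have := congrArg constantCoeff d.e1
  simpa [d.u0] using this

lemma exists_v : ∃ v, d.u * v = 1 := (isUnit_of_const d.u0).exists_right_inv

/-- the inverse of `u` -/
noncomputable def v : ℤ_[p]⟦X⟧ := d.exists_v.choose

lemma uv : d.u * d.v = 1 := d.exists_v.choose_spec

/-- the function `(σ² / T) / u`, to the power `h` -/
noncomputable def G (h : ℕ) : ℤ_[p]⟦X⟧ := (d.s ^ 2 * d.v) ^ h

lemma s_ne : d.s ≠ 0 := by
  intro h
  have := d.s0
  rw [h, map_zero] at this
  exact zero_ne_one this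

lemma v_ne : d.v ≠ 0 := by
  intro h
  have := d.uv
  rw [h, mul_zero] at this
  exact zero_ne_one this

lemma G_ne (h : ℕ) : d.G h ≠ 0 := pow_ne_zero _ (mul_ne_zero (pow_ne_zero _ d.s_ne) d.v_ne)

lemma exists_r : ∃ r, d.u * d.g * r = 1 :=
  ((isUnit_of_const d.u0).mul (isUnit_of_const d.g0)).exists_right_inv

/-- the inverse of the derivative of `X u` -/
noncomputable def r : ℤ_[p]⟦X⟧ := d.exists_r.choose

lemma hr : d.u * d.g * d.r = 1 := d.exists_r.choose_spec

/-- the derivation with respect to `X u` -/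
noncomputable def δ : Derivation ℤ_[p] ℤ_[p]⟦X⟧ ℤ_[p]⟦X⟧ := d.r • d⁄dX ℤ_[p]

lemma δ_apply (f : ℤ_[p]⟦X⟧) : d.δ f = d.r * d⁄dX ℤ_[p] f := rfl

/-- the coordinate `1 / x` -/
noncomputable def w : ℤ_[p]⟦X⟧ := X * d.u

lemma δ_w : d.δ d.w = 1 := by
  rw [δ_apply, w, Derivation.leibniz, PowerSeries.derivative_X]
  simp only [smul_eq_mul, mul_one]
  linear_combination d.hr - d.r * d.e1

lemma w_ne : d.w ≠ 0 := mul_ne_zero X_ne_zero (fun h => by
  have := d.u0
  rw [h, map_zero] at this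
  exact zero_ne_one this)

lemma w_transcendental (P : Polynomial ℤ_[p]) (hP : Polynomial.aeval d.w P = 0) : P = 0 := by
  by_contra hP0
  obtain ⟨Q, hQ, hnd⟩ := Polynomial.exists_eq_pow_rootMultiplicity_mul_and_not_dvd P hP0 0
  rw [map_zero, sub_zero] at hQ hnd
  rw [hQ, map_mul, map_pow, Polynomial.aeval_X] at hP
  have h1 := (mul_eq_zero.1 hP).resolve_left (pow_ne_zero _ d.w_ne)
  apply hnd
  rw [Polynomial.X_dvd_iff]
  have h2 := congrArg constantCoeff h1
  rw [Polynomial.aeval_eq_sum_range, map_sum, map_zero,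
    Finset.sum_eq_single 0] at h2
  · rw [pow_zero, PowerSeries.smul_eq_C_mul, mul_one, constantCoeff_C] at h2
    exact h2
  · intro i _ hi
    rw [PowerSeries.smul_eq_C_mul, map_mul, map_pow, w, map_mul, constantCoeff_X, zero_mul,
      zero_pow hi, mul_zero]
  · intro h
    simp at h

lemma eq_u : Polynomial.aeval d.w (fh A B) = d.u := by
  unfold fh
  simp only [map_add, map_one, map_mul, map_pow, Polynomial.aeval_X, Polynomial.aeval_C]
  conv_rhs => rw [d.e0]
  unfold w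
  have eA : algebraMap ℤ_[p] ℤ_[p]⟦X⟧ A = C A := rfl
  have eB : algebraMap ℤ_[p] ℤ_[p]⟦X⟧ B = C B := rfl
  rw [eA, eB]
  ring

/-- the derivative of the equation -/
lemma g_eq : d.g * (1 - X * (2 * C A * d.w + 3 * C B * d.w ^ 2)) = 1 := by
  have h1 := congrArg (d⁄dX ℤ_[p]) d.e0
  simp only [map_add, Derivation.leibniz, Derivation.leibniz_pow, PowerSeries.derivative_X,
    smul_eq_mul, nsmul_eq_mul, mul_one, Nat.cast_ofNat, Nat.add_one_sub_one] at h1
  have hd1 : d⁄dX ℤ_[p] (1 : ℤ_[p]⟦X⟧) = 0 := Derivation.map_one_eq_zero _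
  have hdA : d⁄dX ℤ_[p] (C A) = 0 := PowerSeries.derivative_C
  have hdB : d⁄dX ℤ_[p] (C B) = 0 := PowerSeries.derivative_C
  rw [hd1, hdA, hdB] at h1
  have hu : d.u ≠ 0 := fun h => by
    have := d.u0
    rw [h, map_zero] at this
    exact zero_ne_one this
  apply mul_left_cancel₀ hu
  simp only [pow_one] at h1
  unfold w
  linear_combination (1 - X * (2 * C A * (X * d.u) + 3 * C B * (X * d.u) ^ 2)) * d.e1 + X * h1

lemma e1' : Polynomial.aeval d.w (2 * Polynomial.X * fh A B) * d.δ d.F =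
    Polynomial.aeval d.w (fa A B) * d.F - Polynomial.aeval d.w (1 + Polynomial.C d.c * Polynomial.X) := by
  rw [map_mul, map_mul, d.eq_u, δ_apply]
  unfold fa
  have e2 : Polynomial.aeval d.w (2 : Polynomial ℤ_[p]) = 2 := map_ofNat _ 2
  simp only [map_add, map_sub, map_one, map_mul, map_pow, Polynomial.aeval_X, Polynomial.aeval_C, e2]
  have eA : algebraMap ℤ_[p] ℤ_[p]⟦X⟧ A = C A := rfl
  have eB : algebraMap ℤ_[p] ℤ_[p]⟦X⟧ B = C B := rfl
  have ec : algebraMap ℤ_[p] ℤ_[p]⟦X⟧ d.c = C d.c := rfl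
  rw [eA, eB, ec]
  have hne : d.u * d.g ≠ 0 := fun h => by
    have := d.hr
    rw [h, zero_mul] at this
    exact zero_ne_one this
  apply mul_left_cancel₀ hne
  have h1 := d.g_eq
  have h2 := d.e0
  have h3 := d.e2
  unfold w at h1 ⊢
  have ha : d.g * (1 - C A * (X * d.u) ^ 2 - 2 * C B * (X * d.u) ^ 3) = d.u := by
    linear_combination d.u * h1 - d.g * h2
  linear_combination (2 * X * d.u ^ 2 * d⁄dX ℤ_[p] d.F) * d.hr - d.u * d.F * ha + d.u * (-h3)

lemma e2' (h : ℕ) : d.w * d.δ (d.G h) = (h : ℤ_[p]⟦X⟧) * (d.G h * (d.F - 1)) := by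
  have hne : d.u * d.g ≠ 0 := fun h => by
    have := d.hr
    rw [h, zero_mul] at this
    exact zero_ne_one this
  have hq : d.w * d.δ (d.s ^ 2 * d.v) = (d.s ^ 2 * d.v) * (d.F - 1) := by
    have huv := d.uv
    have hv : d⁄dX ℤ_[p] d.u * d.v + d.u * d⁄dX ℤ_[p] d.v = 0 := by
      have h1 := congrArg (d⁄dX ℤ_[p]) d.uv
      rw [Derivation.leibniz, Derivation.map_one_eq_zero] at h1
      simp only [smul_eq_mul] at h1
      linear_combination h1
    have hv' : d⁄dX ℤ_[p] d.v = -(d.v ^ 2 * d⁄dX ℤ_[p] d.u) := by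
      linear_combination d.v * hv - d⁄dX ℤ_[p] d.v * huv
    rw [δ_apply, Derivation.leibniz, Derivation.leibniz_pow]
    simp only [smul_eq_mul, nsmul_eq_mul, Nat.cast_ofNat, Nat.add_one_sub_one, pow_one]
    rw [hv']
    apply mul_left_cancel₀ hne
    unfold w
    have h3 := d.e3
    have h1 := d.e1
    linear_combination (X * d.u * (2 * d.s * d⁄dX ℤ_[p] d.s * d.v - d.s ^ 2 * d.v ^ 2 * d⁄dX ℤ_[p] d.u)) * d.hr
      - d.u * d.v * d.s * h3 + d.s ^ 2 * d.v * h1 - d.s ^ 2 * d.v * X * d⁄dX ℤ_[p] d.u * huv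
  rcases Nat.eq_zero_or_pos h with rfl | hh
  · unfold G
    rw [pow_zero, Derivation.map_one_eq_zero]
    simp
  · obtain ⟨i, rfl⟩ : ∃ i, h = i + 1 := ⟨h - 1, by omega⟩
    unfold G
    rw [Derivation.leibniz_pow, Nat.add_sub_cancel, smul_eq_mul, nsmul_eq_mul]
    linear_combination ((i + 1 : ℕ) : ℤ_[p]⟦X⟧) * (d.s ^ 2 * d.v) ^ i * hq

/-- the monomials -/
noncomputable def mon (h L : ℕ) (i : Fin (L * L)) : ℤ_[p]⟦X⟧ :=
  d.w ^ ((finProdFinEquiv.symm i).2 : ℕ) * d.G h ^ (L + ((finProdFinEquiv.symm i).1 : ℕ))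

/-- the independence of the monomials -/
theorem indep (hAB : 4 * A ^ 3 + 27 * B ^ 2 ≠ 0) {h : ℕ} (hh : 1 ≤ h) (L : ℕ) :
    Indep (d.mon h L) := by
  intro c hc
  obtain ⟨Q, hQ⟩ : ∃ Q : Polynomial (Polynomial ℤ_[p]), Q = ∑ i : Fin (L * L),
      Polynomial.monomial ((finProdFinEquiv.symm i).1 : ℕ)
        (Polynomial.monomial ((finProdFinEquiv.symm i).2 : ℕ) (c i)) := ⟨_, rfl⟩
  have h1 : Polynomial.eval₂ (Polynomial.aeval d.w : Polynomial ℤ_[p] →ₐ[ℤ_[p]] _).toRingHom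
      (d.G h) Q = 0 := by
    have h2 : d.G h ^ L * Polynomial.eval₂
        (Polynomial.aeval d.w : Polynomial ℤ_[p] →ₐ[ℤ_[p]] _).toRingHom (d.G h) Q = 0 := by
      rw [← hc, hQ, Polynomial.eval₂_finsetSum, Finset.mul_sum]
      unfold comb mon
      refine Finset.sum_congr rfl fun i _ => ?_
      rw [Polynomial.eval₂_monomial]
      have h3 : (Polynomial.aeval d.w : Polynomial ℤ_[p] →ₐ[ℤ_[p]] ℤ_[p]⟦X⟧).toRingHom
          (Polynomial.monomial ((finProdFinEquiv.symm i).2 : ℕ) (c i)) =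
          C (c i) * d.w ^ ((finProdFinEquiv.symm i).2 : ℕ) := by
        change Polynomial.aeval d.w (Polynomial.monomial _ (c i)) = _
        rw [Polynomial.aeval_monomial]
        rfl
      rw [h3, pow_add]
      ring
    exact (mul_eq_zero.1 h2).resolve_left (pow_ne_zero _ (d.G_ne h))
  have hh' : ((h : ℕ) : ℤ_[p]⟦X⟧) ≠ 0 := by
    intro h0
    have h2 := congrArg constantCoeff h0
    rw [map_natCast, map_zero] at h2
    have : h = 0 := by exact_mod_cast h2
    omega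
  have h2 := transcendental d.δ d.w d.δ_w d.w_transcendental hAB (d.G_ne h) hh' d.e1' (d.e2' h) Q h1
  funext i
  have h3 := congrArg (fun P => (P.coeff ((finProdFinEquiv.symm i).1 : ℕ)).coeff
    ((finProdFinEquiv.symm i).2 : ℕ)) h2
  simp only [hQ, Polynomial.finsetSum_coeff, Polynomial.coeff_zero] at h3
  rw [Finset.sum_eq_single i] at h3
  · rw [Polynomial.coeff_monomial_same, Polynomial.coeff_monomial_same] at h3
    exact h3
  · intro j _ hj
    by_cases h4 : ((finProdFinEquiv.symm j).1 : ℕ) = ((finProdFinEquiv.symm i).1 : ℕ)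
    · rw [h4, Polynomial.coeff_monomial_same, Polynomial.coeff_monomial, if_neg]
      intro h5
      apply hj
      apply finProdFinEquiv.symm.injective
      exact Prod.ext (Fin.ext h4) (Fin.ext h5)
    · rw [Polynomial.coeff_monomial, if_neg h4, Polynomial.coeff_zero]
  · intro h4
    exact absurd (Finset.mem_univ i) h4

end TD

end Pool.Agent.W2helper22.Tw
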