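import Pool.Agent.W2helper22.Tw.Alg

/-!
# Algebraic solutions of linear differential equations of the first order
-/

set_option autoImplicit false

namespace Pool.Agent.W2helper22.Tw

open Polynomial
open scoped Differential

section diff

variable {A R : Type*} [CommRing A] [IsDomain A] [Differential A] [CommRing R] [IsDomain R]
  [Differential R] [Algebra A R] [DifferentialAlgebra A R] [FaithfulSMul A R] [CharZero A]

omit [IsDomain A] [Differential A] [IsDomain R] [Differential R] [DifferentialAlgebra A R]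
  [CharZero A] in
/-- a relation of minimal degree -/
lemma exists_min {x : R} (hx : IsAlgebraic A x) : ∃ Q : A[X], Q ≠ 0 ∧ aeval x Q = 0 ∧
    1 ≤ Q.natDegree ∧ ∀ P : A[X], aeval x P = 0 → P.natDegree < Q.natDegree → P = 0 := by
  classical
  obtain ⟨Q₀, hQ₀, hQ₀x⟩ := hx
  have hex : ∃ n : ℕ, ∃ Q : A[X], Q ≠ 0 ∧ aeval x Q = 0 ∧ Q.natDegree = n := ⟨_, Q₀, hQ₀, hQ₀x, rfl⟩
  obtain ⟨Q, hQ, hQx, hQn⟩ := Nat.find_spec hex
  refine ⟨Q, hQ, hQx, ?_, fun P hP hPn => ?_⟩
  · by_contra h0
    have h1 : Q.natDegree = 0 := by omega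
    obtain ⟨a, rfl⟩ := natDegree_eq_zero.1 h1
    rw [aeval_C] at hQx
    have h2 : a = 0 := (FaithfulSMul.algebraMap_eq_zero_iff A R).1 hQx
    exact hQ (by rw [h2, map_zero])
  · by_contra hP0
    exact Nat.find_min hex (m := P.natDegree) (by omega) ⟨P, hP0, hP, rfl⟩

/-- the derivative of an algebraic element is algebraic -/
theorem deriv_algebraic {x : R} (hx : IsAlgebraic A x) : IsAlgebraic A x′ := by
  obtain ⟨Q, hQ, hQx, hn, hmin⟩ := exists_min hx
  have h1 := Differential.deriv_aeval_eq x Q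
  rw [hQx, map_zero] at h1
  have h2 : aeval x (derivative Q) ≠ 0 := by
    intro h
    have h3 := hmin _ h (natDegree_derivative_lt (by omega))
    have h4 := congrArg (coeff · (Q.natDegree - 1)) h3
    simp only [coeff_derivative, coeff_zero] at h4
    rw [Nat.sub_add_cancel hn] at h4
    rcases mul_eq_zero.1 h4 with h5 | h5
    · exact hQ (leadingCoeff_eq_zero.1 h5)
    · have : ((Q.natDegree - 1 : ℕ) : A) + 1 = ((Q.natDegree : ℕ) : A) := by
        conv_rhs => rw [← Nat.sub_add_cancel hn]
        push_cast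
        ring
      rw [this] at h5
      exact (by omega : Q.natDegree ≠ 0) (by exact_mod_cast h5)
  have halg : ∀ P : A[X], IsAlgebraic A (aeval x P) := fun P =>
    Algebra.isAlgebraic_adjoin_singleton_iff.mpr hx _ (by
      rw [Algebra.adjoin_singleton_eq_range_aeval]
      exact ⟨P, rfl⟩)
  refine IsAlgebraic.of_mul (mem_nonZeroDivisors_of_ne_zero h2) (halg _) ?_
  have h3 : aeval x (derivative Q) * x′ = -aeval x (Differential.mapCoeffs Q) := by
    linear_combination -h1
  rw [h3]
  exact (halg _).neg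

/-- an algebraic solution of a linear equation gives a rational one -/
theorem algebraic_solution {x : R} (hx : IsAlgebraic A x) (m a b : A)
    (h : algebraMap A R m * x′ = algebraMap A R a * x + algebraMap A R b) :
    ∃ (n : ℕ) (U V : A), 1 ≤ n ∧ V ≠ 0 ∧
      m * (V * U′ - V′ * U) - a * U * V + (n : A) * b * V ^ 2 = 0 := by
  obtain ⟨Q, hQ, hQx, hn, hmin⟩ := exists_min hx
  obtain ⟨k, hk⟩ : ∃ k, Q.natDegree = k + 1 := ⟨Q.natDegree - 1, by omega⟩
  have h1 := Differential.deriv_aeval_eq x Q
  rw [hQx, map_zero] at h1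
  obtain ⟨P, hP⟩ : ∃ P : A[X], P = C m * Differential.mapCoeffs Q +
      derivative Q * (C a * X + C b) := ⟨_, rfl⟩
  have hPx : aeval x P = 0 := by
    rw [hP, map_add, map_mul, map_mul, map_add, map_mul, aeval_C, aeval_C, aeval_C, aeval_X, ← h]
    linear_combination (-algebraMap A R m) * h1
  have hc1 : P.coeff (k + 1) = m * (Q.coeff (k + 1))′ + ((k : A) + 1) * a * Q.coeff (k + 1) := by
    rw [hP, coeff_add, coeff_C_mul, Differential.coeff_mapCoeffs, mul_add, coeff_add,
      ← mul_assoc, coeff_mul_X, coeff_mul_C, coeff_mul_C, coeff_derivative, coeff_derivative,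
      coeff_eq_zero_of_natDegree_lt (p := Q) (n := k + 1 + 1) (by omega)]
    ring
  have hc0 : P.coeff k = m * (Q.coeff k)′ + (k : A) * a * Q.coeff k +
      ((k : A) + 1) * b * Q.coeff (k + 1) := by
    rw [hP, coeff_add, coeff_C_mul, Differential.coeff_mapCoeffs, mul_add, coeff_add,
      ← mul_assoc, coeff_mul_C, coeff_derivative]
    rcases Nat.eq_zero_or_pos k with rfl | hk0
    · rw [coeff_mul_X_zero]
      push_cast
      ring
    · obtain ⟨i, rfl⟩ : ∃ i, k = i + 1 := ⟨k - 1, by omega⟩
      rw [coeff_mul_X, coeff_mul_C, coeff_derivative]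
      push_cast
      ring
  have hcb : ∀ i, k + 1 < i → P.coeff i = 0 := by
    intro i hi
    obtain ⟨i, rfl⟩ : ∃ j, i = j + 1 := ⟨i - 1, by omega⟩
    rw [hP, coeff_add, coeff_C_mul, Differential.coeff_mapCoeffs, mul_add, coeff_add,
      ← mul_assoc, coeff_mul_X, coeff_mul_C, coeff_mul_C, coeff_derivative, coeff_derivative,
      coeff_eq_zero_of_natDegree_lt (p := Q) (n := i + 1 + 1) (by omega),
      coeff_eq_zero_of_natDegree_lt (p := Q) (n := i + 1) (by omega)]
    simp
  have hS : C (Q.coeff (k + 1)) * P - C (P.coeff (k + 1)) * Q = 0 := by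
    apply hmin
    · rw [map_sub, map_mul, map_mul, hPx, hQx, mul_zero, mul_zero, sub_zero]
    · rw [hk]
      by_contra hge
      push Not at hge
      obtain ⟨S, hSd⟩ : ∃ S, S = C (Q.coeff (k + 1)) * P - C (P.coeff (k + 1)) * Q := ⟨_, rfl⟩
      rw [← hSd] at hge
      have hS0 : S ≠ 0 := by
        rintro h0
        rw [h0, natDegree_zero] at hge
        omega
      have h2 : S.coeff S.natDegree ≠ 0 := leadingCoeff_ne_zero.2 hS0
      have h3 : ∀ i, k + 1 ≤ i → S.coeff i = 0 := by
        intro i hi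
        rw [hSd, coeff_sub, coeff_C_mul, coeff_C_mul]
        rcases Nat.lt_or_ge (k + 1) i with h3 | h3
        · rw [hcb _ h3, coeff_eq_zero_of_natDegree_lt (p := Q) (n := i) (by omega)]
          ring
        · have h4 : i = k + 1 := by omega
          rw [h4]
          ring
      exact h2 (h3 _ hge)
  have h2 := congrArg (coeff · k) hS
  simp only [coeff_sub, coeff_C_mul, coeff_zero] at h2
  rw [hc0, hc1] at h2
  refine ⟨k + 1, Q.coeff k, Q.coeff (k + 1), by omega, ?_, ?_⟩
  · rw [← hk]
    exact leadingCoeff_ne_zero.2 hQ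
  · push_cast
    linear_combination h2

end diff

/-- the transcendence of the sigma function -/
theorem transcendental {k R : Type*} [CommRing k] [IsDomain k] [CharZero k] [CommRing R]
    [IsDomain R] [Algebra k R] (δ : Derivation k R R) (w : R) (hw : δ w = 1)
    (htr : ∀ P : k[X], aeval w P = 0 → P = 0) {A B c : k} (hAB : 4 * A ^ 3 + 27 * B ^ 2 ≠ 0)
    {G F : R} (hG : G ≠ 0) {h : ℕ} (hh : (h : R) ≠ 0)
    (e1 : aeval w (2 * X * fh A B) * δ F = aeval w (fa A B) * F - aeval w (1 + C c * X))
    (e2 : w * δ G = h * (G * (F - 1))) (Q : k[X][X])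
    (hQ : eval₂ (aeval w : k[X] →ₐ[k] R).toRingHom G Q = 0) : Q = 0 := by
  let iA : Algebra k[X] R := (aeval w : k[X] →ₐ[k] R).toRingHom.toAlgebra
  let iD : Differential k[X] := ⟨(derivative' : Derivation k k[X] k[X]).restrictScalars ℤ⟩
  let iR : Differential R := ⟨δ.restrictScalars ℤ⟩
  have hmap : ∀ P : k[X], algebraMap k[X] R P = aeval w P := fun P => rfl
  have hD : ∀ P : k[X], P′ = derivative P := fun P => rfl
  have hR : ∀ x : R, x′ = δ x := fun x => rfl
  have iDA : DifferentialAlgebra k[X] R := ⟨fun P => by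
    rw [hmap, hmap, hR, hD, Derivation.map_aeval, hw, smul_eq_mul, mul_one]⟩
  have iF : FaithfulSMul k[X] R := by
    rw [faithfulSMul_iff_algebraMap_injective, injective_iff_map_eq_zero]
    exact htr
  by_contra hQ0
  have hGa : IsAlgebraic k[X] G := ⟨Q, hQ0, hQ⟩
  have hwa : IsAlgebraic k[X] w := by
    have := isAlgebraic_algebraMap (R := k[X]) (A := R) (X : k[X])
    rwa [hmap, aeval_X] at this
  have hha : IsAlgebraic k[X] ((h : R)) := by
    have := isAlgebraic_algebraMap (R := k[X]) (A := R) (h : k[X])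
    rwa [map_natCast] at this
  have hFa : IsAlgebraic k[X] F := by
    refine IsAlgebraic.of_mul (y := (h : R) * G)
      (mem_nonZeroDivisors_of_ne_zero (mul_ne_zero hh hG)) (hha.mul hGa) ?_
    have h1 : (h : R) * G * F = w * G′ + (h : R) * G := by
      rw [hR, e2]
      ring
    rw [h1]
    exact (hwa.mul (deriv_algebraic hGa)).add (hha.mul hGa)
  obtain ⟨n, U, V, hn, hV, hid⟩ := algebraic_solution hFa (2 * X * fh A B) (fa A B)
    (-(1 + C c * X)) (by
      rw [hmap, hmap, hmap, hR, e1, map_neg]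
      ring)
  have : CharZero k[X] := inferInstance
  apply obs_ne_zero hAB hn U V hV (c := c)
  unfold obs
  rw [hD, hD] at hid
  linear_combination hid

end Pool.Agent.W2helper22.Tw
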