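import Pool.Agent.Y732.Ev

/-!
# Approximate zeros of power series over `ℤ_p`
-/

set_option autoImplicit false

namespace Pool.Agent.W2helper22.Tw

open PowerSeries Pool.Agent.Y732

variable {p : ℕ} [hp : Fact p.Prime]

lemma ev_add' {t : ℤ_[p]} (ht : (p : ℤ_[p]) ∣ t) (f g : ℤ_[p]⟦X⟧) :
    ev t (f + g) = ev t f + ev t g := by
  unfold ev
  rw [← (summable_ev ht f).tsum_add (summable_ev ht g)]
  exact tsum_congr fun n => by rw [map_add, add_mul]

lemma ev_C' (t a : ℤ_[p]) : ev t (C a) = a := by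
  unfold ev
  rw [tsum_eq_single 0]
  · simp
  · intro n hn
    rw [coeff_C, if_neg hn, zero_mul]

lemma ev_X' (t : ℤ_[p]) : ev t (X : ℤ_[p]⟦X⟧) = t := by
  unfold ev
  rw [tsum_eq_single 1]
  · simp
  · intro n hn
    rw [coeff_X, if_neg hn, zero_mul]

/-- evaluation as a ring homomorphism -/
noncomputable def evHom (t : ℤ_[p]) (ht : (p : ℤ_[p]) ∣ t) : ℤ_[p]⟦X⟧ →+* ℤ_[p] where
  toFun := ev t
  map_one' := by
    have := ev_C' t (1 : ℤ_[p])
    rwa [map_one] at this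
  map_mul' := ev_mul ht
  map_zero' := by
    have := ev_C' t (0 : ℤ_[p])
    rwa [map_zero] at this
  map_add' := ev_add' ht

lemma evHom_apply (t : ℤ_[p]) (ht : (p : ℤ_[p]) ∣ t) (f : ℤ_[p]⟦X⟧) : evHom t ht f = ev t f := rfl

/-- division by `X - x` -/
noncomputable def dq (x : ℤ_[p]) (f : ℤ_[p]⟦X⟧) : ℤ_[p]⟦X⟧ :=
  PowerSeries.mk fun n => ev x (PowerSeries.mk fun m => coeff (m + (n + 1)) f)

lemma ev_shift {x : ℤ_[p]} (hx : (p : ℤ_[p]) ∣ x) (f : ℤ_[p]⟦X⟧) (n : ℕ) :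
    ev x (PowerSeries.mk fun m => coeff (m + n) f) = coeff n f + x * coeff n (dq x f) := by
  rw [dq, coeff_mk]
  have h := summable_ev hx (PowerSeries.mk fun m => coeff (m + n) f)
  unfold ev at h ⊢
  rw [h.tsum_eq_zero_add, ← (summable_ev hx (PowerSeries.mk fun m => coeff (m + (n + 1)) f)).tsum_mul_left]
  simp only [coeff_mk, zero_add, pow_zero, mul_one]
  congr 1
  refine tsum_congr fun m => ?_
  rw [pow_succ, show m + 1 + n = m + (n + 1) by ring]
  ring

lemma dq_eq {x : ℤ_[p]} (hx : (p : ℤ_[p]) ∣ x) (f : ℤ_[p]⟦X⟧) :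
    f = (X - C x) * dq x f + C (ev x f) := by
  ext n
  rw [sub_mul, map_add, map_sub, coeff_C_mul, coeff_C]
  rcases Nat.eq_zero_or_pos n with rfl | hn
  · rw [if_pos rfl]
    have h := ev_shift hx f 0
    simp only [add_zero] at h
    have e : (PowerSeries.mk fun m => coeff m f) = f := by
      ext m
      rw [coeff_mk]
    rw [e] at h
    rw [h, coeff_zero_X_mul]
    ring
  · obtain ⟨k, rfl⟩ : ∃ k, n = k + 1 := ⟨n - 1, by omega⟩
    rw [if_neg (by omega), coeff_succ_X_mul]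
    have h := ev_shift hx f (k + 1)
    have h2 : coeff k (dq x f) = ev x (PowerSeries.mk fun m => coeff (m + (k + 1)) f) := by
      rw [dq, coeff_mk]
    rw [h2, h]
    ring

lemma coeff_succ_eq {x : ℤ_[p]} (hx : (p : ℤ_[p]) ∣ x) (f : ℤ_[p]⟦X⟧) (k : ℕ) :
    coeff (k + 1) f = coeff k (dq x f) - x * coeff (k + 1) (dq x f) := by
  have h := ev_shift hx f (k + 1)
  have h2 : coeff k (dq x f) = ev x (PowerSeries.mk fun m => coeff (m + (k + 1)) f) := by
    rw [dq, coeff_mk]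
  rw [h2, h]
  ring

lemma coeff_zero_eq {x : ℤ_[p]} (hx : (p : ℤ_[p]) ∣ x) (f : ℤ_[p]⟦X⟧) :
    coeff 0 f = ev x f - x * coeff 0 (dq x f) := by
  have h := ev_shift hx f 0
  simp only [add_zero] at h
  have e : (PowerSeries.mk fun m => coeff m f) = f := by
    ext m
    rw [coeff_mk]
  rw [e] at h
  rw [h]
  ring

lemma ev_dq {x y : ℤ_[p]} (hx : (p : ℤ_[p]) ∣ x) (hy : (p : ℤ_[p]) ∣ y) (f : ℤ_[p]⟦X⟧) :
    ev y f = (y - x) * ev y (dq x f) + ev x f := by
  have h := congrArg (evHom y hy) (dq_eq hx f)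
  rw [map_add, map_mul, map_sub] at h
  simp only [evHom_apply, ev_C', ev_X'] at h
  exact h

lemma norm_sub_max (a b : ℤ_[p]) : ‖a - b‖ ≤ max ‖a‖ ‖b‖ := by
  have := IsUltrametricDist.norm_add_le_max a (-b)
  rwa [norm_neg, ← sub_eq_add_neg] at this

/-- the coefficients of a power series which is small at many points -/
theorem coeff_le {δ : ℝ} (hδ : 0 < δ) (hδ1 : δ ≤ 1) (Z : Finset ℤ_[p]) :
    ∀ (f : ℤ_[p]⟦X⟧) (η : ℝ), 0 ≤ η → (∀ x ∈ Z, (p : ℤ_[p]) ∣ x) →
      (∀ x ∈ Z, ∀ y ∈ Z, x ≠ y → δ ≤ ‖x - y‖) → (∀ x ∈ Z, ‖ev x f‖ ≤ η) →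
      ∀ n < Z.card, ‖coeff n f‖ ≤ max (((p : ℝ)⁻¹) ^ (Z.card - n)) (η * δ⁻¹ ^ (Z.card - 1)) := by
  classical
  have hp1 : (1 : ℝ) < p := by exact_mod_cast hp.out.one_lt
  have hpi : (0 : ℝ) ≤ (p : ℝ)⁻¹ := by positivity
  have hpi1 : (p : ℝ)⁻¹ ≤ 1 := (inv_lt_one_of_one_lt₀ hp1).le
  have hδi : 1 ≤ δ⁻¹ := (one_le_inv₀ hδ).2 hδ1
  induction Z using Finset.induction_on with
  | empty =>
    intro f η _ _ _ _ n hn
    simp at hn
  | insert x Z hx ih =>
    intro f η hη hZ hsep hsmall n hn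
    rw [Finset.card_insert_of_notMem hx] at hn ⊢
    rw [Nat.add_sub_cancel]
    have hxp : (p : ℤ_[p]) ∣ x := hZ x (Finset.mem_insert_self _ _)
    have hxn : ‖x‖ ≤ (p : ℝ)⁻¹ := norm_le_of_dvd hxp
    have hg : ∀ y ∈ Z, ‖ev y (dq x f)‖ ≤ η * δ⁻¹ := by
      intro y hy
      have hyp := hZ y (Finset.mem_insert_of_mem hy)
      have hne : y ≠ x := fun h => hx (h ▸ hy)
      have h1 : (y - x) * ev y (dq x f) = ev y f - ev x f := by
        rw [ev_dq hxp hyp f]
        ring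
      have h2 : ‖ev y f - ev x f‖ ≤ η :=
        (norm_sub_max _ _).trans
          (max_le (hsmall y (Finset.mem_insert_of_mem hy)) (hsmall x (Finset.mem_insert_self _ _)))
      have h3 := hsep y (Finset.mem_insert_of_mem hy) x (Finset.mem_insert_self _ _) hne
      rw [← h1, norm_mul] at h2
      have h4 : δ * ‖ev y (dq x f)‖ ≤ η :=
        (mul_le_mul_of_nonneg_right h3 (norm_nonneg _)).trans h2
      rw [← div_eq_mul_inv, le_div_iff₀ hδ]
      linarith
    have hI := ih (dq x f) (η * δ⁻¹) (by positivity)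
      (fun y hy => hZ y (Finset.mem_insert_of_mem hy))
      (fun y hy z hz => hsep y (Finset.mem_insert_of_mem hy) z (Finset.mem_insert_of_mem hz)) hg
    -- a uniform bound for the coefficients of the quotient
    have hB : ∀ m ≤ Z.card, ‖coeff m (dq x f)‖ ≤
        max (((p : ℝ)⁻¹) ^ (Z.card - m)) (η * δ⁻¹ ^ Z.card) := by
      intro m hm
      rcases Nat.lt_or_ge m Z.card with h | h
      · refine (hI m h).trans (max_le_max le_rfl ?_)
        have e : Z.card = (Z.card - 1) + 1 := by omega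
        rw [mul_assoc, ← pow_succ', ← e]
      · have : Z.card - m = 0 := by omega
        rw [this, pow_zero]
        exact (PadicInt.norm_le_one _).trans (le_max_left _ _)
    have hxB : ∀ m ≤ Z.card, ‖x * coeff m (dq x f)‖ ≤
        max (((p : ℝ)⁻¹) ^ (Z.card + 1 - m)) (η * δ⁻¹ ^ Z.card) := by
      intro m hm
      rw [norm_mul]
      calc ‖x‖ * ‖coeff m (dq x f)‖ ≤
            (p : ℝ)⁻¹ * max (((p : ℝ)⁻¹) ^ (Z.card - m)) (η * δ⁻¹ ^ Z.card) :=
            mul_le_mul hxn (hB m hm) (norm_nonneg _) hpi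
        _ = max ((p : ℝ)⁻¹ * ((p : ℝ)⁻¹) ^ (Z.card - m)) ((p : ℝ)⁻¹ * (η * δ⁻¹ ^ Z.card)) :=
            mul_max_of_nonneg _ _ hpi
        _ ≤ _ := by
            apply max_le_max
            · rw [← pow_succ', show Z.card - m + 1 = Z.card + 1 - m by omega]
            · exact mul_le_of_le_one_left (by positivity) hpi1
    rcases Nat.eq_zero_or_pos n with rfl | hn0
    · rw [coeff_zero_eq hxp f]
      refine (norm_sub_max _ _).trans (max_le ?_ (hxB 0 (Nat.zero_le _)))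
      refine (hsmall x (Finset.mem_insert_self _ _)).trans (le_trans ?_ (le_max_right _ _))
      exact le_mul_of_one_le_right hη (one_le_pow₀ hδi)
    · obtain ⟨k, rfl⟩ : ∃ k, n = k + 1 := ⟨n - 1, by omega⟩
      rw [coeff_succ_eq hxp f k]
      refine (norm_sub_max _ _).trans (max_le ?_ (hxB (k + 1) (by omega)))
      have := hB k (by omega)
      rwa [show Z.card + 1 - (k + 1) = Z.card - k by omega]

end Pool.Agent.W2helper22.Tw
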